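import Pool.Agent.P.MP_992ce1_gt.PP

/-! A minimal cyclic word with few linked pairs is short (abstract combinatorics). -/

namespace Pool.Agent.P992

open Finset

def lf : Letter → Letter
  | (true, false) => (false, true)
  | (false, true) => (true, true)
  | (true, true) => (false, false)
  | (false, false) => (true, false)

lemma dec1 : ∀ z y : Letter, z.1 ≠ y.1 → ori (inv z) (inv y) z * ori (inv z) y z < 0 := by decide
lemma dec2 : ∀ z u : Letter, u ≠ inv z → u ≠ z → u.1 ≠ z.1 := by decide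
lemma dec3 : ∀ z e u : Letter, e.1 ≠ z.1 → u ≠ inv e → u.1 ≠ z.1 → u = e := by decide
lemma dec4 : ∀ z : Letter, lf (inv (lf z)) = z := by decide
lemma dec5 : ∀ u z : Letter, z = u ∨ z = inv (lf u) ∨ z = inv (lf (inv (lf u))) ∨
    z = inv (lf (inv (lf (inv (lf u))))) := by decide
lemma dec6 : ∀ u : Letter, inv u = lf (lf u) := by decide
lemma dec7 : ∀ z : Letter, z.1 ≠ (lf z).1 := by decide

structure Sys (Ω : Type) where
  sh : ℤ → Ω → Ω
  l : Ω → Letter
  rev : Ω → Ω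
  sh_zero : ∀ ω, sh 0 ω = ω
  sh_add : ∀ j k ω, sh (j + k) ω = sh j (sh k ω)
  red : ∀ ω, l (sh 1 ω) ≠ inv (l ω)
  rev_rev : ∀ ω, rev (rev ω) = ω
  l_rev : ∀ ω k, l (sh k (rev ω)) = inv (l (sh (-k) ω))

namespace Sys

variable {Ω : Type} (S : Sys Ω)

def X (ω : Ω) (k : ℤ) : Letter := S.l (S.sh k ω)

lemma X_sh (ω : Ω) (j k : ℤ) : S.X (S.sh j ω) k = S.X ω (k + j) := by
  simp only [X, S.sh_add]

lemma X_red (ω : Ω) : Red1 (S.X ω) := by
  intro k
  simp only [X]
  rw [add_comm, S.sh_add]; exact S.red _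

lemma X_rev (ω : Ω) (k : ℤ) : S.X (S.rev ω) k = inv (S.X ω (-k)) := S.l_rev ω k

lemma sh_inj {j : ℤ} {ω ω' : Ω} (h : S.sh j ω = S.sh j ω') : ω = ω' := by
  have := congrArg (S.sh (-j)) h
  rwa [← S.sh_add, ← S.sh_add, neg_add_cancel, S.sh_zero, S.sh_zero] at this

def Lk (ω ω' : Ω) : Prop := Linked (S.X ω) 0 (S.X ω') 0

variable [Fintype Ω]

open Classical in
noncomputable def N (u v : Letter) : ℕ := (univ.filter fun ω => S.X ω (-1) = u ∧ S.X ω 0 = v).card

open Classical in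
noncomputable def LC : ℕ := (univ.filter fun p : Ω × Ω => S.Lk p.1 p.2).card

lemma N_le_LC {u v : Letter} (h : ∀ ω, S.X ω (-1) = u → S.X ω 0 = v → ∃ ω', S.Lk ω ω') :
    S.N u v ≤ S.LC := by
  classical
  have ex : ∀ ω, ∃ ω', S.X ω (-1) = u → S.X ω 0 = v → S.Lk ω ω' := by
    intro ω
    by_cases hc : S.X ω (-1) = u ∧ S.X ω 0 = v
    · obtain ⟨ω', h'⟩ := h ω hc.1 hc.2
      exact ⟨ω', fun _ _ => h'⟩
    · exact ⟨ω, fun h1 h2 => absurd ⟨h1, h2⟩ hc⟩
  choose f hf using ex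
  unfold N LC
  apply card_le_card_of_injOn (fun ω => (ω, f ω))
  · intro ω hω
    simp only [coe_filter, mem_univ, true_and, Set.mem_ofPred_eq] at hω ⊢
    exact hf ω hω.1 hω.2
  · intro ω _ ω' _ h
    exact (Prod.ext_iff.mp h).1

lemma N_symm_le (u v : Letter) : S.N u v ≤ S.N (inv v) (inv u) := by
  classical
  unfold N
  apply card_le_card_of_injOn (fun ω => S.rev (S.sh (-1) ω))
  · intro ω hω
    simp only [coe_filter, mem_univ, true_and, Set.mem_ofPred_eq] at hω ⊢
    rw [X_rev, X_rev, X_sh, X_sh]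
    norm_num [hω.1, hω.2]
  · intro ω _ ω' _ h
    have := congrArg S.rev h
    simp only [S.rev_rev] at this
    exact S.sh_inj this

lemma N_symm (u v : Letter) : S.N u v = S.N (inv v) (inv u) :=
  le_antisymm (S.N_symm_le u v) (by simpa using S.N_symm_le (inv v) (inv u))

lemma N_inv (u : Letter) : S.N u (inv u) = 0 := by
  classical
  unfold N
  rw [card_eq_zero, filter_eq_empty_iff]
  rintro ω - ⟨h1, h2⟩
  have := S.X_red ω (-1)
  rw [h1] at this
  exact this (by simpa using h2)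

lemma exists_of_N {u v : Letter} (h : S.N u v ≠ 0) : ∃ ω, S.X ω (-1) = u ∧ S.X ω 0 = v := by
  classical
  obtain ⟨ω, hω⟩ := card_ne_zero.mp h
  exact ⟨ω, (mem_filter.mp hω).2⟩

lemma card_eq : Fintype.card Ω = ∑ u, ∑ v, S.N u v := by
  classical
  rw [← sum_product', ← card_univ, card_eq_sum_card_fiberwise
    (f := fun ω => (S.X ω (-1), S.X ω 0)) (t := univ ×ˢ univ) (by simp)]
  refine sum_congr rfl fun p _ => ?_
  unfold N
  congr 1
  ext ω; simp [Prod.ext_iff]

lemma E1 {z y : Letter} (hzy : z.1 ≠ y.1) (h : S.N y y ≠ 0) : S.N z z ≤ S.LC := by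
  obtain ⟨ω', h1, h2⟩ := S.exists_of_N h
  refine S.N_le_LC fun ω a1 a2 => ⟨ω', 0, by simp, ?_⟩
  simp only [zero_sub, Nat.cast_zero, add_zero, a1, a2, h1, h2]
  exact dec1 z y hzy

def Fw (z : Letter) (ω : Ω) (f : ℕ) : Prop := (∀ k : ℕ, k < f → S.X ω k = z) ∧ S.X ω f ≠ z

omit [Fintype Ω] in
lemma exists_fw (hc : ∀ ω, ∃ k : ℕ, S.X ω k ≠ S.X ω 0) (z : Letter) (ω : Ω) : ∃ f, S.Fw z ω f := by
  classical
  have ex : ∃ k : ℕ, S.X ω k ≠ z := by
    by_cases h : S.X ω 0 = z
    · rw [← h]; exact hc ω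
    · exact ⟨0, h⟩
  exact ⟨Nat.find ex, fun k hk => by simpa using Nat.find_min ex hk, Nat.find_spec ex⟩

omit [Fintype Ω] in
lemma link_run {z en : Letter} (hen : en.1 ≠ z.1) {ω ω' : Ω} {f f' : ℕ} (h0 : S.X ω (-1) = z)
    (h0' : S.X ω' (-1) = en) (hf : S.Fw z ω f) (hf' : S.Fw z ω' f') (h1 : 0 < f) (h1' : 0 < f')
    (hc : (f' ≤ f → S.X ω' f' = en) ∧ (f ≤ f' → S.X ω f = inv en)) : S.Lk ω ω' := by
  refine ⟨min f f', fun k hk => ?_, ?_⟩
  · rw [zero_add, hf.1 k (by omega), hf'.1 k (by omega)]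
  · have a0 := hf.1 0 h1
    have a1 := hf.1 (min f f' - 1) (by omega)
    rw [show ((min f f' - 1 : ℕ) : ℤ) = 0 + (min f f' : ℕ) - 1 by omega] at a1
    simp only [Nat.cast_zero] at a0
    rw [a1, zero_sub, h0, h0', a0, zero_add]
    have key : ∀ z en p q : Letter, en.1 ≠ z.1 →
        (p = en ∧ q = z ∨ p = z ∧ q = inv en ∨ p = en ∧ q = inv en) →
        ori (inv z) (inv en) z * ori (inv z) p q < 0 := by decide
    apply key _ _ _ _ hen
    rcases lt_trichotomy f f' with h | h | h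
    · rw [min_eq_left h.le]
      exact Or.inr (Or.inl ⟨hf'.1 f h, hc.2 h.le⟩)
    · subst h
      rw [min_self]
      exact Or.inr (Or.inr ⟨hc.1 le_rfl, hc.2 le_rfl⟩)
    · rw [min_eq_right h.le]
      exact Or.inl ⟨hc.1 h.le, hf.1 f' h⟩

omit [Fintype Ω] in
lemma fw_exit {z : Letter} {ω : Ω} {f : ℕ} (hf : S.Fw z ω f) (h1 : 0 < f) :
    (S.X ω f).1 ≠ z.1 := by
  have a1 := hf.1 (f - 1) (by omega)
  have a2 := S.X_red ω ((f - 1 : ℕ) : ℤ)
  rw [a1, show ((f - 1 : ℕ) : ℤ) + 1 = f by omega] at a2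
  exact dec2 _ _ a2 hf.2

omit [Fintype Ω] in
lemma start_eq {z : Letter} {ω ω' : Ω} {f f' : ℕ} (hf : S.Fw z ω f) (hf' : S.Fw z ω' f')
    (h0 : S.X ω (-1) ≠ z) (h0' : S.X ω' (-1) ≠ z) (h : S.sh f ω = S.sh f' ω') : ω = ω' := by
  have key : ∀ {ω ω' : Ω} {f f' : ℕ}, S.Fw z ω' f' → S.X ω (-1) ≠ z → S.sh f ω = S.sh f' ω' →
      f' ≤ f := by
    intro ω ω' f f' hf' h0 h
    by_contra hc
    apply h0
    have e := congrArg (fun t => S.X t (-1 - f)) h
    simp only [X_sh] at e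
    rw [show (-1 : ℤ) - f + f = -1 by ring] at e
    rw [e, ← hf'.1 (f' - f - 1) (by omega)]
    congr 1; omega
  have : f = f' := le_antisymm (key hf h0' h.symm) (key hf' h0 h)
  subst this
  exact S.sh_inj h

lemma exists_opp (hc : ∀ ω, ∃ k : ℕ, S.X ω k ≠ S.X ω 0) {z e : Letter} (he : e.1 ≠ z.1)
    (hN : S.N z e ≤ S.N (inv e) z) {st : Ω} {f : ℕ} (h0 : S.X st (-1) = e) (hf : S.Fw z st f)
    (h1 : 0 < f) (hex : S.X st f = e) :
    ∃ ω f', S.X ω (-1) = inv e ∧ S.Fw z ω f' ∧ 0 < f' ∧ S.X ω f' = inv e := by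
  classical
  by_contra hno
  push Not at hno
  choose g hg using S.exists_fw hc z
  have hez : e ≠ z := by rintro rfl; exact he rfl
  have hez' : inv e ≠ z := by rintro rfl; exact he rfl
  have endmem : ∀ {ω : Ω} {f : ℕ}, S.Fw z ω f → 0 < f → S.X ω f = e →
      S.sh f ω ∈ univ.filter fun ω => S.X ω (-1) = z ∧ S.X ω 0 = e := by
    intro ω f hf h1 hex
    simp only [mem_filter, mem_univ, true_and, X_sh, zero_add]
    refine ⟨?_, hex⟩
    rw [← hf.1 (f - 1) (by omega)]
    congr 1; omega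
  have hlt : S.N (inv e) z ≤ ((univ.filter fun ω => S.X ω (-1) = z ∧ S.X ω 0 = e).erase
      (S.sh f st)).card := by
    unfold N
    apply card_le_card_of_injOn (fun ω => S.sh (g ω) ω)
    · intro ω hω
      simp only [coe_filter, mem_univ, true_and, Set.mem_ofPred_eq] at hω
      have g0 : 0 < g ω := by
        by_contra hc
        have := (hg ω).2
        rw [show g ω = 0 by omega] at this
        exact this hω.2
      simp only [coe_erase, Set.mem_sdiff, Set.mem_singleton_iff, mem_coe]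
      refine ⟨endmem (hg ω) g0 ?_, fun h => ?_⟩
      · exact dec3 _ _ _ he (hno ω (g ω) hω.1 (hg ω) g0) (S.fw_exit (hg ω) g0)
      · have := S.start_eq (hg ω) hf (by rw [hω.1]; exact hez') (by rw [h0]; exact hez) h
        rw [this, h0] at hω
        exact inv_ne _ hω.1.symm
    · intro ω hω ω' hω' h
      simp only [coe_filter, mem_univ, true_and, Set.mem_ofPred_eq] at hω hω'
      exact S.start_eq (hg ω) (hg ω') (by rw [hω.1]; exact hez') (by rw [hω'.1]; exact hez') h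
  have hm := endmem hf h1 hex
  rw [card_erase_of_mem hm] at hlt
  have := card_pos.mpr ⟨_, hm⟩
  unfold N at hN hlt
  omega

lemma E2 (hc : ∀ ω, ∃ k : ℕ, S.X ω k ≠ S.X ω 0) {z : Letter}
    (hN : ∀ e : Letter, e.1 ≠ z.1 → S.N z e ≤ S.N (inv e) z) : S.N z z ≤ S.LC := by
  refine S.N_le_LC fun ω a1 a2 => ?_
  obtain ⟨f, hf⟩ := S.exists_fw hc z ω
  obtain ⟨g, hg⟩ := S.exists_fw hc (inv z) (S.rev (S.sh (-1) ω))
  have hg1 : ∀ k : ℕ, k < g → S.X ω (-k - 1) = z := by
    intro k hk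
    have := hg.1 k hk
    rw [X_rev, X_sh] at this
    exact inv_injective this
  have f0 : 0 < f := by
    by_contra hc
    have := hf.2
    rw [show f = 0 by omega] at this
    exact this a2
  have g0 : 0 < g := by
    by_contra hc
    have := hg.2
    rw [show g = 0 by omega, X_rev, X_sh] at this
    apply this; norm_num [a1]
  have hen : (S.X ω (-g - 1)).1 ≠ z.1 := by
    have := S.fw_exit hg g0
    rwa [X_rev, X_sh] at this
  have hst : S.Fw z (S.sh (-g) ω) (f + g) := by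
    constructor
    · intro k hk
      rw [X_sh]
      by_cases hkg : k < g
      · rw [← hg1 (g - k - 1) (by omega)]; congr 1; omega
      · rw [← hf.1 (k - g) (by omega)]; congr 1; omega
    · rw [X_sh]
      convert hf.2 using 2; push_cast; ring
  have hst0 : S.X (S.sh (-g) ω) (-1) = S.X ω (-g - 1) := by rw [X_sh]; congr 1; ring
  have hst1 : S.X (S.sh (-g) ω) ((f + g : ℕ) : ℤ) = S.X ω f := by
    rw [X_sh]; congr 1; push_cast; ring
  set e := S.X ω (-g - 1) with he
  by_cases hU : S.X ω f = inv e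
  · exact ⟨_, S.link_run hen a1 hst0 hf hst f0 (by omega) ⟨fun h => by omega, fun _ => hU⟩⟩
  · have hex : S.X ω f = e := dec3 _ _ _ hen hU (S.fw_exit hf f0)
    obtain ⟨ω', f', b1, b2, b3, b4⟩ := S.exists_opp hc hen (hN e hen) hst0 hst (by omega)
      (by rw [hst1, hex])
    exact ⟨ω', S.link_run (en := inv e) hen a1 b1 hf b2 f0 b3
      ⟨fun _ => b4, fun _ => by rw [hex, inv_inv']⟩⟩

lemma E3 (hw : ∀ ω, ∃ k : ℕ, S.X ω (k + 1) ≠ lf (S.X ω k)) : ∃ u, S.N u (lf u) ≤ S.LC := by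
  classical
  rcases isEmpty_or_nonempty Ω with hΩ | hΩ
  · exact ⟨default, S.N_le_LC fun ω => isEmptyElim ω⟩
  obtain ⟨ω', hω'⟩ := Finite.exists_max fun ω => Nat.find (hw ω)
  have step : ∀ ω, S.X ω 0 = lf (S.X ω (-1)) → Nat.find (hw ω) < Nat.find (hw ω') := by
    intro ω h
    refine lt_of_lt_of_le ?_ (hω' (S.sh (-1) ω))
    rw [Nat.lt_find_iff]
    intro m hm
    rw [not_not, X_sh, X_sh]
    cases m with
    | zero => simpa using h
    | succ m =>
      have := Nat.find_min (hw ω) (show m < _ from hm)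
      rw [not_not] at this
      rw [show ((m + 1 : ℕ) : ℤ) + 1 + -1 = m + 1 by push_cast; ring,
        show ((m + 1 : ℕ) : ℤ) + -1 = m by push_cast; ring]
      exact this
  have hlf : ∀ z : Letter, lf (inv (lf z)) = z := by decide
  refine ⟨inv (lf (S.X ω' 0)), S.N_le_LC fun ω a1 a2 => ⟨ω', Nat.find (hw ω) + 1, ?_, ?_⟩⟩
  · have hlt := step ω (by rw [a1, a2])
    rw [hlf] at a2
    intro k hk
    rw [zero_add]
    induction k with
    | zero => exact a2
    | succ k ih =>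
      have b1 := Nat.find_min (hw ω) (show k < Nat.find (hw ω) by omega)
      have b2 := Nat.find_min (hw ω') (show k < Nat.find (hw ω') by omega)
      rw [not_not] at b1 b2
      rw [Nat.cast_succ, b1, b2, ih (by omega)]
  · have hlt := step ω (by rw [a1, a2])
    rw [hlf] at a2
    have heq : ∀ k : ℕ, k < Nat.find (hw ω) + 1 → S.X ω k = S.X ω' k := by
      intro k hk
      induction k with
      | zero => exact a2
      | succ k ih =>
        have b1 := Nat.find_min (hw ω) (show k < Nat.find (hw ω) by omega)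
        have b2 := Nat.find_min (hw ω') (show k < Nat.find (hw ω') by omega)
        rw [not_not] at b1 b2
        rw [Nat.cast_succ, b1, b2, ih (by omega)]
    have b1 := Nat.find_spec (hw ω)
    have b2 := Nat.find_min (hw ω') hlt
    rw [not_not, ← heq _ (Nat.lt_succ_self _)] at b2
    have b3 := S.X_red ω (Nat.find (hw ω))
    have b4 := S.X_red ω' (-1)
    have b5 : S.X ω' 0 ≠ lf (S.X ω' (-1)) := fun h => lt_irrefl _ (step ω' h)
    simp only [zero_add, zero_sub, Nat.cast_succ, add_sub_cancel_right, a1, a2, b2]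
    simp only [neg_add_cancel] at b4
    revert b1 b3 b4 b5
    generalize S.X ω (Nat.find (hw ω) + 1) = p
    generalize S.X ω (Nat.find (hw ω)) = u
    generalize S.X ω' (-1) = q
    generalize S.X ω' 0 = z
    revert p u q z; decide

theorem card_le (hc : ∀ ω, ∃ k : ℕ, S.X ω k ≠ S.X ω 0)
    (hw : ∀ ω, ∃ k : ℕ, S.X ω (k + 1) ≠ lf (S.X ω k))
    (hmin : ∀ z y : Letter, z.1 ≠ y.1 → S.N (inv y) z ≤ S.N z y + S.N y y) :
    Fintype.card Ω ≤ 36 * S.LC := by
  have hH : ∀ z, S.N z z ≤ S.LC := by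
    intro z
    by_cases h : ∃ y : Letter, z.1 ≠ y.1 ∧ S.N y y ≠ 0
    · obtain ⟨y, h1, h2⟩ := h
      exact S.E1 h1 h2
    · push Not at h
      refine S.E2 hc fun e he => ?_
      have := hmin (inv z) e (by simpa using he.symm)
      rw [h e he.symm, S.N_symm (inv e), S.N_symm (inv z)] at this
      simpa using this
  have hL : ∀ z, S.N (inv (lf z)) (lf (inv (lf z))) ≤ S.N z (lf z) + S.LC := by
    intro z
    have := hmin z (lf z) (dec7 z)
    have h2 := hH (lf z)
    rw [dec4]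
    omega
  have hL4 : ∀ z, S.N z (lf z) ≤ 4 * S.LC := by
    obtain ⟨u, hu⟩ := S.E3 hw
    intro z
    have a1 := hL u
    have a2 := hL (inv (lf u))
    have a3 := hL (inv (lf (inv (lf u))))
    rcases dec5 u z with rfl | rfl | rfl | rfl <;> omega
  have hrow : ∀ u, ∑ v, S.N u v ≤ 9 * S.LC := by
    intro u
    have e : ∀ g : Letter → ℕ, ∑ v, g v = g u + g (inv u) + g (lf u) + g (inv (lf u)) := by
      intro g
      rcases u with ⟨_ | _, _ | _⟩ <;> simp [Fintype.sum_prod_type, inv, lf] <;> ring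
    have a1 := hL4 (lf u)
    have a2 := hL4 u
    have a3 := hH u
    rw [e, S.N_inv, S.N_symm u (inv (lf u)), inv_inv', dec6 u]
    omega
  rw [S.card_eq]
  calc ∑ u, ∑ v, S.N u v ≤ ∑ _u : Letter, 9 * S.LC := sum_le_sum fun u _ => hrow u
    _ = 36 * S.LC := by simp; ring

end Sys

end Pool.Agent.P992
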