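import Pool.Agent.P.MP_992ce1_gt.Segs

/-! Upper bounds for the number of short classes in an orbit. -/

namespace Pool.Agent.P992

open FreeGroup hiding map_mul map_inv map_one

def Le {X : Type*} (S : Set X) (r : ℝ) : Prop := S.Finite ∧ (S.ncard : ℝ) ≤ r

lemma Le.mono {X : Type*} {S S' : Set X} {r : ℝ} (h : Le S r) (h' : S' ⊆ S) : Le S' r :=
  ⟨h.1.subset h', le_trans (by exact_mod_cast Set.ncard_le_ncard h' h.1) h.2⟩

lemma Le.weaken {X : Type*} {S : Set X} {r r' : ℝ} (h : Le S r) (h' : r ≤ r') : Le S r' :=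
  ⟨h.1, h.2.trans h'⟩

lemma Le.union {X : Type*} {S S' : Set X} {r r' : ℝ} (h : Le S r) (h' : Le S' r') :
    Le (S ∪ S') (r + r') :=
  ⟨h.1.union h'.1, le_trans (by exact_mod_cast Set.ncard_union_le S S') (add_le_add h.2 h'.2)⟩

lemma Le.image {X Y : Type*} {S : Set X} {r : ℝ} (h : Le S r) (f : X → Y) : Le (f '' S) r :=
  ⟨h.1.image f, le_trans (by exact_mod_cast Set.ncard_image_le h.1) h.2⟩

lemma Le.singleton {X : Type*} (x : X) : Le ({x} : Set X) 1 := ⟨Set.finite_singleton x, by simp⟩

lemma Le.biUnion {X ι : Type*} (s : Finset ι) {S : ι → Set X} {r : ℝ} (h : ∀ i ∈ s, Le (S i) r) :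
    Le (⋃ i ∈ s, S i) (s.card * r) := by
  classical
  induction s using Finset.induction_on with
  | empty => exact ⟨by simp, by simp⟩
  | insert i s hi ih =>
    rw [Finset.set_biUnion_insert, Finset.card_insert_of_notMem hi]
    refine ((h i (by simp)).union (ih fun j hj => h j (by simp [hj]))).weaken (le_of_eq ?_)
    push_cast; ring

lemma box {X : Type*} {M : Set X} {f g : X → ℕ} {α β c d : ℤ} (hα : 0 < α) (hβ : 0 < β)
    (hc : 0 ≤ c) (hd : 0 ≤ d)
    (hinj : ∀ x ∈ M, ∀ y ∈ M, f x = f y → g x = g y → x = y)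
    (hM : ∀ x ∈ M, 1 ≤ f x ∧ α * f x ≤ c ∧ 1 ≤ g x ∧ β * g x ≤ d) :
    Le M (c * d / (α * β)) := by
  set S := Finset.Icc 1 (c / α).toNat ×ˢ Finset.Icc 1 (d / β).toNat with hS
  have hmaps : ∀ x ∈ M, (f x, g x) ∈ (S : Set (ℕ × ℕ)) := by
    intro x hx
    obtain ⟨h1, h2, h3, h4⟩ := hM x hx
    have a1 : (f x : ℤ) ≤ c / α := (Int.le_ediv_iff_mul_le hα).mpr (by linarith)
    have a2 : (g x : ℤ) ≤ d / β := (Int.le_ediv_iff_mul_le hβ).mpr (by linarith)
    simp only [hS, Finset.coe_product, Finset.coe_Icc, Set.mem_prod, Set.mem_Icc]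
    omega
  have hi : Set.InjOn (fun x => (f x, g x)) M := fun x hx y hy h =>
    hinj x hx y hy (Prod.ext_iff.mp h).1 (Prod.ext_iff.mp h).2
  refine ⟨Set.Finite.of_injOn hmaps hi S.finite_toSet, ?_⟩
  have h1 := Set.ncard_le_ncard_of_injOn _ hmaps hi S.finite_toSet
  rw [Set.ncard_coe_finset, hS, Finset.card_product, Nat.card_Icc, Nat.card_Icc] at h1
  simp only [add_tsub_cancel_right] at h1
  have a1 : 0 ≤ c / α := Int.ediv_nonneg hc hα.le
  have a2 : 0 ≤ d / β := Int.ediv_nonneg hd hβ.le
  have b1 : α * (c / α) ≤ c := Int.mul_ediv_self_le hα.ne'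
  have b2 : β * (d / β) ≤ d := Int.mul_ediv_self_le hβ.ne'
  have h2 : (M.ncard : ℤ) ≤ (c / α) * (d / β) := by
    rw [← Int.toNat_of_nonneg a1, ← Int.toNat_of_nonneg a2]; exact_mod_cast h1
  have h3 : (M.ncard : ℤ) * (α * β) ≤ c * d := by
    calc (M.ncard : ℤ) * (α * β) ≤ (c / α) * (d / β) * (α * β) :=
          mul_le_mul_of_nonneg_right h2 (by positivity)
      _ = (α * (c / α)) * (β * (d / β)) := by ring
      _ ≤ c * d := mul_le_mul b1 b2 (by positivity) hc
  have hα' : (0 : ℝ) < α := by exact_mod_cast hα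
  have hβ' : (0 : ℝ) < β := by exact_mod_cast hβ
  rw [le_div_iff₀ (by positivity)]
  exact_mod_cast h3

lemma wt_pos (m : List Bool) (j : Bool) : 1 ≤ wt m j := by
  induction m generalizing j with
  | nil => simp [wt]
  | cons i m ih =>
    have := ih i
    have := ih false
    simp only [wt, wstep]; split_ifs <;> omega

lemma wt_cons_self (i : Bool) (m : List Bool) : wt (i :: m) i = wt m i := by simp [wt, wstep]
lemma wt_cons_not (i : Bool) (m : List Bool) : wt (i :: m) (!i) = wt m i + wt m (!i) := by
  cases i <;> simp [wt, wstep, add_comm]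

lemma wt_eq {m : List Bool} (h : wt m false = wt m true) : m = [] := by
  cases m with
  | nil => rfl
  | cons i m =>
    have a1 := wt_pos m false
    have a2 := wt_pos m true
    cases i <;> simp [wt, wstep] at h <;> omega

lemma wt_inj {m m' : List Bool} (h1 : wt m false = wt m' false) (h2 : wt m true = wt m' true) :
    m = m' := by
  induction m generalizing m' with
  | nil => exact (wt_eq (by rw [← h1, ← h2]; rfl)).symm
  | cons i m ih =>
    cases m' with
    | nil => exact wt_eq (by rw [h1, h2]; rfl)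
    | cons i' m' =>
      have a1 := wt_pos m false
      have a2 := wt_pos m true
      have a3 := wt_pos m' false
      have a4 := wt_pos m' true
      cases i <;> cases i' <;> simp [wt, wstep] at h1 h2 ⊢
      · exact ih h1 (by omega)
      · omega
      · omega
      · exact ih (by omega) h2

lemma wt_inj' (j : Bool) {m m' : List Bool} (h1 : wt m j = wt m' j) (h2 : wt m (!j) = wt m' (!j)) :
    m = m' := by
  cases j
  · exact wt_inj h1 h2
  · exact wt_inj h2 h1

lemma cls_conj {g h : F} (hc : IsConj g h) : cls g = cls h := by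
  have hc' : IsConj g⁻¹ h⁻¹ := by
    obtain ⟨c, rfl⟩ := isConj_iff.mp hc
    exact isConj_iff.mpr ⟨c, by group⟩
  ext k
  exact ⟨fun h => h.imp hc.symm.trans hc'.symm.trans, fun h => h.imp hc.trans hc'.trans⟩

lemma cls_inv (g : F) : cls g⁻¹ = cls g := by
  ext k; simp [cls, or_comm]

def AA (h : F) (l : ℕ) : Set (Set F) := {β | ∃ m, β = cls (Tm m h) ∧ wl β ≤ l}

lemma AA_conj {g h : F} (hc : IsConj g h) (l : ℕ) : AA g l = AA h l := by
  unfold AA
  simp only [fun m => cls_conj ((Tm m).map_isConj hc)]

lemma AA_inv (g : F) (l : ℕ) : AA g⁻¹ l = AA g l := by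
  unfold AA
  simp only [map_inv, cls_inv]

lemma deg_count {h : F} {j : Bool} (hT : IsConj h (T j h)) {μ : ℤ} (hμ : 0 < μ)
    (hb : ∀ m, μ * wt m j ≤ wl (cls (Tm m h))) (l : ℕ) : Le (AA h l) (1 + l * l / μ) := by
  have red : ∀ m, cls (Tm m h) = cls h ∨ ∃ m', cls (Tm m h) = cls (Tm ((!j) :: m') h) := by
    intro m
    induction m with
    | nil => exact Or.inl rfl
    | cons i m ih =>
      by_cases hi : i = j
      · rwa [hi, Tm_cons, ← cls_conj ((Tm m).map_isConj hT)]
      · exact Or.inr ⟨m, by rw [Bool.eq_not.mpr hi]⟩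
  have hbox := box (M := {m | (∃ m', m = (!j) :: m') ∧ wl (cls (Tm m h)) ≤ l})
    (f := fun m => wt m j) (g := fun m => wt m (!j)) (α := μ) (β := 1) (c := l) (d := l) hμ one_pos
    (by positivity) (by positivity) (fun x _ y _ => wt_inj' j)
    (by
      rintro m ⟨⟨m', rfl⟩, h2⟩
      have a1 := hb ((!j) :: m')
      have a2 := wt_cons_self (!j) m'
      have a3 := wt_cons_not (!j) m'
      rw [Bool.not_not] at a3
      refine ⟨wt_pos _ _, by omega, wt_pos _ _, ?_⟩
      have : (wt ((!j) :: m') j : ℤ) ≤ μ * wt ((!j) :: m') j := le_mul_of_one_le_left (by positivity) hμ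
      omega)
  refine (((Le.singleton (cls h)).union (hbox.image fun m => cls (Tm m h))).mono ?_).weaken
    (by simp)
  rintro β ⟨m, rfl, hm⟩
  rcases red m with e | ⟨m', e⟩
  · exact Or.inl e
  · exact Or.inr ⟨(!j) :: m', ⟨⟨m', rfl⟩, e ▸ hm⟩, e.symm⟩

lemma cyc_of_double {w : List Letter} (h : IsReduced (w ++ w)) : IsCyclicallyReduced w := by
  obtain ⟨h1, -, h3⟩ := List.isChain_append.mp h
  exact ⟨h1, h3⟩

lemma AltS.le_wl {us : List (List Letter)} (h : AltS true us) (hw : IsCyclicallyReduced us.flatten)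
    (m : List Bool) : NN (wt m) us ≤ wl (cls (Tm m (mk us.flatten))) :=
  P992.le_wl hw m (h.pot _).replicate

lemma AltS.conj_T {us : List (List Letter)} (h : AltS true us) (i : Bool) :
    IsConj (mk (Th i us.flatten)) (T i (mk us.flatten)) :=
  isConj_iff.mpr ⟨of i, by rw [h.T_mk]; simp⟩

lemma AltS.T_inv {us : List (List Letter)} (h : AltS true us) {j : Bool}
    (h1 : ∀ u ∈ us, cn (!j) u = 1) : IsConj (mk us.flatten) (T j (mk us.flatten)) := by
  have := h.conj_T j
  rwa [h.Th_flatten, List.map_congr_left (g := id) (fun u hu => by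
    obtain ⟨-, c, hc⟩ := h.mem u hu
    exact Th_fix j hc (h1 u hu)), List.map_id] at this

lemma AltS.deg {us : List (List Letter)} (h : AltS true us) (hw : IsCyclicallyReduced us.flatten)
    {j : Bool} (h1 : ∀ u ∈ us, cn (!j) u = 1) (hμ : 0 < al j us) (l : ℕ) :
    Le (AA (mk us.flatten) l) (1 + l * l / al j us) :=
  deg_count (h.T_inv h1) hμ (fun m => (deg_ineq _ j h1).trans (h.le_wl hw m)) l

lemma AltS.generic {us : List (List Letter)} (h : AltS true us)
    (hw : IsCyclicallyReduced us.flatten) (hs : ∀ j, 0 ≤ sm j us) (ha : ∀ j, 0 < al j us)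
    (haa : 0 < aa us) (l : ℕ) :
    Le (AA (mk us.flatten) l) (1 + 52 * (l * l / (al false us + al true us : ℤ))) := by
  set μ := al false us + al true us with hμ
  have hμj : ∀ j, μ = al j us + al (!j) us := by intro j; cases j <;> simp [hμ, add_comm]
  have hμ0 : 0 < μ := add_pos (ha _) (ha _)
  have hμ0' : (0 : ℝ) < μ := by exact_mod_cast hμ0
  have R1 : ∀ j, Le {m | 2 * wt m (!j) ≤ wt m j ∧ NN (wt m) us ≤ l} (10 * (l * l / μ)) := by
    intro j
    refine (box (f := fun m => wt m (!j)) (g := fun m => wt m j) (α := μ) (β := 1) (c := 5 * l)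
      (d := 2 * l) hμ0 one_pos (by positivity) (by positivity)
      (fun x _ y _ a b => wt_inj' j b a) ?_).weaken (le_of_eq (by push_cast; ring))
    rintro m ⟨h1, h2⟩
    have a1 := ineq1 (wt m) j h1 us
    have a2 := ineq2 (wt m) j us
    have a3 : (0 : ℤ) ≤ sm j us * wt m j := mul_nonneg (hs j) (by positivity)
    have a4 : (2 : ℤ) * wt m (!j) ≤ wt m j := by exact_mod_cast h1
    have a5 : al j us * (2 * wt m (!j)) ≤ al j us * wt m j :=
      mul_le_mul_of_nonneg_left a4 (ha j).le
    have a6 : (wt m j : ℤ) ≤ al j us * wt m j := le_mul_of_one_le_left (by positivity) (ha j)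
    refine ⟨wt_pos _ _, ?_, wt_pos _ _, by linarith⟩
    rw [hμj j]; linarith
  have R3 : ∀ j, Le {m | wt m j < wt m (!j) ∧ wt m (!j) < 2 * wt m j ∧ NN (wt m) us ≤ l}
      (16 * (l * l / μ)) := by
    intro j
    obtain ⟨b1, b2⟩ := ineq4 j us
    have hbb : 0 < bb j us := (ha _).trans_le b2
    refine (box (f := fun m => 2 * wt m j - wt m (!j)) (g := fun m => wt m (!j) - wt m j)
      (α := aa us) (β := bb j us) (c := 2 * l) (d := 2 * l) haa hbb (by positivity) (by positivity)
      (fun x hx y hy a b => wt_inj' j (by have := hx.1; have := hy.1; have := hx.2.1; have := hy.2.1; omega)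
        (by have := hx.1; have := hy.1; have := hx.2.1; have := hy.2.1; omega)) ?_).weaken ?_
    · rintro m ⟨h1, h2, h3⟩
      have a1 := ineq3 (wt m) j (P := 2 * wt m j - wt m (!j)) (Q := wt m (!j) - wt m j)
        (by omega) (by omega) us (fun u hu => (h.mem u hu).1)
      have a3 : (0 : ℤ) ≤ sm j us * wt m j := mul_nonneg (hs j) (by positivity)
      have a4 : (0 : ℤ) ≤ sm (!j) us * wt m (!j) := mul_nonneg (hs _) (by positivity)
      have a5 : (0 : ℤ) ≤ aa us * ((2 * wt m j - wt m (!j) : ℕ) : ℤ) := by positivity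
      have a6 : (0 : ℤ) ≤ bb j us * ((wt m (!j) - wt m j : ℕ) : ℤ) := by positivity
      exact ⟨by omega, by linarith, by omega, by linarith⟩
    · have c1 : μ ≤ 4 * (aa us * bb j us) := by nlinarith
      have c2 : (μ : ℝ) ≤ 4 * (aa us * bb j us) := by exact_mod_cast c1
      have c3 : (0 : ℝ) < aa us := by exact_mod_cast haa
      have c4 : (0 : ℝ) < bb j us := by exact_mod_cast hbb
      rw [← mul_div_assoc, div_le_div_iff₀ (by positivity) hμ0']
      push_cast
      nlinarith [mul_le_mul_of_nonneg_left c2 (show (0 : ℝ) ≤ l * l by positivity)]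
  have U := (((Le.singleton ([] : List Bool)).union ((R1 false).union (R1 true))).union
    ((R3 false).union (R3 true))).image fun m => cls (Tm m (mk us.flatten))
  refine (U.mono ?_).weaken (le_of_eq (by ring))
  rintro β ⟨m, rfl, hm⟩
  refine ⟨m, ?_, rfl⟩
  have hN : NN (wt m) us ≤ l := (h.le_wl hw m).trans (by exact_mod_cast hm)
  simp only [Set.mem_union, Set.mem_singleton_iff, Set.mem_ofPred_eq, Bool.not_false,
    Bool.not_true, hN, and_true]
  by_cases h0 : wt m false = wt m true
  · exact Or.inl (Or.inl (wt_eq h0))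
  · omega

lemma AA_split (h : F) (l : ℕ) : AA h l ⊆ {cls h} ∪ (AA (T false h) l ∪ AA (T true h) l) := by
  rintro β ⟨m, rfl, hm⟩
  cases m with
  | nil => exact Or.inl rfl
  | cons i m =>
    cases i
    · exact Or.inr (Or.inl ⟨m, rfl, hm⟩)
    · exact Or.inr (Or.inr ⟨m, rfl, hm⟩)

lemma AltS.special {us : List (List Letter)} (h : AltS true us)
    (hw : IsCyclicallyReduced us.flatten) (hs : ∀ j, 0 ≤ sm j us) (ha : ∀ j, 0 < al j us)
    (haa : aa us = 0) (l : ℕ) :
    Le (AA (mk us.flatten) l) (3 + 4 * (l * l / (al false us + al true us : ℤ))) := by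
  have h2 := aa_zero haa
  obtain ⟨b1, b2⟩ := len2 h2
  have e : al false us = al true us := by have := hs false; have := hs true; omega
  have key : ∀ i, Le (AA (T i (mk us.flatten)) l) (1 + l * l / al true us) := by
    intro i
    have facts : ∀ u ∈ us, cn (!i) (Th i u) = cn (!i) u ∧ cn i (Th i u) = 1 := by
      intro u hu
      obtain ⟨h0, c, hc⟩ := h.mem u hu
      obtain ⟨x, r, rfl⟩ := List.exists_cons_of_ne_nil h0
      obtain ⟨-, a2, a3⟩ := Th_sc i x r hc
      have := h2 _ hu
      simp only [List.length_cons] at this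
      exact ⟨a2, by omega⟩
    have h' : AltS true (us.map (Th i)) := h.map_Th i fun u hu h0 => by
      have := (facts u hu).2
      rw [h0] at this; simp [cn] at this
    have hw' : IsCyclicallyReduced (us.map (Th i)).flatten := by
      apply cyc_of_double
      have := Th_red i (hw.flatten_replicate 2).1
      simp only [List.replicate_succ, List.replicate_zero, List.flatten_cons, List.flatten_nil,
        List.append_nil] at this
      rwa [← List.flatten_append, (h.append h).Th_flatten, List.map_append, List.flatten_append]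
        at this
    have e2 : al (!i) (us.map (Th i)) = al true us := by
      have : al (!i) (us.map (Th i)) = al (!i) us := by
        unfold al
        rw [List.map_map]
        congr 1
        exact List.map_congr_left fun u hu => by simp [vv, (facts u hu).1]
      rw [this]; cases i <;> simp [e]
    have := h'.deg hw' (j := !i) (by
      intro u hu
      obtain ⟨v, hv, rfl⟩ := List.mem_map.mp hu
      rw [Bool.not_not]; exact (facts v hv).2) (e2 ▸ ha true) l
    rwa [e2, ← h.Th_flatten, AA_conj (h.conj_T i)] at this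
  refine (((Le.singleton _).union ((key false).union (key true))).mono (AA_split _ l)).weaken
    (le_of_eq ?_)
  have : (0 : ℝ) < al true us := by exact_mod_cast ha true
  rw [e]; push_cast; field_simp; ring

lemma AltS.count {us : List (List Letter)} (h : AltS true us)
    (hw : IsCyclicallyReduced us.flatten) (hs : ∀ j, 0 ≤ sm j us) {S : ℕ}
    (hS : S ≤ sur us.flatten) (l : ℕ) :
    Le (AA (mk us.flatten) l) (3 + 520 * (l * l / (S + 1))) := by
  have a1 := h.sur_le hw.1
  have a2 := cost_le us
  have a3 := hs false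
  have a4 := hs true
  have a5 := al_nonneg false us
  have a6 := al_nonneg true us
  have hS' : (S : ℤ) ≤ 9 * (al false us + al true us) := by split_ifs at a1 <;> omega
  have hl : (0 : ℝ) ≤ l * l / (S + 1) := by positivity
  have cmp : ∀ μ : ℤ, 0 < μ → (S : ℤ) ≤ 9 * μ → (l * l / μ : ℝ) ≤ 10 * (l * l / (S + 1)) := by
    intro μ h1 h2
    have h3 : (S : ℝ) + 1 ≤ 10 * μ := by exact_mod_cast (show (S : ℤ) + 1 ≤ 10 * μ by omega)
    have h1' : (0 : ℝ) < μ := by exact_mod_cast h1
    rw [← mul_div_assoc, div_le_div_iff₀ h1' (by positivity)]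
    nlinarith [mul_le_mul_of_nonneg_left h3 (show (0 : ℝ) ≤ l * l by positivity)]
  by_cases z1 : al false us = 0 <;> by_cases z2 : al true us = 0
  · have t1 := h.T_inv (j := true) (al_zero z1 a3)
    have t2 := h.T_inv (j := false) (al_zero z2 a4)
    refine ((Le.singleton (cls (mk us.flatten))).mono ?_).weaken (by linarith)
    rintro β ⟨m, rfl, -⟩
    rw [Set.mem_singleton_iff]
    induction m with
    | nil => rfl
    | cons i m ih =>
      cases i
      · rwa [Tm_cons, ← cls_conj ((Tm m).map_isConj t2)]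
      · rwa [Tm_cons, ← cls_conj ((Tm m).map_isConj t1)]
  · have := cmp (al true us) (by omega) (by omega)
    exact (h.deg hw (j := true) (al_zero z1 a3) (by omega) l).weaken (by linarith)
  · have := cmp (al false us) (by omega) (by omega)
    exact (h.deg hw (j := false) (al_zero z2 a4) (by omega) l).weaken (by linarith)
  have ha : ∀ j, 0 < al j us := by intro j; cases j <;> omega
  have := cmp (al false us + al true us) (by omega) hS'
  rcases (aa_nonneg us).eq_or_lt with h0 | h0
  · exact (h.special hw hs ha h0.symm l).weaken (by linarith)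
  · exact (h.generic hw hs ha h0 l).weaken (by linarith)

lemma pos_count {w : List Letter} (h : SC true w) (h0 : w ≠ []) {S : ℕ} (hS : S ≤ sur w) (l : ℕ) :
    Le (AA (mk w) l) (3 + 520 * (l * l / (S + 1))) := by
  have hsc : ∀ n, SC true (List.replicate n w).flatten := by
    intro n z hz
    obtain ⟨v, hv, hz⟩ := List.mem_flatten.mp hz
    rw [List.eq_of_mem_replicate hv] at hz
    exact h z hz
  have hred : ∀ w : List Letter, SC true w → IsReduced w := by
    intro w hw
    refine List.Pairwise.isChain (List.pairwise_of_forall_mem_list ?_)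
    intro x hx y hy _
    rw [hw x hx, hw y hy]
  have hw : IsCyclicallyReduced w := cyc_of_double (hred _ (by simpa using hsc 2))
  have hcn : ∀ j n, cn j (List.replicate n w).flatten = n * cn j w := by
    intro j n
    induction n with
    | zero => simp [cn]
    | succ n ih => rw [List.replicate_succ, List.flatten_cons, cn_append, ih]; ring
  have lb : ∀ m, (cn false w * wt m false + cn true w * wt m true : ℤ) ≤ wl (cls (Tm m (mk w))) := by
    intro m
    refine le_wl hw m (C := wt m false + wt m true) fun n => ?_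
    have := (Pot.nil (s := wt m)).take' (hsc n)
    rw [List.append_nil] at this
    refine this.mono (le_of_eq ?_)
    simp only [val, hcn]; push_cast; ring
  have a1 := cn_add false w
  have a2 := sur_append_le w []
  have a3 : 0 < w.length := List.length_pos_iff.mpr h0
  simp only [Bool.not_false, List.append_nil, sur] at a1 a2
  have hl : (0 : ℝ) ≤ l * l / (S + 1) := by positivity
  have cmp : ∀ μ : ℤ, 0 < μ → (S : ℤ) ≤ 2 * μ → (l * l / μ : ℝ) ≤ 10 * (l * l / (S + 1)) := by
    intro μ h1 h2
    have h3 : (S : ℝ) + 1 ≤ 10 * μ := by exact_mod_cast (show (S : ℤ) + 1 ≤ 10 * μ by omega)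
    have h1' : (0 : ℝ) < μ := by exact_mod_cast h1
    rw [← mul_div_assoc, div_le_div_iff₀ h1' (by positivity)]
    nlinarith [mul_le_mul_of_nonneg_left h3 (show (0 : ℝ) ≤ l * l by positivity)]
  have fix : ∀ j, cn (!j) w = 0 → T j (mk w) = mk w := by
    intro j hj
    clear * - hj
    induction w with
    | nil => simp [mk_nil]
    | cons x r ih =>
      have : x.1 = j ∧ cn (!j) r = 0 := by
        cases j <;> rcases x with ⟨_ | _, _⟩ <;> simp [cn] at hj ⊢ <;> exact hj
      rw [mk_cons, map_mul, ih this.2]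
      congr 1
      rcases x with ⟨x1, _ | _⟩ <;> simp only at this <;> simp [el_true, el_false, T, this.1]
  by_cases z1 : cn false w = 0
  · have := cmp (cn true w) (by omega) (by omega)
    refine (deg_count (j := true) (μ := cn true w) (by rw [fix true z1]) (by omega)
      (fun m => ?_) l).weaken (by linarith)
    have := lb m
    rw [z1] at this; simpa using this
  by_cases z2 : cn true w = 0
  · have := cmp (cn false w) (by omega) (by omega)
    refine (deg_count (j := false) (μ := cn false w) (by rw [fix false z2]) (by omega)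
      (fun m => ?_) l).weaken (by linarith)
    have := lb m
    rw [z2] at this; simpa using this
  have hbox := box (M := {m | wl (cls (Tm m (mk w))) ≤ l})
    (f := fun m => wt m false) (g := fun m => wt m true) (α := cn false w) (β := cn true w)
    (c := l) (d := l) (by omega) (by omega) (by positivity) (by positivity)
    (fun x _ y _ => wt_inj)
    (by
      intro m hm
      have b1 := lb m
      have b2 : (wl (cls (Tm m (mk w))) : ℤ) ≤ l := by exact_mod_cast hm
      have b3 : (0 : ℤ) ≤ cn false w * wt m false := by positivity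
      have b4 : (0 : ℤ) ≤ cn true w * wt m true := by positivity
      exact ⟨wt_pos _ _, by linarith, wt_pos _ _, by linarith⟩)
  have := cmp (cn false w * cn true w) (by positivity) (by
    have c1 : (1 : ℤ) ≤ cn false w := by omega
    have c2 : (1 : ℤ) ≤ cn true w := by omega
    have c3 : (S : ℤ) ≤ cn false w + cn true w := by omega
    nlinarith)
  refine ((hbox.image fun m => cls (Tm m (mk w))).mono ?_).weaken (by push_cast at *; linarith)
  rintro β ⟨m, rfl, hm⟩
  exact ⟨m, hm, rfl⟩

end Pool.Agent.P992
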