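import Mathlib

/-! A crossing lemma for paths in the upper half plane. -/

open Complex Set Filter Topology

namespace Pool.Agent.P992

lemma lift_diff {g h : ℝ → ℂ} {u v : ℝ} (hg : Continuous g) (hh : Continuous h)
    (he : ∀ t, exp (h t) = g t) (hs : ∀ t ∈ uIcc u v, g t ∈ slitPlane) :
    (h v).im - (h u).im = arg (g v) - arg (g u) := by
  have hc : ContinuousOn (fun t => h t - log (g t)) (uIcc u v) :=
    hh.continuousOn.sub (hg.continuousOn.clog hs)
  have key := Complex.isCoveringMap_exp.constOn_of_comp (isPreconnected_uIcc (a := u) (b := v)) hc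
    (by
      intro s hs' t ht'
      have h1 : g s ≠ 0 := slitPlane_ne_zero (hs s hs')
      have h2 : g t ≠ 0 := slitPlane_ne_zero (hs t ht')
      apply Subtype.ext
      simp only [exp_sub, he, exp_log h1, exp_log h2, div_self h1, div_self h2])
    right_mem_uIcc left_mem_uIcc
  have := congrArg Complex.im key
  simp only [sub_im, log_im] at this
  linarith

lemma cross_core {G : ℝ × ℝ → ℂ} (hG : Continuous G) (h0 : ∀ p, G p ≠ 0) {S₀ S₁ T₀ T₁ : ℝ}
    (htop : ∀ t ∈ uIcc T₀ T₁, 0 < (G (S₁, t)).im)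
    (hbot : ∀ t ∈ uIcc T₀ T₁, (G (S₀, t)).im < 0)
    (hl : ∀ s, G (s, T₀) ∈ slitPlane) (hr : ∀ s, -G (s, T₁) ∈ slitPlane) : False := by
  have hsc : IsSimplyConnected (univ : Set (ℝ × ℝ)) := by
    have : SimplyConnectedSpace (ℝ × ℝ) := inferInstance
    exact (Homeomorph.Set.univ (ℝ × ℝ)).toHomotopyEquiv.simplyConnectedSpace_iff.mpr this
  obtain ⟨f, hf, he⟩ := exists_continuousOn_eqOn_exp_comp hsc isOpen_univ hG.continuousOn
    (by rintro ⟨p, -, hp⟩; exact h0 p hp)
  have hf' : Continuous f := continuousOn_univ.mp hf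
  have he' : ∀ p, exp (f p) = G p := fun p => he (mem_univ p)
  have e1 := lift_diff (g := fun t => G (S₁, t)) (h := fun t => f (S₁, t)) (u := T₀) (v := T₁)
    (by fun_prop) (by fun_prop) (fun t => he' _) (fun t ht => Or.inr (htop t ht).ne')
  have e2 := lift_diff (g := fun t => G (S₀, t)) (h := fun t => f (S₀, t)) (u := T₀) (v := T₁)
    (by fun_prop) (by fun_prop) (fun t => he' _) (fun t ht => Or.inr (hbot t ht).ne)
  have e3 := lift_diff (g := fun s => G (s, T₀)) (h := fun s => f (s, T₀)) (u := S₀) (v := S₁)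
    (by fun_prop) (by fun_prop) (fun t => he' _) (fun s _ => hl s)
  have e4 := lift_diff (g := fun s => -G (s, T₁)) (h := fun s => f (s, T₁) + Real.pi * I)
    (u := S₀) (v := S₁) (by fun_prop) (by fun_prop)
    (fun t => by rw [exp_add, he', exp_pi_mul_I]; ring) (fun s _ => hr s)
  have a1 := arg_neg_eq_arg_sub_pi_of_im_pos (htop T₁ right_mem_uIcc)
  have a2 := arg_neg_eq_arg_add_pi_of_im_neg (hbot T₁ right_mem_uIcc)
  simp only [add_im] at e4
  rw [a1, a2] at e4
  have := Real.pi_pos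
  linarith

lemma cross_paths {Φ Ψ : ℝ → ℂ} (hΦ : Continuous Φ) (hΨ : Continuous Ψ)
    (pΦ : ∀ t, 0 < (Φ t).im) (pΨ : ∀ t, 0 < (Ψ t).im) {κ : ℝ} (hκ : 1 < κ)
    (hper : ∀ t, Φ (t + 1) = κ * Φ t) {x₀ x₁ : ℝ} (hx₀ : x₀ < 0) (hx₁ : 0 < x₁)
    {T₀ T₁ : ℕ → ℝ} (l₀ : Tendsto (fun n => Ψ (T₀ n)) atTop (𝓝 (x₀ : ℂ)))
    (l₁ : Tendsto (fun n => Ψ (T₁ n)) atTop (𝓝 (x₁ : ℂ))) : ∃ s t, Φ s = Ψ t := by
  by_contra hne
  push Not at hne
  have hΦ0 : ∀ t, Φ t ≠ 0 := fun t h => by have := pΦ t; rw [h] at this; simp at this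
  have hn : ∀ t, 0 < ‖Φ t‖ := fun t => norm_pos_iff.mpr (hΦ0 t)
  set r : ℝ → ℝ := fun t => (Φ t).im / ‖Φ t‖ with hr
  have hrc : Continuous r := (continuous_im.comp hΦ).div hΦ.norm (fun t => (hn t).ne')
  have hrp : Function.Periodic r 1 := by
    intro t
    simp only [hr, hper, norm_mul, Complex.norm_real, Real.norm_eq_abs, im_ofReal_mul]
    rw [abs_of_pos (by linarith), mul_div_mul_left _ _ (by linarith)]
  obtain ⟨t₀, -, ht₀⟩ := isCompact_Icc.exists_isMinOn (nonempty_Icc.mpr zero_le_one)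
    (hrc.continuousOn (s := Icc 0 1))
  set δ := r t₀ with hδ
  have hδ0 : 0 < δ := div_pos (pΦ _) (hn _)
  have hlow : ∀ s, δ * ‖Φ s‖ ≤ (Φ s).im := by
    intro s
    obtain ⟨y, hy, hy'⟩ := hrp.exists_mem_Ico₀ one_pos s
    have : δ ≤ r s := by rw [hy']; exact ht₀ (Ico_subset_Icc_self hy)
    rwa [hr, le_div_iff₀ (hn s)] at this
  have hre : ∀ {x : ℝ} {T : ℕ → ℝ}, Tendsto (fun n => Ψ (T n)) atTop (𝓝 (x : ℂ)) →
      Tendsto (fun n => (Ψ (T n)).re) atTop (𝓝 x) ∧
      Tendsto (fun n => (Ψ (T n)).im) atTop (𝓝 0) := by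
    intro x T h
    exact ⟨by simpa [Function.comp_def] using (continuous_re.tendsto _).comp h,
      by simpa [Function.comp_def] using (continuous_im.tendsto _).comp h⟩
  obtain ⟨n₀, h01, h02⟩ := (((hre l₀).1.eventually (gt_mem_nhds (show x₀ < x₀ / 2 by linarith))).and
    ((hre l₀).2.eventually (gt_mem_nhds (show 0 < δ * (-x₀ / 2) by
      apply mul_pos hδ0; linarith)))).exists
  obtain ⟨n₁, h11, h12⟩ := (((hre l₁).1.eventually (lt_mem_nhds (show x₁ / 2 < x₁ by linarith))).and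
    ((hre l₁).2.eventually (gt_mem_nhds (show 0 < δ * (x₁ / 2) by
      apply mul_pos hδ0; linarith)))).exists
  have hic : Continuous fun t => (Ψ t).im := continuous_im.comp hΨ
  obtain ⟨u, -, hu⟩ := isCompact_uIcc.exists_isMinOn (nonempty_uIcc (a := T₀ n₀) (b := T₁ n₁))
    hic.continuousOn
  obtain ⟨v, -, hv⟩ := isCompact_uIcc.exists_isMaxOn (nonempty_uIcc (a := T₀ n₀) (b := T₁ n₁))
    hic.continuousOn
  have hup : ∀ N : ℕ, (Φ N).im = κ ^ N * (Φ 0).im := by
    intro N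
    induction N with
    | zero => simp
    | succ N ih => rw [Nat.cast_succ, hper, im_ofReal_mul, ih]; ring
  have hdn : ∀ N : ℕ, κ ^ N * (Φ (-N)).im = (Φ 0).im := by
    intro N
    induction N with
    | zero => simp
    | succ N ih =>
      have := hper (-((N + 1 : ℕ) : ℝ))
      rw [show -((N + 1 : ℕ) : ℝ) + 1 = -N by push_cast; ring] at this
      rw [← ih, this, im_ofReal_mul]; ring
  have hpow := tendsto_pow_atTop_atTop_of_one_lt hκ
  obtain ⟨N₁, hN₁⟩ := (hpow.eventually (eventually_gt_atTop ((Ψ v).im / (Φ 0).im))).exists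
  obtain ⟨N₀, hN₀⟩ := (hpow.eventually (eventually_gt_atTop ((Φ 0).im / (Ψ u).im))).exists
  rw [div_lt_iff₀ (pΦ 0)] at hN₁
  rw [div_lt_iff₀ (pΨ u)] at hN₀
  refine cross_core (G := fun p => Φ p.1 - Ψ p.2) (by fun_prop)
    (fun p => sub_ne_zero.mpr (hne _ _)) (S₀ := -N₀) (S₁ := N₁) (T₀ := T₀ n₀) (T₁ := T₁ n₁)
    ?_ ?_ ?_ ?_
  · intro t ht
    have := hv ht
    simp only [mem_ofPred_eq] at this
    simp only [sub_im, hup]; linarith
  · intro t ht
    have h1 := hu ht
    simp only [mem_ofPred_eq] at h1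
    have h2 := hdn N₀
    have h3 : 0 < κ ^ N₀ := by positivity
    have : (Φ (-N₀)).im < (Ψ u).im := by
      by_contra hc
      push Not at hc
      nlinarith
    simp only [sub_im]; linarith
  · intro s
    by_contra hc
    rw [mem_slitPlane_iff] at hc
    push Not at hc
    simp only [sub_re, sub_im] at hc
    have h1 := hlow s
    have h2 := abs_re_le_norm (Φ s)
    have h3 := neg_le_abs (Φ s).re
    nlinarith [hc.1, hc.2]
  · intro s
    by_contra hc
    rw [mem_slitPlane_iff] at hc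
    push Not at hc
    simp only [neg_sub, sub_re, sub_im] at hc
    have h1 := hlow s
    have h2 := abs_re_le_norm (Φ s)
    have h3 := le_abs_self (Φ s).re
    nlinarith [hc.1, hc.2]

end Pool.Agent.P992
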