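import Mathlib

/-!
Definitions for the orbit growth problem on the once punctured torus.

The surface is `S = ℍ / Γ`, where `Γ` is the free group on the two matrices
`τ ↦ 6 - 1/τ` and `τ ↦ 9 - 1/(τ - 3)`.  The first one pairs the unit circles centred at `0` and `6`,
the second one pairs the unit circles centred at `3` and `9`.  The pairs alternate, so the quotient
is an open one-holed torus, that is, a once punctured torus, with `π₁ = F(a,b)` and boundary class
`a b a⁻¹ b⁻¹`.
-/

open scoped MatrixGroups UpperHalfPlane

namespace Pool.Agent.P992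

/-- The free group `F(a,b)`. -/
abbrev F : Type := FreeGroup Bool

/-- The generator `a`. -/
def a : F := FreeGroup.of false

/-- The generator `b`. -/
def b : F := FreeGroup.of true

/-- The deck transformation `τ ↦ 6 - 1/τ`. -/
def matA : SL(2, ℝ) := ⟨!![6, -1; 1, 0], by norm_num [Matrix.det_fin_two_of]⟩

/-- The deck transformation `τ ↦ 9 - 1/(τ - 3)`. -/
def matB : SL(2, ℝ) := ⟨!![9, -28; 1, -3], by norm_num [Matrix.det_fin_two_of]⟩

/-- The deck group action of `F(a,b)` on the universal cover `ℍ` of the punctured torus. -/
noncomputable def rho : F →* SL(2, ℝ) := FreeGroup.lift fun i => if i then matB else matA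

/-- `γ` is the lift to `ℍ` of a closed curve on `S = ℍ / Γ` (parametrised by `ℝ / ℤ`) whose free
homotopy class is the conjugacy class of `g`. -/
def IsRep (g : F) (γ : ℝ → ℍ) : Prop := Continuous γ ∧ ∀ t, γ (t + 1) = rho g • γ t

/-- The self-intersections of the closed curve, counted with multiplicity: unordered pairs of
distinct parameters in `ℝ / ℤ` with the same image in `S`. -/
def dbl (γ : ℝ → ℍ) : Set (ℝ × ℝ) :=
  {p | 0 ≤ p.1 ∧ p.1 < p.2 ∧ p.2 < 1 ∧ ∃ h : F, γ p.1 = rho h • γ p.2}

/-- The self-intersection number: least number of self-intersections over all representatives. -/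
noncomputable def SI (g : F) : ℕ∞ := ⨅ γ : {γ // IsRep g γ}, (dbl γ.1).encard

/-- The unoriented free homotopy class of `g`. -/
def cls (g : F) : Set F := {h | IsConj g h ∨ IsConj g⁻¹ h}

/-- Word length of a class: the number of letters of a shortest word representing it. -/
noncomputable def wl (β : Set F) : ℕ := sInf (FreeGroup.norm '' β)

/-- The orbit of the class of `g` under the mapping class group `Out(F(a,b))`. -/
def orb (g : F) : Set (Set F) := {β | ∃ φ : MulAut F, β = cls (φ g)}

/-- The number of classes of word length at most `l` in the orbit `O`. -/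
noncomputable def cnt (O : Set (Set F)) (l : ℕ) : ℕ := {β | β ∈ O ∧ wl β ≤ l}.ncard

/-- `g` is not a proper power. -/
def NonPower (g : F) : Prop := ∀ (h : F) (k : ℕ), 2 ≤ k → h ^ k ≠ g

/-- The orbits of non-power classes with self-intersection number `k`, without the orbit of the
boundary class. -/
def Orbs (k : ℕ) : Set (Set (Set F)) :=
  {O | ∃ g : F, NonPower g ∧ SI g = k ∧ O = orb g ∧ O ≠ orb (a * b * a⁻¹ * b⁻¹)}

end Pool.Agent.P992
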