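import Pool.Agent.P.MP_992ce1_gt.Cross

/-! Equivariant paths of two hyperbolic elements with linked fixed points intersect. -/

open scoped MatrixGroups UpperHalfPlane
open Complex Set Filter Topology

namespace Pool.Agent.P992

abbrev V : Type := ℝ × ℝ

def det2 (u v : V) : ℝ := u.1 * v.2 - u.2 * v.1

def act (M : SL(2, ℝ)) (v : V) : V :=
  (M 0 0 * v.1 + M 0 1 * v.2, M 1 0 * v.1 + M 1 1 * v.2)

lemma sl_det (M : SL(2, ℝ)) : M 0 0 * M 1 1 - M 0 1 * M 1 0 = 1 := by
  have := M.det_coe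
  rwa [Matrix.det_fin_two] at this

lemma act_mul (M N : SL(2, ℝ)) (v : V) : act (M * N) v = act M (act N v) := by
  simp only [act, Matrix.SpecialLinearGroup.coe_mul, Matrix.mul_apply, Fin.sum_univ_two]
  ext <;> simp <;> ring

lemma act_one (v : V) : act 1 v = v := by
  simp [act]

lemma act_inv_act (M : SL(2, ℝ)) (v : V) : act M⁻¹ (act M v) = v := by
  rw [← act_mul, inv_mul_cancel, act_one]

lemma act_act_inv (M : SL(2, ℝ)) (v : V) : act M (act M⁻¹ v) = v := by
  rw [← act_mul, mul_inv_cancel, act_one]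

lemma act_smul (M : SL(2, ℝ)) (c : ℝ) (v : V) : act M (c • v) = c • act M v := by
  simp only [act]; ext <;> simp <;> ring

lemma act_add (M : SL(2, ℝ)) (u v : V) : act M (u + v) = act M u + act M v := by
  simp only [act]; ext <;> simp <;> ring

lemma act_ne_zero (M : SL(2, ℝ)) {v : V} (h : v ≠ 0) : act M v ≠ 0 := by
  intro h'
  apply h
  rw [← act_inv_act M v, h']; simp [act]

lemma det2_act (M : SL(2, ℝ)) (u v : V) : det2 (act M u) (act M v) = det2 u v := by
  have := sl_det M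
  simp only [det2, act]
  linear_combination (u.1 * v.2 - u.2 * v.1) * this

lemma det2_swap (u v : V) : det2 u v = -det2 v u := by simp only [det2]; ring
lemma det2_self (u : V) : det2 u u = 0 := by simp only [det2]; ring
lemma det2_smul_left (c : ℝ) (u v : V) : det2 (c • u) v = c * det2 u v := by
  simp [det2]; ring
lemma det2_smul_right (c : ℝ) (u v : V) : det2 u (c • v) = c * det2 u v := by
  simp [det2]; ring
lemma det2_add_left (u v w : V) : det2 (u + v) w = det2 u w + det2 v w := by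
  simp [det2]; ring
lemma det2_add_right (u v w : V) : det2 u (v + w) = det2 u v + det2 u w := by
  simp [det2]; ring

lemma eq_smul_of_det2 {u v : V} (hu : u ≠ 0) (h : det2 u v = 0) : ∃ c : ℝ, v = c • u := by
  simp only [det2] at h
  by_cases h1 : u.1 = 0
  · have h2 : u.2 ≠ 0 := fun h2 => hu (Prod.ext h1 h2)
    refine ⟨v.2 / u.2, Prod.ext ?_ ?_⟩
    · simp only [Prod.smul_fst, smul_eq_mul, h1, mul_zero]
      rw [h1] at h
      have : u.2 * v.1 = 0 := by linarith
      exact (mul_eq_zero.mp this).resolve_left h2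
    · simp only [Prod.smul_snd, smul_eq_mul]; field_simp
  · refine ⟨v.1 / u.1, Prod.ext ?_ ?_⟩
    · simp only [Prod.smul_fst, smul_eq_mul]; field_simp
    · simp only [Prod.smul_snd, smul_eq_mul]; field_simp; linarith

/-- `v` spans the attracting eigenline of `M`. -/
def Att (M : SL(2, ℝ)) (v : V) : Prop := v ≠ 0 ∧ ∃ l : ℝ, 1 < |l| ∧ act M v = l • v

lemma Att.conj {M : SL(2, ℝ)} {v : V} (h : Att M v) (P : SL(2, ℝ)) :
    Att (P⁻¹ * M * P) (act P⁻¹ v) := by
  obtain ⟨h0, l, hl, he⟩ := h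
  refine ⟨act_ne_zero _ h0, l, hl, ?_⟩
  rw [act_mul, act_mul, act_act_inv, he, act_smul]

lemma abs_mul_gt {l m : ℝ} (hl : 1 < |l|) (hm : 1 < |m|) : l * m ≠ 1 := by
  intro h
  have : |l| * |m| = 1 := by rw [← abs_mul, h, abs_one]
  nlinarith

lemma Att.det_eq_zero {M : SL(2, ℝ)} {u v : V} (hu : Att M u) (hv : Att M v) : det2 u v = 0 := by
  obtain ⟨-, l, hl, he⟩ := hu
  obtain ⟨-, m, hm, hf⟩ := hv
  have := det2_act M u v
  rw [he, hf, det2_smul_left, det2_smul_right] at this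
  have h2 := abs_mul_gt hl hm
  have : (l * m - 1) * det2 u v = 0 := by linarith
  exact (mul_eq_zero.mp this).resolve_left (sub_ne_zero.mpr h2)

lemma Att.pair {M : SL(2, ℝ)} {u v : V} (hu : Att M u) (hv : Att M⁻¹ v) :
    det2 v u ≠ 0 ∧ ∃ l : ℝ, 1 < |l| ∧ act M u = l • u ∧ l • act M v = v := by
  obtain ⟨hu0, l, hl, he⟩ := hu
  obtain ⟨hv0, m, hm, hf⟩ := hv
  have h1 : m • act M v = v := by rw [← act_smul, ← hf, act_act_inv]
  have hd : det2 v u ≠ 0 := by
    intro hd
    rw [det2_swap, neg_eq_zero] at hd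
    obtain ⟨c, hc⟩ := eq_smul_of_det2 hu0 hd
    have h2 : act M v = l • v := by rw [hc, act_smul, he, smul_comm]
    rw [h2, smul_smul] at h1
    have h3 : (m * l - 1) • v = 0 := by rw [sub_smul, h1, one_smul, sub_self]
    exact hv0 ((smul_eq_zero.mp h3).resolve_left (sub_ne_zero.mpr (abs_mul_gt hm hl)))
  refine ⟨hd, l, hl, he, ?_⟩
  have h2 := det2_act M v u
  have h3 : m * det2 (act M v) (act M u) = l * det2 v u := by
    rw [← det2_smul_left, h1, he, det2_smul_right]
  rw [h2] at h3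
  have : m = l := mul_right_cancel₀ hd h3
  rw [← this]; exact h1

/-- The linear form `det (v, (τ, 1))`. -/
noncomputable def Lf (v : V) (τ : ℍ) : ℂ := v.1 - v.2 * (τ : ℂ)

lemma Lf_ne_zero {v : V} (hv : v ≠ 0) (τ : ℍ) : Lf v τ ≠ 0 := by
  intro h
  have h1 := congrArg Complex.im h
  have h2 := congrArg Complex.re h
  simp [Lf] at h1 h2
  rcases h1 with h1 | h1
  · rw [h1] at h2
    exact hv (Prod.ext (by simpa using h2) h1)
  · exact τ.im_pos.ne' h1

lemma Lf_smul (c : ℝ) (v : V) (τ : ℍ) : Lf (c • v) τ = c * Lf v τ := by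
  simp [Lf]; ring

noncomputable def jj (M : SL(2, ℝ)) (τ : ℍ) : ℂ := M 1 0 * (τ : ℂ) + M 1 1

lemma jj_ne_zero (M : SL(2, ℝ)) (τ : ℍ) : jj M τ ≠ 0 := by
  have h := Lf_ne_zero (v := (M 1 1, -M 1 0)) (by
    intro h
    have h1 := congrArg Prod.fst h
    have h2 := congrArg Prod.snd h
    have := sl_det M
    simp at h1 h2
    rw [h1, h2] at this; simp at this) τ
  intro h'
  apply h
  simp only [Lf, jj] at *
  push_cast
  linear_combination h'

lemma coe_sl_smul (M : SL(2, ℝ)) (τ : ℍ) :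
    ((M • τ : ℍ) : ℂ) = (M 0 0 * (τ : ℂ) + M 0 1) / jj M τ := by
  rw [UpperHalfPlane.coe_specialLinearGroup_apply]
  simp [jj]

lemma Lf_act (M : SL(2, ℝ)) (v : V) (τ : ℍ) : Lf (act M v) (M • τ) = Lf v τ / jj M τ := by
  have h := jj_ne_zero M τ
  have hd : ((M 0 0 : ℂ) * M 1 1 - M 0 1 * M 1 0) = 1 := by exact_mod_cast sl_det M
  simp only [Lf, coe_sl_smul, act]
  field_simp
  simp only [jj]
  push_cast
  linear_combination ((v.1 : ℂ) - v.2 * τ) * hd

/-- The coordinate in which the repelling point is `0` and the attracting point is `∞`. -/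
noncomputable def zeta (v u : V) (τ : ℍ) : ℂ := Lf v τ / Lf u τ

lemma zeta_smul {M : SL(2, ℝ)} {u v : V} {l : ℝ} (hu0 : u ≠ 0) (hl : l ≠ 0)
    (hu : act M u = l • u) (hv : l • act M v = v) (τ : ℍ) :
    zeta v u (M • τ) = (l ^ 2 : ℝ) * zeta v u τ := by
  have h1 := Lf_act M u τ
  have h2 := Lf_act M v τ
  rw [hu, Lf_smul] at h1
  have h3 : Lf v (M • τ) = l * (Lf v τ / jj M τ) := by rw [← h2, ← Lf_smul, hv]
  have hj := jj_ne_zero M τ
  have hl' : (l : ℂ) ≠ 0 := by exact_mod_cast hl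
  have h4 : Lf u (M • τ) = Lf u τ / jj M τ / l := by rw [← h1]; field_simp
  have := Lf_ne_zero hu0 τ
  simp only [zeta, h3, h4]
  push_cast
  field_simp

lemma zeta_im {u v : V} (hu0 : u ≠ 0) (hd : det2 v u ≠ 0) (τ : ℍ) :
    0 < ((det2 v u : ℝ) * zeta v u τ).im := by
  have h := Lf_ne_zero hu0 τ
  have hn : 0 < normSq (Lf u τ) := normSq_pos.mpr h
  rw [im_ofReal_mul, zeta, div_im]
  have e : (Lf v τ).im * (Lf u τ).re / normSq (Lf u τ) - (Lf v τ).re * (Lf u τ).im / normSq (Lf u τ)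
      = det2 v u * τ.im / normSq (Lf u τ) := by
    rw [← sub_div]; congr 1
    simp [Lf, det2]; ring
  rw [e]
  have := τ.im_pos
  have h2 : 0 < det2 v u * det2 v u := mul_self_pos.mpr hd
  rw [← mul_div_assoc, ← mul_assoc]
  positivity

lemma zeta_inj {u v : V} (hu0 : u ≠ 0) (hd : det2 v u ≠ 0) {τ τ' : ℍ}
    (h : zeta v u τ = zeta v u τ') : τ = τ' := by
  have h1 := Lf_ne_zero hu0 τ
  have h2 := Lf_ne_zero hu0 τ'
  simp only [zeta] at h
  rw [div_eq_div_iff h1 h2] at h
  have hd' : ((det2 v u : ℝ) : ℂ) ≠ 0 := by exact_mod_cast hd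
  apply UpperHalfPlane.ext
  apply mul_left_cancel₀ hd'
  simp only [Lf, det2] at *
  push_cast
  linear_combination h

lemma zeta_cont {u v : V} (hu0 : u ≠ 0) : Continuous (zeta v u) := by
  unfold zeta
  refine Continuous.div ?_ ?_ (Lf_ne_zero hu0)
  · unfold Lf; fun_prop
  · unfold Lf; fun_prop

lemma free_of_att {M : SL(2, ℝ)} {u v : V} (hu : Att M u) (hv : Att M⁻¹ v) (τ : ℍ) :
    M • τ ≠ τ := by
  obtain ⟨hd, l, hl, he, hf⟩ := hu.pair hv
  intro h
  have hl0 : l ≠ 0 := by rintro rfl; simp at hl; linarith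
  have h1 := zeta_smul hu.1 hl0 he hf τ
  rw [h] at h1
  have h2 : zeta v u τ ≠ 0 := div_ne_zero (Lf_ne_zero hv.1 τ) (Lf_ne_zero hu.1 τ)
  have h3 : ((l ^ 2 : ℝ) : ℂ) = 1 := by
    have : (((l ^ 2 : ℝ) : ℂ) - 1) * zeta v u τ = 0 := by linear_combination -h1
    exact sub_eq_zero.mp ((mul_eq_zero.mp this).resolve_right h2)
  have h4 : l ^ 2 = 1 := by exact_mod_cast h3
  exact abs_mul_gt hl hl (by linarith)

def co (x y z : V) : ℝ := det2 x y * det2 y z * det2 z x

lemma co_act (M : SL(2, ℝ)) (x y z : V) : co (act M x) (act M y) (act M z) = co x y z := by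
  simp only [co, det2_act]

lemma Lf_plucker (v u w : V) (τ : ℍ) :
    (det2 w u : ℝ) * Lf v τ = (det2 v u : ℝ) * Lf w τ - (det2 v w : ℝ) * Lf u τ := by
  simp only [Lf, det2]; push_cast; ring

theorem paths_meet {M N : SL(2, ℝ)} {vp vm up um : V} (h1 : Att M vp) (h2 : Att M⁻¹ vm)
    (h3 : Att N up) (h4 : Att N⁻¹ um) (hco : co vm um vp * co vm up vp < 0)
    {γ δ : ℝ → ℍ} (hγ : Continuous γ) (hδ : Continuous δ)
    (eγ : ∀ t, γ (t + 1) = M • γ t) (eδ : ∀ t, δ (t + 1) = N • δ t) : ∃ s t, γ s = δ t := by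
  obtain ⟨hd, l, hl, he, hf⟩ := h1.pair h2
  obtain ⟨hd', m, hm, he', hf'⟩ := h3.pair h4
  have hl0 : l ≠ 0 := by rintro rfl; simp at hl; linarith
  have hm0 : m ≠ 0 := by rintro rfl; simp at hm; linarith
  have hl2 : 1 < l ^ 2 := by rw [← sq_abs]; nlinarith
  have hm2 : 1 < m ^ 2 := by rw [← sq_abs]; nlinarith
  set D := det2 vm vp with hD
  set A := det2 vm up with hA
  set B := det2 vm um with hB
  set C := det2 vp up with hC
  set E := det2 vp um with hE
  have hprod : A * B * C * E < 0 := by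
    have e : co vm um vp * co vm up vp = (A * B * C * E) * (D * D) := by
      simp only [co, hA, hB, hC, hE, hD, det2]; ring
    rw [e] at hco
    by_contra hc
    push Not at hc
    have := mul_nonneg hc (mul_self_nonneg D)
    linarith
  have hC0 : C ≠ 0 := by rintro h; rw [h] at hprod; simp at hprod
  have hE0 : E ≠ 0 := by rintro h; rw [h] at hprod; simp at hprod
  set Φ : ℍ → ℂ := fun τ => (D : ℝ) * zeta vm vp τ with hΦ
  have hΦc : Continuous Φ := continuous_const.mul (zeta_cont h1.1)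
  have hform : ∀ τ, Φ τ = D * (A * zeta um up τ - B) / (C * zeta um up τ - E) := by
    intro τ
    have p1 := Lf_plucker vm up um τ
    have p2 := Lf_plucker vp up um τ
    have n1 := Lf_ne_zero h1.1 τ
    have n2 := Lf_ne_zero h3.1 τ
    have n3 : ((det2 um up : ℝ) : ℂ) ≠ 0 := by exact_mod_cast hd'
    have q1 : A * zeta um up τ - B = (det2 um up : ℝ) * Lf vm τ / Lf up τ := by
      rw [p1, zeta, hA, hB]; field_simp
    have q2 : C * zeta um up τ - E = (det2 um up : ℝ) * Lf vp τ / Lf up τ := by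
      rw [p2, zeta, hC, hE]; field_simp
    rw [q1, q2]
    simp only [hΦ, zeta]
    field_simp
  set z₀ := zeta um up (δ 0) with hz₀
  have hz0 : z₀ ≠ 0 := div_ne_zero (Lf_ne_zero h4.1 _) (Lf_ne_zero h3.1 _)
  set η : ℕ → ℝ := fun n => ((m ^ 2)⁻¹) ^ n with hη
  have hη0 : Tendsto (fun n => (η n : ℂ)) atTop (𝓝 0) := by
    have : Tendsto η atTop (𝓝 0) :=
      tendsto_pow_atTop_nhds_zero_of_lt_one (by positivity) (inv_lt_one_of_one_lt₀ hm2)
    simpa [Function.comp_def] using (continuous_ofReal.tendsto _).comp this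
  have hm0' : (m : ℂ) ≠ 0 := by exact_mod_cast hm0
  have hup : ∀ n : ℕ, η n * zeta um up (δ n) = z₀ := by
    intro n
    induction n with
    | zero => simp [hη, hz₀]
    | succ n ih =>
      rw [Nat.cast_succ, eδ, zeta_smul h3.1 hm0 he' hf', ← ih]
      simp only [hη]; push_cast; rw [pow_succ]; field_simp
  have hdn : ∀ n : ℕ, zeta um up (δ (-n)) = η n * z₀ := by
    intro n
    induction n with
    | zero => simp [hη, hz₀]
    | succ n ih =>
      have := eδ (-((n + 1 : ℕ) : ℝ))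
      rw [show -((n + 1 : ℕ) : ℝ) + 1 = -n by push_cast; ring] at this
      rw [this, zeta_smul h3.1 hm0 he' hf'] at ih
      simp only [hη] at ih ⊢
      push_cast at ih ⊢
      rw [pow_succ _ n, mul_right_comm, ← ih]
      field_simp
  have hC0' : (C : ℂ) ≠ 0 := by exact_mod_cast hC0
  have hE0' : (E : ℂ) ≠ 0 := by exact_mod_cast hE0
  have lim0 : Tendsto (fun n : ℕ => Φ (δ (-n))) atTop (𝓝 ((D * B / E : ℝ) : ℂ)) := by
    have : Tendsto (fun n : ℕ => (D : ℂ) * (A * (η n * z₀) - B) / (C * (η n * z₀) - E)) atTop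
        (𝓝 (D * (A * (0 * z₀) - B) / (C * (0 * z₀) - E))) := by
      refine Tendsto.div ?_ ?_ (by simpa using hE0)
      · exact (((hη0.mul_const _).const_mul _).sub_const _).const_mul _
      · exact ((hη0.mul_const _).const_mul _).sub_const _
    convert this using 2
    · rw [hform, hdn]
    · push_cast; simp only [zero_mul, mul_zero, zero_sub, mul_neg, neg_div_neg_eq]
  have lim1 : Tendsto (fun n : ℕ => Φ (δ n)) atTop (𝓝 ((D * A / C : ℝ) : ℂ)) := by
    have : Tendsto (fun n : ℕ => (D : ℂ) * (A * z₀ - B * η n) / (C * z₀ - E * η n)) atTop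
        (𝓝 (D * (A * z₀ - B * 0) / (C * z₀ - E * 0))) := by
      refine Tendsto.div ?_ ?_ (by simpa using ⟨hC0, hz0⟩)
      · exact ((hη0.const_mul _).const_sub _).const_mul _
      · exact (hη0.const_mul _).const_sub _
    convert this using 2
    · rename_i n
      have hn : (η n : ℂ) ≠ 0 := by
        have : η n ≠ 0 := by simp only [hη]; positivity
        exact_mod_cast this
      rw [hform, ← hup n, ← mul_div_mul_left _ _ hn]
      congr 1 <;> ring
    · push_cast; field_simp; ring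
  have hper : ∀ t, Φ (γ (t + 1)) = (l ^ 2 : ℝ) * Φ (γ t) := by
    intro t
    simp only [hΦ]
    rw [eγ, zeta_smul h1.1 hl0 he hf]; ring
  have hsign : (D * B / E) * (D * A / C) < 0 := by
    have e : (D * B / E) * (D * A / C) = (A * B * C * E) * (D / (C * E)) ^ 2 := by
      field_simp
    rw [e]
    exact mul_neg_of_neg_of_pos hprod (by positivity)
  have hD0 : (D : ℂ) ≠ 0 := by exact_mod_cast hd
  have fin : (∃ s t, Φ (γ s) = Φ (δ t)) → ∃ s t, γ s = δ t := by
    rintro ⟨s, t, h⟩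
    exact ⟨s, t, zeta_inj h1.1 hd (mul_left_cancel₀ hD0 h)⟩
  apply fin
  rcases mul_neg_iff.mp hsign with ⟨p, q⟩ | ⟨p, q⟩
  · exact cross_paths (hΦc.comp hγ) (hΦc.comp hδ) (fun t => zeta_im h1.1 hd _)
      (fun t => zeta_im h1.1 hd _) hl2 hper q p (T₀ := fun n => n) (T₁ := fun n => -n) lim1 lim0
  · exact cross_paths (hΦc.comp hγ) (hΦc.comp hδ) (fun t => zeta_im h1.1 hd _)
      (fun t => zeta_im h1.1 hd _) hl2 hper p q (T₀ := fun n => -n) (T₁ := fun n => n) lim0 lim1

end Pool.Agent.P992
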