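import Pool.Agent.P.MP_992ce1_gt.Geo
import Pool.Agent.P.MP_992ce1_gt.Defs

/-! Schottky ping-pong structures, and their behaviour under Nielsen moves. -/

open scoped MatrixGroups UpperHalfPlane

namespace Pool.Agent.P992

def Good (A B : SL(2, ℝ)) : Prop :=
  ∃ (σ : ℝ) (e : ℕ → V), (∀ i j, i < j → j < 8 → 0 < σ * det2 (e i) (e j)) ∧
    ∃ s t : ℝ, s * s = 1 ∧ t * t = 1 ∧ act A (e 6) = s • e 3 ∧ act A (e 7) = (-s) • e 2 ∧
      act B (e 0) = t • e 5 ∧ act B (e 1) = (-t) • e 4

lemma det2_neg_left (u v : V) : det2 (-u) v = -det2 u v := by simp [det2]; ring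
lemma det2_neg_right (u v : V) : det2 u (-v) = -det2 u v := by simp [det2]; ring
lemma act_neg (M : SL(2, ℝ)) (v : V) : act M (-v) = -act M v := by
  rw [← neg_one_smul ℝ v, act_smul, neg_one_smul]

lemma act_inv_of {M : SL(2, ℝ)} {u v : V} {s : ℝ} (hs : s * s = 1) (h : act M u = s • v) :
    act M⁻¹ v = s • u := by
  have := congrArg (act M⁻¹) h
  rw [act_inv_act, act_smul] at this
  rw [this, smul_smul, hs, one_smul]

lemma Good.conj {A B : SL(2, ℝ)} (h : Good A B) (P : SL(2, ℝ)) :
    Good (P * A * P⁻¹) (P * B * P⁻¹) := by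
  obtain ⟨σ, e, he, s, t, hs, ht, h1, h2, h3, h4⟩ := h
  refine ⟨σ, fun i => act P (e i), fun i j hij hj => by rw [det2_act]; exact he i j hij hj,
    s, t, hs, ht, ?_, ?_, ?_, ?_⟩ <;>
  simp only [act_mul, act_inv_act, h1, h2, h3, h4, act_smul]

lemma Good.swap {A B : SL(2, ℝ)} (h : Good A B) : Good B A := by
  obtain ⟨σ, e, he, s, t, hs, ht, h1, h2, h3, h4⟩ := h
  refine ⟨-σ, fun i => e (7 - i), fun i j hij hj => ?_, -t, -s, by linarith, by linarith,
    h4, by simpa using h3, h2, by simpa using h1⟩
  have := he (7 - j) (7 - i) (by omega) (by omega)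
  rw [det2_swap] at this
  linarith

lemma Good.rot {A B : SL(2, ℝ)} (h : Good A B) : Good B A⁻¹ := by
  obtain ⟨σ, e, he, s, t, hs, ht, h1, h2, h3, h4⟩ := h
  refine ⟨σ, fun i => if i < 6 then e (i + 2) else -e (i - 6), fun i j hij hj => ?_, -t, -s,
    by linarith, by linarith, ?_, ?_, ?_, ?_⟩
  · by_cases hi : i < 6 <;> by_cases hj' : j < 6 <;> simp only [hi, hj', if_true, if_false]
    · exact he _ _ (by omega) (by omega)
    · have := he (j - 6) (i + 2) (by omega) (by omega)
      rw [det2_swap] at this
      rwa [det2_neg_right]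
    · omega
    · rw [det2_neg_left, det2_neg_right, neg_neg]
      exact he _ _ (by omega) (by omega)
  · simp [act_neg, h3]
  · simp [act_neg, h4]
  · simpa using act_inv_of (by linarith : (-s) * (-s) = 1) h2
  · simpa using act_inv_of hs h1

lemma Good.inv_right {A B : SL(2, ℝ)} (h : Good A B) : Good A B⁻¹ := h.swap.rot
lemma Good.inv_left {A B : SL(2, ℝ)} (h : Good A B) : Good A⁻¹ B := h.rot.swap

lemma plucker (x u w : V) : det2 u w • x = det2 x w • u + det2 u x • w := by
  ext <;> simp [det2] <;> ring

lemma Good.step {A B : SL(2, ℝ)} (h : Good A B) : Good A (A * B) := by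
  obtain ⟨σ, e, he, s, t, hs, ht, h1, h2, h3, h4⟩ := h
  have h67 := he 6 7 (by omega) (by omega)
  have key : ∀ x : V, 0 < σ * det2 x (e 6) → 0 < σ * det2 x (e 7) →
      ∃ α β : ℝ, 0 < α ∧ 0 < β ∧ s • act A x = α • e 2 + β • e 3 := by
    intro x hx6 hx7
    refine ⟨σ * det2 x (e 6) / (σ * det2 (e 6) (e 7)), σ * det2 x (e 7) / (σ * det2 (e 6) (e 7)),
      div_pos hx6 h67, div_pos hx7 h67, ?_⟩
    have hσ : σ ≠ 0 := by rintro rfl; simp at h67
    have hd : det2 (e 6) (e 7) ≠ 0 := by intro h; rw [h] at h67; simp at h67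
    have p := congrArg (act A) (plucker x (e 6) (e 7))
    rw [act_smul, act_add, act_smul, act_smul, h1, h2, det2_swap (e 6) x] at p
    have p1 := congrArg Prod.fst p
    have p2 := congrArg Prod.snd p
    simp only [Prod.smul_fst, Prod.smul_snd, Prod.fst_add, Prod.snd_add, smul_eq_mul] at p1 p2
    ext
    · simp only [Prod.smul_fst, Prod.fst_add, smul_eq_mul]
      field_simp
      linear_combination s * p1 + (det2 x (e 7) * (e 3).1 + det2 x (e 6) * (e 2).1) * hs
    · simp only [Prod.smul_snd, Prod.snd_add, smul_eq_mul]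
      field_simp
      linear_combination s * p2 + (det2 x (e 7) * (e 3).2 + det2 x (e 6) * (e 2).2) * hs
  set x : ℕ → V := fun i => if i = 2 then e 0 + -e 7 else if i = 3 then e 3 + e 4 else e i with hx
  have hx2 : x 2 = e 0 + -e 7 := by simp [hx]
  have hx3 : x 3 = e 3 + e 4 := by simp [hx]
  have hx4 : x 4 = e 4 := by simp [hx]
  have hx5 : x 5 = e 5 := by simp [hx]
  clear_value x
  have hx67 : ∀ i, 2 ≤ i → i < 6 → 0 < σ * det2 (x i) (e 6) ∧ 0 < σ * det2 (x i) (e 7) := by
    intro i h2 h6
    have a1 := he 0 6 (by omega) (by omega)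
    have a2 := he 0 7 (by omega) (by omega)
    have a3 := he 3 6 (by omega) (by omega)
    have a4 := he 3 7 (by omega) (by omega)
    have a5 := he 4 6 (by omega) (by omega)
    have a6 := he 4 7 (by omega) (by omega)
    have a7 := he 5 6 (by omega) (by omega)
    have a8 := he 5 7 (by omega) (by omega)
    interval_cases i <;>
      simp only [hx2, hx3, hx4, hx5, det2_add_left, det2_neg_left, det2_self,
        det2_swap (e 7) (e 6)] <;> constructor <;> nlinarith
  have hxx : ∀ i j, 2 ≤ i → i < j → j < 6 → 0 < σ * det2 (x i) (x j) := by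
    intro i j h2 hij h6
    have a1 := he 0 3 (by omega) (by omega)
    have a2 := he 0 4 (by omega) (by omega)
    have a3 := he 0 5 (by omega) (by omega)
    have a4 := he 3 7 (by omega) (by omega)
    have a5 := he 4 7 (by omega) (by omega)
    have a6 := he 5 7 (by omega) (by omega)
    have a7 := he 3 4 (by omega) (by omega)
    have a8 := he 3 5 (by omega) (by omega)
    have a9 := he 4 5 (by omega) (by omega)
    have hi6 : i < 6 := by omega
    interval_cases i <;> interval_cases j <;>
      simp only [hx2, hx3, hx4, hx5, det2_add_left, det2_add_right, det2_neg_left, det2_self,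
        det2_swap (e 7) (e 3), det2_swap (e 7) (e 4), det2_swap (e 7) (e 5)] <;> nlinarith
  refine ⟨σ, fun i => if i < 2 then e i else if i < 6 then s • act A (x i)
    else if i = 6 then e 3 + e 4 else e 7 + -e 0, fun i j hij hj => ?_, s, t * s, hs,
    by linear_combination (s * s) * ht + hs, ?_, ?_, ?_, ?_⟩
  · have a01 := he 0 1 (by omega) (by omega)
    have a02 := he 0 2 (by omega) (by omega)
    have a03 := he 0 3 (by omega) (by omega)
    have a04 := he 0 4 (by omega) (by omega)
    have a07 := he 0 7 (by omega) (by omega)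
    have a12 := he 1 2 (by omega) (by omega)
    have a13 := he 1 3 (by omega) (by omega)
    have a14 := he 1 4 (by omega) (by omega)
    have a17 := he 1 7 (by omega) (by omega)
    have a23 := he 2 3 (by omega) (by omega)
    have a24 := he 2 4 (by omega) (by omega)
    have a27 := he 2 7 (by omega) (by omega)
    have a34 := he 3 4 (by omega) (by omega)
    have a37 := he 3 7 (by omega) (by omega)
    have a47 := he 4 7 (by omega) (by omega)
    by_cases hi2 : i < 2
    · have hi01 : i = 0 ∨ i = 1 := by omega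
      by_cases hj2 : j < 2
      · simp only [hi2, hj2, if_true]; exact he i j hij hj
      by_cases hj6 : j < 6
      · simp only [hi2, hj2, hj6, if_true, if_false]
        obtain ⟨α, β, hα, hβ, hk⟩ := key (x j) (hx67 j (by omega) hj6).1 (hx67 j (by omega) hj6).2
        rw [hk, det2_add_right, det2_smul_right, det2_smul_right]
        rcases hi01 with rfl | rfl <;> nlinarith [mul_pos hα a02, mul_pos hβ a03,
          mul_pos hα a12, mul_pos hβ a13]
      by_cases hj7 : j = 6
      · subst hj7
        simp only [hi2, hj2, hj6, if_true, if_false, det2_add_right]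
        rcases hi01 with rfl | rfl <;> nlinarith
      · simp only [hi2, hj2, hj6, hj7, if_true, if_false, det2_add_right, det2_neg_right]
        rcases hi01 with rfl | rfl
        · rw [det2_self]; nlinarith
        · rw [det2_swap (e 1) (e 0)]; nlinarith
    have hj2 : ¬ j < 2 := by omega
    by_cases hi6 : i < 6
    · obtain ⟨α, β, hα, hβ, hk⟩ := key (x i) (hx67 i (by omega) hi6).1 (hx67 i (by omega) hi6).2
      by_cases hj6 : j < 6
      · simp only [hi2, hj2, hi6, hj6, if_true, if_false, det2_smul_left, det2_smul_right, det2_act]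
        have := hxx i j (by omega) hij hj6
        rw [← mul_assoc s, hs, one_mul]; exact this
      by_cases hj7 : j = 6
      · subst hj7
        simp only [hi2, hj2, hi6, hj6, if_true, if_false, hk, det2_add_right, det2_add_left,
          det2_smul_left, det2_self]
        nlinarith [mul_pos hα a23, mul_pos hα a24, mul_pos hβ a34]
      · simp only [hi2, hj2, hi6, hj6, hj7, if_true, if_false, hk, det2_add_right, det2_add_left,
          det2_smul_left, det2_neg_right, det2_swap (e 2) (e 0), det2_swap (e 3) (e 0)]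
        nlinarith [mul_pos hα a27, mul_pos hα a02, mul_pos hβ a37, mul_pos hβ a03]
    · have hi : i = 6 := by omega
      have hj' : j = 7 := by omega
      subst hi hj'
      norm_num
      simp only [det2_add_right, det2_add_left, det2_neg_right, det2_swap (e 3) (e 0),
        det2_swap (e 4) (e 0)]
      nlinarith
  · norm_num [hx2, hx3, hx4, hx5, smul_smul, hs]
  · norm_num [hx2, hx3, hx4, hx5, smul_smul, hs, act_add, act_neg]
    abel
  · norm_num [hx2, hx3, hx4, hx5, smul_smul, act_mul, h3, act_smul, mul_assoc, hs]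
  · norm_num [hx2, hx3, hx4, hx5, smul_smul, act_mul, h4, act_smul, mul_assoc, hs, act_neg]

lemma Good.step' {A B : SL(2, ℝ)} (h : Good A B) : Good (B * A) B := h.swap.step.swap

lemma good_base : Good matA matB := by
  refine ⟨-1, fun i => match i with
    | 0 => (2, 1) | 1 => (4, 1) | 2 => (5, 1) | 3 => (7, 1) | 4 => (8, 1) | 5 => (10, 1)
    | 6 => (1, -1) | _ => (-1, -1), ?_, 1, -1, by norm_num, by norm_num, ?_, ?_, ?_, ?_⟩
  · intro i j hij hj
    have hi : i < 8 := by omega
    interval_cases i <;> interval_cases j <;> norm_num [det2]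
  all_goals (ext <;> norm_num [act, matA, matB])

end Pool.Agent.P992
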