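import Pool.Agent.P.MP_992ce1_gt.PP

/-! The number of linked pairs is bounded by the number of self-intersections. -/

open scoped MatrixGroups UpperHalfPlane

namespace Pool.Agent.P992

def sq (x : ℤ → Letter) (ε : Bool) : ℤ → Letter := if ε then x else rv x
def sg (ε : Bool) : ℤ := if ε then 1 else -1

lemma sg_mul_self (ε : Bool) : sg ε * sg ε = 1 := by cases ε <;> simp [sg]

lemma Cyc.sq {x : ℤ → Letter} {n : ℕ} (h : Cyc x n) (ε : Bool) : Cyc (sq x ε) n := by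
  cases ε
  · exact h.rv
  · exact h

lemma pre_sq (x : ℤ → Letter) (ε : Bool) (k : ℤ) : pre (sq x ε) k = pre x (sg ε * k) := by
  cases ε
  · simp [sq, sg, pre_rv]
  · simp [sq, sg]

lemma equiv_zpow {M : SL(2, ℝ)} {γ : ℝ → ℍ} (h : ∀ t, γ (t + 1) = M • γ t) (t : ℝ) (p : ℤ) :
    γ (t + p) = M ^ p • γ t := by
  induction p using Int.induction_on with
  | zero => simp
  | succ p ih =>
    rw [Int.cast_add, Int.cast_one, ← add_assoc, h, ih, smul_smul, ← zpow_one_add, add_comm]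
  | pred p ih =>
    have := h (t + ((-(p : ℤ) - 1 : ℤ) : ℝ))
    rw [show t + ((-(p : ℤ) - 1 : ℤ) : ℝ) + 1 = t + ((-(p : ℤ) : ℤ) : ℝ) by push_cast; ring, ih]
      at this
    rw [sub_eq_add_neg (-(p : ℤ)), add_comm (-(p : ℤ)), zpow_add, mul_smul, this]
    simp [sub_eq_add_neg, add_comm]

lemma Start.per {x y : ℤ → Letter} {n : ℕ} (hx : Cyc x n) (hy : Cyc y n) {i j : ℤ}
    (h : Start x i y j) (p q : ℤ) : Start x (i + p * n) y (j + q * n) := by
  unfold Start at *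
  rw [add_sub_right_comm, add_sub_right_comm, hx.per_mul, hy.per_mul, hy.per_mul]
  exact h

lemma linked_point {ρ : F →* SL(2, ℝ)} {σ : ℝ} {e : ℕ → V} (h : PP ρ σ e)
    {x : ℤ → Letter} {n : ℕ} (hx : Cyc x n) {γ : ℝ → ℍ} (hγ : Continuous γ)
    (eγ : ∀ t, γ (t + 1) = ρ (seg x 0 n) • γ t) {ε δ : Bool} {i j : ℤ}
    (hl : Linked (sq x ε) i (sq x δ) j) :
    ∃ s t : ℝ, s ∈ Set.Ico (0 : ℝ) 1 ∧ t ∈ Set.Ico (0 : ℝ) 1 ∧ s ≠ t ∧ ∃ p q : ℤ,
      γ s = ρ (pre (sq x ε) (i + p * n) * (pre (sq x δ) (j + q * n))⁻¹) • γ t := by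
  have eq : ∀ (ε : Bool) (t : ℝ), γ (sg ε * (t + 1)) = ρ (seg (sq x ε) 0 n) • γ (sg ε * t) := by
    intro ε t
    cases ε
    · simp only [sq, sg, Bool.false_eq_true, if_false, hx.seg_rv_zero, map_inv]
      rw [eq_inv_smul_iff, ← eγ]; congr 1; push_cast; ring
    · simp only [sq, sg, if_true]
      rw [← eγ]; congr 1; push_cast; ring
  obtain ⟨s, t, hst⟩ := hl.meet h (hx.sq ε) (hx.sq δ) (γ := fun t => γ (sg ε * t))
    (δ := fun t => γ (sg δ * t)) (by fun_prop) (by fun_prop) (eq ε) (eq δ)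
  have main : γ (Int.fract (sg ε * s)) =
      ρ (pre (sq x ε) (i + (-(sg ε * ⌊sg ε * s⌋)) * n) *
        (pre (sq x δ) (j + (-(sg δ * ⌊sg δ * t⌋)) * n))⁻¹) • γ (Int.fract (sg δ * t)) := by
    have a1 := equiv_zpow eγ (Int.fract (sg ε * s)) ⌊sg ε * s⌋
    have a2 := equiv_zpow eγ (Int.fract (sg δ * t)) ⌊sg δ * t⌋
    rw [Int.fract_add_floor] at a1 a2
    simp only [a1, a2] at hst
    have b : ∀ (ε : Bool) (i p : ℤ), pre (sq x ε) (i + (-(sg ε * p)) * n) =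
        seg x 0 n ^ (-p) * pre (sq x ε) i := by
      intro ε i p
      rw [pre_sq, pre_sq, ← hx.pre_per_mul]
      congr 1
      linear_combination (-p * n) * sg_mul_self ε
    rw [smul_eq_iff_eq_inv_smul] at hst
    rw [b, b, hst, smul_smul, smul_smul]
    simp only [map_mul, map_inv, map_zpow, zpow_neg, mul_inv_rev, inv_inv, mul_assoc]
  refine ⟨_, _, ⟨Int.fract_nonneg _, Int.fract_lt_one _⟩, ⟨Int.fract_nonneg _, Int.fract_lt_one _⟩,
    ?_, _, _, main⟩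
  intro hc
  rw [hc] at main
  have h1 := h.free main.symm
  rw [mul_inv_eq_one, pre_sq, pre_sq] at h1
  have h2 := pre_inj hx.red h1
  have h3 := (hl.start (hx.sq ε).red).per (hx.sq ε) (hx.sq δ) (-(sg ε * ⌊sg ε * s⌋))
    (-(sg δ * ⌊sg δ * t⌋))
  generalize i + (-(sg ε * ⌊sg ε * s⌋)) * n = i' at h2 h3
  generalize j + (-(sg δ * ⌊sg δ * t⌋)) * n = j' at h2 h3
  cases ε <;> cases δ <;> simp only [sg, sq, Bool.false_eq_true, if_false, if_true] at h2 h3
  · exact h3.1 (by rw [show i' = j' by omega])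
  · apply h3.2; rw [rv, inv_inv']; congr 1; omega
  · apply h3.2; rw [rv]; congr 2; omega
  · exact h3.1 (by rw [show i' = j' by omega])

open Classical in
theorem linked_card {ρ : F →* SL(2, ℝ)} {σ : ℝ} {e : ℕ → V} (h : PP ρ σ e)
    (hρ : ∀ g, ∃ g', ρ g = rho g') {x : ℤ → Letter} {n : ℕ} (hx : Cyc x n) {γ : ℝ → ℍ}
    (hγ : Continuous γ) (eγ : ∀ t, γ (t + 1) = ρ (seg x 0 n) • γ t) {K : ℕ}
    (hK : (dbl γ).encard ≤ K) (ε δ : Bool) :
    ((Finset.range n ×ˢ Finset.range n).filter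
      (fun p : ℕ × ℕ => Linked (sq x ε) p.1 (sq x δ) p.2)).card ≤ 2 * K := by
  set S := (Finset.range n ×ˢ Finset.range n).filter
      (fun p : ℕ × ℕ => Linked (sq x ε) p.1 (sq x δ) p.2) with hS
  have ex : ∀ p : ℕ × ℕ, ∃ st : ℝ × ℝ, p ∈ S → st.1 ∈ Set.Ico (0 : ℝ) 1 ∧ st.2 ∈ Set.Ico (0 : ℝ) 1 ∧
      st.1 ≠ st.2 ∧ ∃ a b : ℤ, γ st.1 = ρ (pre (sq x ε) (p.1 + a * n) *
        (pre (sq x δ) (p.2 + b * n))⁻¹) • γ st.2 := by
    intro p
    by_cases hp : p ∈ S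
    · obtain ⟨s, t, hst⟩ := linked_point h hx hγ eγ (Finset.mem_filter.mp hp).2
      exact ⟨(s, t), fun _ => hst⟩
    · exact ⟨0, fun h => absurd h hp⟩
  choose f hf using ex
  have hinj : Set.InjOn f S := by
    intro p hp p' hp' hpp
    obtain ⟨-, -, -, a, b, h1⟩ := hf p hp
    obtain ⟨-, -, -, a', b', h2⟩ := hf p' hp'
    rw [← hpp, h1, smul_eq_iff_eq_inv_smul, smul_smul, ← map_inv, ← map_mul] at h2
    have h3 := h.free h2.symm
    rw [inv_mul_eq_one] at h3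
    obtain ⟨hp1, hp2⟩ := Finset.mem_filter.mp hp
    obtain ⟨hp1', hp2'⟩ := Finset.mem_filter.mp hp'
    obtain ⟨e1, e2⟩ := start_unique (hx.sq ε).red (hx.sq δ).red
      ((hp2.start (hx.sq ε).red).per (hx.sq ε) (hx.sq δ) a b)
      ((hp2'.start (hx.sq ε).red).per (hx.sq ε) (hx.sq δ) a' b') h3
    simp only [Finset.mem_product, Finset.mem_range] at hp1 hp1'
    have aux : ∀ (u v : ℕ) (c d : ℤ), u < n → v < n → (u : ℤ) + c * n = v + d * n → u = v := by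
      intro u v c d hu hv huv
      have := congrArg (· % (n : ℤ)) huv
      simp only [Int.add_mul_emod_self_right] at this
      rw [Int.emod_eq_of_lt (by omega) (by omega), Int.emod_eq_of_lt (by omega) (by omega)] at this
      omega
    exact Prod.ext (aux _ _ _ _ hp1.1 hp1'.1 e1) (aux _ _ _ _ hp1.2 hp1'.2 e2)
  have hmaps : Set.MapsTo f S (dbl γ ∪ Prod.swap '' dbl γ) := by
    intro p hp
    obtain ⟨a1, a2, a3, a, b, h1⟩ := hf p hp
    obtain ⟨g', hg'⟩ := hρ (pre (sq x ε) (p.1 + a * n) * (pre (sq x δ) (p.2 + b * n))⁻¹)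
    rw [hg'] at h1
    rcases lt_or_gt_of_ne a3 with hl | hl
    · exact Or.inl ⟨a1.1, hl, a2.2, g', h1⟩
    · refine Or.inr ⟨(f p).swap, ⟨a2.1, hl, a1.2, g'⁻¹, ?_⟩, by simp⟩
      simp only [Prod.fst_swap, Prod.snd_swap, map_inv]
      rw [h1, inv_smul_smul]
  have h1 := Set.encard_le_encard_of_injOn hmaps hinj
  have h2 := (Set.encard_union_le _ _).trans (add_le_add hK ((Set.encard_image_le Prod.swap _).trans hK))
  have h3 := h1.trans h2
  rw [Set.encard_coe_eq_coe_finsetCard] at h3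
  have : (S.card : ℕ∞) ≤ ((2 * K : ℕ) : ℕ∞) := by
    rw [two_mul]; push_cast; exact h3
  exact_mod_cast this

end Pool.Agent.P992
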