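import Pool.Agent.P.MP_992ce1_gt.Seq
import Pool.Agent.P.MP_992ce1_gt.Geo

/-! A cyclic word of length `n` has a representative with at most `2 n ^ 2` self-intersections. -/

open scoped MatrixGroups UpperHalfPlane
open Complex Set

namespace Pool.Agent.P992

open FreeGroup hiding map_mul map_inv map_one

def cen : Letter → ℝ
  | (false, false) => 0
  | (true, false) => 3
  | (false, true) => 6
  | (true, true) => 9

def qd (z : Letter) (τ : ℍ) : ℝ := 1 - (normSq (τ : ℂ) - 2 * cen z * τ.re + cen z ^ 2)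

lemma qd_eq (z : Letter) (τ : ℍ) : qd z τ = 1 - normSq ((τ : ℂ) - cen z) := by
  simp [qd, normSq_apply]; ring

lemma sub_ne (τ : ℍ) (c : ℝ) : (τ : ℂ) - c ≠ 0 := by
  intro h
  have := congrArg Complex.im h
  simp at this
  exact τ.im_pos.ne' this

lemma rho_pos (i : Bool) (τ : ℍ) :
    ((rho (of i) • τ : ℍ) : ℂ) = cen (i, true) - 1 / ((τ : ℂ) - cen (i, false)) := by
  have h := sub_ne τ (cen (i, false))
  rw [coe_sl_smul]
  cases i
  · simp [rho, matA, jj, cen] at h ⊢; field_simp; ring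
  · simp [rho, matB, jj, cen] at h ⊢
    rw [← sub_eq_add_neg, ← sub_eq_add_neg]; field_simp; ring

lemma rho_el (z : Letter) (τ : ℍ) :
    ((rho (el z) • τ : ℍ) : ℂ) = cen z - 1 / ((τ : ℂ) - cen (inv z)) := by
  rcases z with ⟨i, _ | _⟩
  · have := rho_pos i (rho (el (i, false)) • τ)
    rw [el_false, map_inv, smul_inv_smul] at this
    have h1 := sub_ne ((rho (of i))⁻¹ • τ) (cen (i, false))
    have h2 := sub_ne τ (cen (i, true))
    rw [el_false, map_inv]
    simp only [inv, Bool.not_false]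
    rw [this]; field_simp; ring
  · exact rho_pos i τ

lemma qd_el (z : Letter) (τ : ℍ) :
    ∃ c : ℝ, 0 < c ∧ qd z (rho (el z) • τ) = -(c * qd (inv z) τ) := by
  have h := normSq_pos.mpr (sub_ne τ (cen (inv z)))
  refine ⟨(normSq ((τ : ℂ) - cen (inv z)))⁻¹, inv_pos.mpr h, ?_⟩
  rw [qd_eq, qd_eq, rho_el, sub_sub_cancel_left, normSq_neg, map_div₀, map_one]
  field_simp; ring

lemma qd_disj {z y : Letter} (h : z ≠ y) {τ : ℍ} (hz : 0 ≤ qd z τ) : qd y τ < 0 := by
  have := τ.im_pos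
  simp only [qd, normSq_apply, UpperHalfPlane.coe_re, UpperHalfPlane.coe_im] at *
  rcases z with ⟨_ | _, _ | _⟩ <;> rcases y with ⟨_ | _, _ | _⟩ <;>
    simp only [cen, ne_eq, not_true_eq_false] at h hz ⊢ <;>
    nlinarith [sq_nonneg (τ.re - 1), sq_nonneg (τ.re - 2), sq_nonneg (τ.re - 4),
      sq_nonneg (τ.re - 5), sq_nonneg (τ.re - 7), sq_nonneg (τ.re - 8), sq_nonneg τ.im]

lemma pp_plane {τ : ℍ} (hτ : ∀ z, qd z τ < 0) (z : Letter) (L : List Letter)
    (h : IsReduced (z :: L)) : 0 < qd z (rho (mk (z :: L)) • τ) := by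
  induction L generalizing z with
  | nil =>
    obtain ⟨c, hc, e⟩ := qd_el z τ
    change 0 < qd z (rho (el z) • τ)
    rw [e]; nlinarith [hτ (inv z)]
  | cons y L ih =>
    obtain ⟨b1, b2⟩ := isReduced_cons_cons.mp h
    rw [red_iff] at b1
    rw [mk_cons z, map_mul, mul_smul]
    obtain ⟨c, hc, e⟩ := qd_el z (rho (mk (y :: L)) • τ)
    rw [e]; nlinarith [qd_disj b1 (ih y b2).le]

lemma eq_one_of_int {τ τ' : ℍ} (hτ : ∀ z, qd z τ < 0) (hτ' : ∀ z, qd z τ' ≤ 0) {h : F}
    (e : τ' = rho h • τ) : h = 1 := by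
  rw [← toWord_eq_nil_iff]
  cases hw : h.toWord with
  | nil => rfl
  | cons z L =>
    have := pp_plane hτ z L (hw ▸ isReduced_toWord)
    rw [← hw, mk_toWord, ← e] at this
    linarith [hτ' z]

lemma uhp_ext {p q : ℍ} (h1 : p.re = q.re) (h2 : normSq (p : ℂ) = normSq (q : ℂ)) : p = q := by
  have a := p.im_pos
  have b := q.im_pos
  simp only [normSq_apply, UpperHalfPlane.coe_re, UpperHalfPlane.coe_im, h1] at h2
  have : p.im = q.im := by nlinarith
  exact UpperHalfPlane.ext (Complex.ext h1 this)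

lemma chord_pos (p q : ℍ) {s : ℝ} (h0 : 0 ≤ s) (h1 : s ≤ 1) :
    0 < (1 - s) * normSq (p : ℂ) + s * normSq (q : ℂ) - ((1 - s) * p.re + s * q.re) ^ 2 := by
  have a := p.im_pos
  have b := q.im_pos
  simp only [normSq_apply, UpperHalfPlane.coe_re, UpperHalfPlane.coe_im]
  have e : (1 - s) * (p.re * p.re + p.im * p.im) + s * (q.re * q.re + q.im * q.im) -
      ((1 - s) * p.re + s * q.re) ^ 2 =
      (1 - s) * (p.im * p.im) + s * (q.im * q.im) + s * (1 - s) * (p.re - q.re) ^ 2 := by ring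
  rw [e]
  have c1 : 0 ≤ s * (1 - s) * (p.re - q.re) ^ 2 :=
    mul_nonneg (mul_nonneg h0 (by linarith)) (sq_nonneg _)
  have c2 := mul_pos a a
  have c3 := mul_pos b b
  rcases h0.eq_or_lt with h | h
  · subst h; nlinarith
  · nlinarith [mul_pos h c3, mul_nonneg (sub_nonneg.mpr h1) c2.le]

noncomputable def chord0 (p q : ℍ) (s : Icc (0 : ℝ) 1) : ℍ :=
  ⟨⟨(1 - s) * p.re + s * q.re,
    √((1 - s) * normSq (p : ℂ) + s * normSq (q : ℂ) - ((1 - s) * p.re + s * q.re) ^ 2)⟩,
    Real.sqrt_pos.mpr (chord_pos p q s.2.1 s.2.2)⟩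

noncomputable def chord (p q : ℍ) (t : ℝ) : ℍ := chord0 p q (projIcc 0 1 zero_le_one t)

lemma chord_cont (p q : ℍ) : Continuous (chord p q) := by
  refine Continuous.comp (g := chord0 p q) ?_ continuous_projIcc
  rw [UpperHalfPlane.isEmbedding_coe.continuous_iff]
  have : ((↑) : ℍ → ℂ) ∘ chord0 p q = fun s : Icc (0 : ℝ) 1 =>
      (((1 - s) * p.re + s * q.re : ℝ) : ℂ) + ((√((1 - s) * normSq (p : ℂ) + s * normSq (q : ℂ) -
        ((1 - s) * p.re + s * q.re) ^ 2) : ℝ) : ℂ) * I := by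
    ext1 s
    exact Complex.mk_eq_add_mul_I _ _
  rw [this]
  fun_prop

lemma chord_re (p q : ℍ) {t : ℝ} (h0 : 0 ≤ t) (h1 : t ≤ 1) :
    (chord p q t).re = (1 - t) * p.re + t * q.re := by
  rw [chord, projIcc_of_mem _ ⟨h0, h1⟩]; rfl

lemma chord_sq (p q : ℍ) {t : ℝ} (h0 : 0 ≤ t) (h1 : t ≤ 1) :
    normSq (chord p q t : ℂ) = (1 - t) * normSq (p : ℂ) + t * normSq (q : ℂ) := by
  rw [chord, projIcc_of_mem _ ⟨h0, h1⟩]
  simp only [chord0, normSq_mk]
  rw [Real.mul_self_sqrt (chord_pos p q h0 h1).le]; ring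

lemma chord_qd (p q : ℍ) {t : ℝ} (h0 : 0 ≤ t) (h1 : t ≤ 1) (z : Letter) :
    qd z (chord p q t) = (1 - t) * qd z p + t * qd z q := by
  simp only [qd, chord_re p q h0 h1, chord_sq p q h0 h1]; ring

lemma chord_zero (p q : ℍ) : chord p q 0 = p :=
  uhp_ext (by simp [chord_re]) (by simp [chord_sq])

lemma chord_one (p q : ℍ) : chord p q 1 = q :=
  uhp_ext (by simp [chord_re]) (by simp [chord_sq])

noncomputable def side (z : Letter) (θ : Ico (0 : ℝ) 1) : ℍ :=
  ⟨⟨cen z + (if z.2 then (θ : ℝ) else -(θ : ℝ)), √(1 - θ ^ 2)⟩,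
    Real.sqrt_pos.mpr (by nlinarith [θ.2.1, θ.2.2])⟩

lemma side_sq (z : Letter) (θ : Ico (0 : ℝ) 1) : normSq ((side z θ : ℂ) - cen z) = 1 := by
  have : (0 : ℝ) ≤ 1 - θ ^ 2 := by nlinarith [θ.2.1, θ.2.2]
  simp only [side, normSq_apply, sub_re, ofReal_re, sub_im, ofReal_im, sub_zero,
    Real.mul_self_sqrt this]
  split_ifs <;> ring

lemma side_qd (z : Letter) (θ : Ico (0 : ℝ) 1) : qd z (side z θ) = 0 := by
  rw [qd_eq, side_sq, sub_self]

lemma side_qd_lt {z y : Letter} (h : z ≠ y) (θ : Ico (0 : ℝ) 1) : qd y (side z θ) < 0 :=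
  qd_disj h (side_qd z θ).ge

lemma side_qd_le (z y : Letter) (θ : Ico (0 : ℝ) 1) : qd y (side z θ) ≤ 0 := by
  by_cases h : z = y
  · rw [h, side_qd]
  · exact (side_qd_lt h θ).le

lemma side_inj {z y : Letter} {θ θ' : Ico (0 : ℝ) 1} (h : side z θ = side y θ') :
    z = y ∧ θ = θ' := by
  have : z = y := by
    by_contra hc
    have := side_qd_lt hc θ
    rw [h, side_qd] at this
    exact lt_irrefl _ this
  subst this
  refine ⟨rfl, Subtype.ext ?_⟩
  have := congrArg (fun τ : ℍ => (τ : ℂ).re) h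
  simp only [side] at this
  split_ifs at this <;> linarith

lemma side_map (z : Letter) (θ : Ico (0 : ℝ) 1) : rho (el z) • side (inv z) θ = side z θ := by
  apply UpperHalfPlane.ext
  have h := side_sq (inv z) θ
  rw [rho_el, one_div, Complex.inv_def, h]
  apply Complex.ext
  · rcases z with ⟨_, _ | _⟩ <;> simp [side, inv, sub_eq_add_neg]
  · simp [side]

lemma glue {X : Type*} [TopologicalSpace X] {f : ℤ → ℝ → X} (hf : ∀ k, Continuous (f k))
    (h : ∀ k, f k 1 = f (k + 1) 0) : Continuous fun t : ℝ => f ⌊t⌋ (Int.fract t) := by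
  have lf : LocallyFinite fun k : ℤ => Icc (k : ℝ) (k + 1) := by
    intro t
    refine ⟨Ioo (t - 1) (t + 1), Ioo_mem_nhds (by linarith) (by linarith), ?_⟩
    refine (Set.finite_Icc (⌊t⌋ - 2) (⌊t⌋ + 2)).subset ?_
    rintro k ⟨s, ⟨h1, h2⟩, h3, h4⟩
    have a1 := Int.floor_le t
    have a2 := Int.lt_floor_add_one t
    constructor
    · have : ((⌊t⌋ - 2 : ℤ) : ℝ) ≤ k := by push_cast; linarith
      exact_mod_cast this
    · have : (k : ℝ) ≤ ((⌊t⌋ + 2 : ℤ) : ℝ) := by push_cast; linarith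
      exact_mod_cast this
  refine lf.continuous ?_ (fun k => isClosed_Icc) fun k => ?_
  · rw [eq_univ_iff_forall]
    intro t
    exact mem_iUnion.mpr ⟨⌊t⌋, Int.floor_le t, (Int.lt_floor_add_one t).le⟩
  · refine ContinuousOn.congr (f := fun t => f k (t - k))
      ((hf k).comp (continuous_id.sub continuous_const)).continuousOn fun t ht => ?_
    rcases ht.2.eq_or_lt with e | e
    · subst e
      have : ((k : ℝ) + 1) = ((k + 1 : ℤ) : ℝ) := by push_cast; ring
      simp only [add_sub_cancel_left, h]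
      rw [this, Int.floor_intCast, Int.fract_intCast]
    · have : ⌊t⌋ = k := Int.floor_eq_iff.mpr ⟨ht.1, e⟩
      simp only [Int.fract, this]

section
variable {x : ℤ → Letter} {n : ℕ} (hx : Cyc x n)
include hx

noncomputable def lab (hx : Cyc x n) (k : ℤ) : Ico (0 : ℝ) 1 :=
  ⟨((k % n : ℤ) : ℝ) / n, by
    have hn : (0 : ℤ) < n := by exact_mod_cast hx.pos
    have hn' : (0 : ℝ) < n := by exact_mod_cast hx.pos
    have h1 : (0 : ℝ) ≤ ((k % n : ℤ) : ℝ) := by exact_mod_cast Int.emod_nonneg k hn.ne'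
    have h2 : ((k % n : ℤ) : ℝ) < n := by exact_mod_cast Int.emod_lt_of_pos k hn
    exact ⟨by positivity, (div_lt_one hn').mpr h2⟩⟩

lemma lab_inj {k l : ℤ} (h : lab hx k = lab hx l) : k % n = l % n := by
  have hn' : (n : ℝ) ≠ 0 := by exact_mod_cast hx.pos.ne'
  have := congrArg Subtype.val h
  simp only [lab] at this
  exact_mod_cast (div_left_inj' hn').mp this

noncomputable def ch (hx : Cyc x n) (k : ℤ) : ℝ → ℍ :=
  chord (side (inv (x (k - 1))) (lab hx (k - 1))) (side (x k) (lab hx k))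

lemma ch_ne (k : ℤ) : inv (x (k - 1)) ≠ x k := by
  have := hx.red (k - 1)
  rw [sub_add_cancel] at this
  exact this.symm

lemma ch_le (k : ℤ) {t : ℝ} (h0 : 0 ≤ t) (h1 : t ≤ 1) (z : Letter) : qd z (ch hx k t) ≤ 0 := by
  rw [ch, chord_qd _ _ h0 h1]
  nlinarith [side_qd_le (inv (x (k - 1))) z (lab hx (k - 1)), side_qd_le (x k) z (lab hx k)]

lemma ch_lt (k : ℤ) {t : ℝ} (h0 : 0 < t) (h1 : t < 1) (z : Letter) : qd z (ch hx k t) < 0 := by
  rw [ch, chord_qd _ _ h0.le h1.le]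
  have a1 := side_qd_le (inv (x (k - 1))) z (lab hx (k - 1))
  have a2 := side_qd_le (x k) z (lab hx k)
  by_cases h : x k = z
  · have := side_qd_lt (h ▸ ch_ne hx k) (lab hx (k - 1))
    nlinarith
  · have := side_qd_lt h (lab hx k)
    nlinarith

lemma ch_inj (k : ℤ) {s t : ℝ} (s0 : 0 ≤ s) (s1 : s ≤ 1) (t0 : 0 ≤ t) (t1 : t ≤ 1)
    (h : ch hx k s = ch hx k t) : s = t := by
  have := congrArg (qd (x k)) h
  rw [ch, chord_qd _ _ s0 s1, chord_qd _ _ t0 t1, side_qd] at this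
  have a := side_qd_lt (ch_ne hx k) (lab hx (k - 1))
  nlinarith

lemma ch_uniq {i j : ℤ} (hij : i % n ≠ j % n) {s t s' t' : ℝ} (s0 : 0 ≤ s) (s1 : s ≤ 1)
    (t0 : 0 ≤ t) (t1 : t ≤ 1) (s0' : 0 ≤ s') (s1' : s' ≤ 1) (t0' : 0 ≤ t') (t1' : t' ≤ 1)
    (h : ch hx i s = ch hx j t) (h' : ch hx i s' = ch hx j t') : s = s' := by
  by_contra hne
  have hd : s' - s ≠ 0 := sub_ne_zero.mpr (Ne.symm hne)
  have r1 := congrArg UpperHalfPlane.re h
  have r2 := congrArg UpperHalfPlane.re h'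
  have n1 := congrArg (fun τ : ℍ => normSq (τ : ℂ)) h
  have n2 := congrArg (fun τ : ℍ => normSq (τ : ℂ)) h'
  simp only [ch, chord_re _ _ s0 s1, chord_re _ _ t0 t1, chord_re _ _ s0' s1', chord_re _ _ t0' t1',
    chord_sq _ _ s0 s1, chord_sq _ _ t0 t1, chord_sq _ _ s0' s1', chord_sq _ _ t0' t1']
    at r1 r2 n1 n2
  set p0 := side (inv (x (i - 1))) (lab hx (i - 1))
  set p1 := side (x i) (lab hx i) with hp1
  set q0 := side (inv (x (j - 1))) (lab hx (j - 1)) with hq0
  set q1 := side (x j) (lab hx j) with hq1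
  set u := t + (1 - s) * (t' - t) / (s' - s) with hu
  have e1 : p1.re = (1 - u) * q0.re + u * q1.re := by
    rw [hu]; field_simp
    linear_combination (s' - 1) * r1 + (1 - s) * r2
  have e2 : normSq (p1 : ℂ) = (1 - u) * normSq (q0 : ℂ) + u * normSq (q1 : ℂ) := by
    rw [hu]; field_simp
    linear_combination (s' - 1) * n1 + (1 - s) * n2
  have e3 : ∀ z, qd z p1 = (1 - u) * qd z q0 + u * qd z q1 := by
    intro z; simp only [qd, e1, e2]; ring
  have a1 := e3 (x j)
  have a2 := e3 (inv (x (j - 1)))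
  have a3 := e3 (x i)
  have b1 : qd (x j) q0 < 0 := side_qd_lt (ch_ne hx j) _
  have b2 : qd (inv (x (j - 1))) q1 < 0 := side_qd_lt (ch_ne hx j).symm _
  have b3 : qd (x j) p1 ≤ 0 := side_qd_le _ _ _
  have b4 : qd (inv (x (j - 1))) p1 ≤ 0 := side_qd_le _ _ _
  have b5 : qd (x i) q0 ≤ 0 := side_qd_le _ _ _
  have b6 : qd (x i) q1 ≤ 0 := side_qd_le _ _ _
  rw [show qd (x j) q1 = 0 from side_qd _ _] at a1
  rw [show qd (inv (x (j - 1))) q0 = 0 from side_qd _ _] at a2
  rw [show qd (x i) p1 = 0 from side_qd _ _] at a3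
  have u1 : u ≤ 1 := by nlinarith
  have u0 : 0 ≤ u := by nlinarith
  rcases u0.eq_or_lt with c0 | c0
  · have := side_inj (uhp_ext (p := p1) (q := q0) (by rw [e1, ← c0]; ring) (by rw [e2, ← c0]; ring))
    have c := lab_inj hx this.2
    have d : x (j - 1) = x i := by
      rw [← hx.per_mul (j - 1) (-((j - 1) / n)), ← hx.per_mul i (-(i / n))]
      congr 1
      rw [Int.emod_def, Int.emod_def] at c
      linarith
    exact inv_ne (x (j - 1)) (by rw [← this.1, d])
  rcases u1.eq_or_lt with c1 | c1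
  · have := side_inj (uhp_ext (p := p1) (q := q1) (by rw [e1, c1]; ring) (by rw [e2, c1]; ring))
    exact hij (lab_inj hx this.2)
  by_cases h : x j = x i
  · rw [← h] at a3 b6; nlinarith
  · have : qd (x i) q1 < 0 := side_qd_lt h _
    nlinarith

theorem SI_le : SI (seg x 0 n) ≤ (2 * n * n : ℕ) := by
  classical
  have hn' : (0 : ℝ) < n := by exact_mod_cast hx.pos
  set γ : ℝ → ℍ := fun t => rho (pre x ⌊n * t⌋) • ch hx ⌊n * t⌋ (Int.fract (n * t)) with hγ
  have hrep : IsRep (seg x 0 n) γ := by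
    constructor
    · refine (glue (f := fun k s => rho (pre x k) • ch hx k s)
        (fun k => (chord_cont _ _).const_smul _) fun k => ?_).comp (continuous_const.mul continuous_id)
      simp only [ch, chord_zero, chord_one, add_sub_cancel_right, pre_succ, map_mul, mul_smul,
        side_map]
    · intro t
      have e : ∀ k : ℤ, ch hx (k + n) = ch hx k := by
        intro k
        have l : ∀ k : ℤ, lab hx (k + n) = lab hx k := fun k => Subtype.ext (by simp [lab])
        simp only [ch, add_sub_right_comm, hx.per, l]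
      simp only [hγ, mul_add, mul_one, Int.floor_add_natCast, Int.fract_add_natCast, hx.pre_per,
        map_mul, mul_smul, e]
  refine (iInf_le _ ⟨γ, hrep⟩).trans ?_
  set S : Finset (ℤ × ℤ × Bool) := Finset.Ico (0 : ℤ) n ×ˢ Finset.Ico (0 : ℤ) n ×ˢ Finset.univ
  have hfl : ∀ s : ℝ, 0 ≤ s → s < 1 → 0 ≤ ⌊n * s⌋ ∧ ⌊n * s⌋ < n := by
    intro s h0 h1
    exact ⟨Int.floor_nonneg.mpr (by positivity), Int.floor_lt.mpr (by push_cast; nlinarith)⟩
  have hrec : ∀ s s' : ℝ, ⌊n * s⌋ = ⌊n * s'⌋ → Int.fract (n * s) = Int.fract (n * s') → s = s' := by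
    intro s s' h1 h2
    have := Int.floor_add_fract (n * s)
    rw [h1, h2, Int.floor_add_fract] at this
    exact (mul_left_cancel₀ hn'.ne' this).symm
  have hch : ∀ p ∈ dbl γ, ¬ (Int.fract (n * p.1) = 0 ∧ Int.fract (n * p.2) = 0) →
      ch hx ⌊n * p.1⌋ (Int.fract (n * p.1)) = ch hx ⌊n * p.2⌋ (Int.fract (n * p.2)) := by
    rintro p ⟨-, -, -, h, e⟩ hp
    simp only [hγ] at e
    rw [smul_eq_iff_eq_inv_smul, smul_smul, smul_smul, ← map_inv, ← map_mul, ← map_mul] at e
    have f1 := Int.fract_nonneg (n * p.1)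
    have f2 := Int.fract_nonneg (n * p.2)
    have f3 := Int.fract_lt_one (n * p.1)
    have f4 := Int.fract_lt_one (n * p.2)
    by_cases h2 : Int.fract (n * p.2) = 0
    · have h1 : Int.fract (n * p.1) ≠ 0 := fun h => hp ⟨h, h2⟩
      rw [← inv_smul_eq_iff, ← map_inv] at e
      have := eq_one_of_int (ch_lt hx _ (lt_of_le_of_ne f1 h1.symm) f3) (ch_le hx _ f2 f4.le) e.symm
      rw [this, map_one, one_smul] at e
      exact e
    · have := eq_one_of_int (ch_lt hx _ (lt_of_le_of_ne f2 (Ne.symm h2)) f4) (ch_le hx _ f1 f3.le) e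
      rw [this, map_one, one_smul] at e
      exact e
  have h1 := Set.encard_le_encard_of_injOn (s := dbl γ) (t := (S : Set (ℤ × ℤ × Bool)))
    (f := fun p => (⌊n * p.1⌋, ⌊n * p.2⌋,
      decide (Int.fract (n * p.1) = 0 ∧ Int.fract (n * p.2) = 0)))
    (by
      rintro p ⟨a1, a2, a3, -⟩
      simp only [S, Finset.coe_product, Finset.coe_Ico, mem_prod, mem_Ico, Finset.coe_univ,
        mem_univ, and_true]
      exact ⟨hfl _ a1 (by linarith), hfl _ (by linarith) a3⟩)
    (by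
      intro p hp p' hp' e
      simp only [Prod.mk.injEq, decide_eq_decide] at e
      obtain ⟨e1, e2, e3⟩ := e
      by_cases hz : Int.fract (n * p.1) = 0 ∧ Int.fract (n * p.2) = 0
      · have hz' := e3.mp hz
        exact Prod.ext (hrec _ _ e1 (by rw [hz.1, hz'.1])) (hrec _ _ e2 (by rw [hz.2, hz'.2]))
      · have c1 := hch p hp hz
        have c2 := hch p' hp' (fun h => hz (e3.mpr h))
        rw [← e1, ← e2] at c2
        obtain ⟨a1, a2, a3, -⟩ := hp
        have hij : ⌊n * p.1⌋ % n ≠ ⌊n * p.2⌋ % n := by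
          have b1 := hfl _ a1 (by linarith)
          have b2 := hfl p.2 (by linarith) a3
          rw [Int.emod_eq_of_lt b1.1 b1.2, Int.emod_eq_of_lt b2.1 b2.2]
          intro h
          rw [← h] at c1
          exact a2.ne (hrec _ _ h (ch_inj hx _ (Int.fract_nonneg _) (Int.fract_lt_one _).le
            (Int.fract_nonneg _) (Int.fract_lt_one _).le c1))
        refine Prod.ext (hrec _ _ e1 ?_) (hrec _ _ e2 ?_)
        · exact ch_uniq hx hij (Int.fract_nonneg _) (Int.fract_lt_one _).le (Int.fract_nonneg _)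
            (Int.fract_lt_one _).le (Int.fract_nonneg _) (Int.fract_lt_one _).le
            (Int.fract_nonneg _) (Int.fract_lt_one _).le c1 c2
        · exact ch_uniq hx hij.symm (Int.fract_nonneg _) (Int.fract_lt_one _).le
            (Int.fract_nonneg _) (Int.fract_lt_one _).le (Int.fract_nonneg _)
            (Int.fract_lt_one _).le (Int.fract_nonneg _) (Int.fract_lt_one _).le c1.symm c2.symm)
  refine h1.trans (le_of_eq ?_)
  rw [Set.encard_coe_eq_coe_finsetCard]
  simp [S]; ring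

end

end Pool.Agent.P992
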