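import Pool.Agent.P.MP_992ce1_gt.MinLen
import Pool.Agent.P.MP_992ce1_gt.Upper

/-! Many orbits, few exceptional orbits, and the final contradiction. -/

namespace Pool.Agent.P992

open FreeGroup hiding map_mul map_inv map_one
open Filter Topology

lemma sc_red {w : List Letter} (hw : SC true w) : IsReduced w := by
  refine List.Pairwise.isChain (List.pairwise_of_forall_mem_list ?_)
  intro x hx y hy _
  rw [hw x hx, hw y hy]

lemma rot_of_conj {M : List Letter} (hM : SC true M) (G : List Letter) (hG : IsReduced G)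
    (L : List Letter) (hL : SC true L) (h0 : L ≠ []) (h : mk G * mk L * (mk G)⁻¹ = mk M) :
    L ~r M := by
  induction G using List.reverseRecOn generalizing L with
  | nil =>
    rw [mk_nil, one_mul, inv_one, mul_one] at h
    have := congrArg toWord h
    rw [toWord_of_red (sc_red hL), toWord_of_red (sc_red hM)] at this
    rw [this]
  | append_singleton G z ih =>
    have hG' : IsReduced G := red_mid hG ⟨[], [z], by simp⟩
    by_cases c1 : L.head? = some (inv z)
    · obtain ⟨y, L', rfl⟩ := List.exists_cons_of_ne_nil h0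
      simp only [List.head?_cons, Option.some.injEq] at c1
      subst c1
      refine (List.isRotated_concat _ _).symm.trans (ih hG' (L' ++ [inv z])
        (fun u hu => hL u (by simp at hu ⊢; tauto)) (by simp) ?_)
      rw [← h, mk_append, mk_append, mk_cons (inv z) L']
      change _ * (_ * el (inv z)) * _ = _ * el z * _ * (_ * el z)⁻¹
      rw [el_inv]; group
    by_cases c2 : L.getLast? = some z
    · obtain ⟨L', rfl⟩ : ∃ L', L = L' ++ [z] := List.getLast?_eq_some_iff.mp c2
      refine (List.isRotated_concat _ _).trans (ih hG' (z :: L')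
        (fun u hu => hL u (by simp at hu ⊢; tauto)) (by simp) ?_)
      rw [← h, mk_append, mk_append, mk_cons z L']
      change _ = _ * el z * (_ * el z) * (_ * el z)⁻¹
      group
    exfalso
    have hr : IsReduced ((G ++ [z]) ++ L ++ invRev (G ++ [z])) := by
      refine List.isChain_append.mpr ⟨List.isChain_append.mpr ⟨hG, sc_red hL, ?_⟩, red_invRev hG, ?_⟩
      · intro p hp q hq
        simp only [List.getLast?_concat, Option.mem_def, Option.some.injEq] at hp hq
        subst hp
        rw [red_iff]
        rintro rfl; exact c1 hq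
      · intro p hp q hq
        rw [List.getLast?_append_of_ne_nil _ h0] at hp
        simp only [invRev, List.map_append, List.map_cons, List.map_nil, List.reverse_append,
          List.reverse_cons, List.reverse_nil, List.nil_append, List.cons_append, List.head?_cons,
          Option.mem_def, Option.some.injEq] at hp hq
        subst hq
        rw [red_iff]
        intro hc
        have : z = p := inv_injective hc
        exact c2 (this ▸ hp)
    rw [inv_mk, ← mk_append, ← mk_append] at h
    have := congrArg toWord h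
    rw [toWord_of_red hr, toWord_of_red (sc_red hM)] at this
    have a1 := hM z (by rw [← this]; simp)
    have a2 := hM (inv z) (by rw [← this]; simp [invRev, inv])
    simp [a1] at a2

def blk (e : Bool) : List Letter := [(e, true), (!e, true)]

def WW (e : List Bool) : List Letter := (false, true) :: e.flatMap blk

lemma WW_inj {e e' : List Bool} (h : WW e = WW e') : e = e' := by
  simp only [WW, List.cons.injEq, true_and] at h
  induction e generalizing e' with
  | nil => cases e' <;> simp_all [blk]
  | cons x e ih =>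
    cases e' with
    | nil => simp [blk] at h
    | cons y e' =>
      simp only [blk, List.flatMap_cons, List.cons_append, List.nil_append, List.cons.injEq,
        Prod.mk.injEq, and_true] at h
      rw [h.1, ih h.2.2]

lemma WW_sc (e : List Bool) : SC true (WW e) := by
  intro z hz
  simp only [WW, blk, List.mem_cons, List.mem_flatMap, List.not_mem_nil, or_false] at hz
  rcases hz with rfl | ⟨_, _, rfl | rfl⟩ <;> rfl

lemma WW_cn (e : List Bool) : cn false (WW e) = e.length + 1 ∧ cn true (WW e) = e.length := by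
  have : ∀ j, cn j (e.flatMap blk) = e.length := by
    intro j
    induction e with
    | nil => rfl
    | cons x e ih =>
      rw [List.flatMap_cons, cn_append, ih]
      cases j <;> cases x <;> simp [cn, blk, add_comm]
  rw [WW, ← List.singleton_append, cn_append, cn_append, this, this]
  simp [cn, add_comm]

lemma WW_len (e : List Bool) : (WW e).length = 2 * e.length + 1 := by
  have := cn_add false (WW e)
  have := WW_cn e
  simp only [Bool.not_false] at *
  omega

def ex (j : Bool) : F →* Multiplicative ℤ :=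
  FreeGroup.lift fun i => if i = j then Multiplicative.ofAdd 1 else 1

lemma ex_pos (j : Bool) {L : List Letter} (h : SC true L) :
    ex j (mk L) = Multiplicative.ofAdd (cn j L : ℤ) := by
  induction L with
  | nil => simp [mk_nil, cn]
  | cons z L ih =>
    rw [mk_cons, map_mul, ih fun u hu => h u (by simp [hu])]
    have := h z (by simp)
    rcases z with ⟨i, s⟩
    simp only at this
    subst this
    by_cases hi : i = j <;> simp [el_true, ex, cn, hi, ← ofAdd_add, add_comm]

lemma ex_conj (j : Bool) {g h : F} (hc : IsConj g h) : ex j g = ex j h :=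
  isConj_iff_eq.mp ((ex j).map_isConj hc)

lemma WW_nonPower (e : List Bool) : NonPower (mk (WW e)) := by
  intro h k hk he
  have a1 := congrArg (fun g => Multiplicative.toAdd (ex false g)) he
  have a2 := congrArg (fun g => Multiplicative.toAdd (ex true g)) he
  simp only [map_pow, toAdd_pow, ex_pos _ (WW_sc e), (WW_cn e).1, (WW_cn e).2, toAdd_ofAdd,
    nsmul_eq_mul] at a1 a2
  have : (k : ℤ) ∣ 1 := ⟨Multiplicative.toAdd (ex false h) - Multiplicative.toAdd (ex true h), by
    rw [mul_sub, a1, a2]; push_cast; ring⟩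
  have := Int.le_of_dvd one_pos this
  omega

lemma WW_orb (e : List Bool) : orb (mk (WW e)) ≠ orb (a * b * a⁻¹ * b⁻¹) := by
  intro h
  have : cls (mk (WW e)) ∈ orb (a * b * a⁻¹ * b⁻¹) := h ▸ ⟨1, rfl⟩
  obtain ⟨φ, hφ⟩ := this
  have h1 := self_mem_cls (mk (WW e))
  rw [hφ] at h1
  have h2 : ex false (φ (a * b * a⁻¹ * b⁻¹)) = 1 := by simp
  have h3 : ex false (mk (WW e)) = 1 := by
    rcases h1 with h1 | h1 <;> rw [← ex_conj false h1]
    · exact h2
    · rw [map_inv, h2, inv_one]
  rw [ex_pos _ (WW_sc e), (WW_cn e).1, ofAdd_eq_one] at h3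
  omega

lemma WW_rot {e e' : List Bool} (h : cls (mk (WW e)) = cls (mk (WW e'))) : WW e ~r WW e' := by
  have h1 := self_mem_cls (mk (WW e'))
  rw [← h] at h1
  rcases h1 with h1 | h1
  · obtain ⟨c, hc⟩ := isConj_iff.mp h1
    exact rot_of_conj (WW_sc e') c.toWord isReduced_toWord _ (WW_sc e) (by simp [WW])
      (by rw [mk_toWord, hc])
  · have := congrArg Multiplicative.toAdd (ex_conj false h1)
    rw [map_inv, ex_pos _ (WW_sc e), ex_pos _ (WW_sc e'), (WW_cn e).1, (WW_cn e').1] at this
    simp only [toAdd_inv, toAdd_ofAdd] at this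
    omega

lemma WW_SI (e : List Bool) : ∃ k ≤ 2 * (2 * e.length + 1) * (2 * e.length + 1),
    SI (mk (WW e)) = k := by
  obtain ⟨x, hx, hw⟩ := exists_cyc (w := WW e) (cyc_of_double (sc_red (by
    intro z hz
    rcases List.mem_append.mp hz with hz | hz <;> exact WW_sc e z hz))) (by simp [WW])
  have := SI_le hx
  rw [seg, hw, WW_len] at this
  obtain ⟨k, hk⟩ := ENat.ne_top_iff_exists.mp (ne_top_of_le_ne_top (ENat.natCast_ne_top _) this)
  rw [← hk] at this
  exact ⟨k, by exact_mod_cast this, hk.symm⟩

lemma Le.biUnion_sum {X ι : Type*} (s : Finset ι) {S : ι → Set X} {r : ι → ℝ}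
    (h : ∀ i ∈ s, Le (S i) (r i)) : Le (⋃ i ∈ s, S i) (∑ i ∈ s, r i) := by
  classical
  induction s using Finset.induction_on with
  | empty => exact ⟨by simp, by simp⟩
  | insert i s hi ih =>
    rw [Finset.set_biUnion_insert, Finset.sum_insert hi]
    exact (h i (by simp)).union (ih fun j hj => h j (by simp [hj]))

lemma sur_count (n s : ℕ) : Le {w : List Letter | w.length = n ∧ sur w ≤ s} (16 * (4 * n + 1) ^ s) := by
  have one : ∀ n s : ℕ, (1 : ℝ) ≤ (4 * n + 1) ^ s := fun n s =>
    one_le_pow₀ (by have : (0 : ℝ) ≤ n := by positivity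
                    linarith)
  have small : ∀ n ≤ 2, ∀ s : ℕ, Le {w : List Letter | w.length = n ∧ sur w ≤ s}
      (16 * (4 * n + 1) ^ s) := by
    intro n hn s
    have u : Le (Set.univ : Set (Letter × Letter)) 16 := ⟨Set.finite_univ, by simp⟩
    refine ((u.image fun p => [p.1, p.2].take n).mono ?_).weaken (by linarith [one n s])
    rintro w ⟨hw, -⟩
    match w, hw with
    | [], hw => exact ⟨default, trivial, by simp [← hw]⟩
    | [x], hw => exact ⟨(x, x), trivial, by simp [← hw]⟩
    | [x, y], hw => exact ⟨(x, y), trivial, by simp [← hw]⟩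
    | _ :: _ :: _ :: _, hw => simp at hw; omega
  induction n generalizing s with
  | zero => exact small 0 (by omega) s
  | succ n ih =>
    by_cases hn : n + 1 ≤ 2
    · exact small _ hn s
    have A := (ih s).image fun w => inv (w.getD 1 default) :: w
    cases s with
    | zero =>
      refine (A.mono ?_).weaken (by simp)
      rintro w ⟨hw, hs⟩
      match w, hw with
      | x :: y :: z :: r, hw =>
        rw [sur] at hs
        refine ⟨y :: z :: r, ⟨by simpa using hw, by omega⟩, ?_⟩
        have : z = inv x := by by_contra hc; simp [hc] at hs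
        simp [this]
      | [], hw => simp at hw
      | [_], hw => simp at hw; omega
      | [_, _], hw => simp at hw; omega
    | succ s =>
      have B := Le.biUnion (Finset.univ : Finset Letter)
        (S := fun x => (fun w => x :: w) '' {w : List Letter | w.length = n ∧ sur w ≤ s})
        (fun x _ => (ih s).image _)
      refine ((A.union B).mono ?_).weaken ?_
      · rintro w ⟨hw, hs⟩
        match w, hw with
        | x :: y :: z :: r, hw =>
          rw [sur] at hs
          by_cases hz : z = inv x
          · exact Or.inl ⟨y :: z :: r, ⟨by simpa using hw, by omega⟩, by simp [hz]⟩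
          · rw [if_neg hz] at hs
            refine Or.inr (Set.mem_iUnion₂.mpr ⟨x, Finset.mem_univ _, y :: z :: r,
              ⟨by simpa using hw, by omega⟩, rfl⟩)
        | [], hw => simp at hw
        | [_], hw => simp at hw; omega
        | [_, _], hw => simp at hw; omega
      · have h0 : (0 : ℝ) ≤ n := by positivity
        have : ((4 : ℝ) * n + 1) ^ s ≤ (4 * (n + 1) + 1) ^ s :=
          pow_le_pow_left₀ (by positivity) (by linarith) s
        simp only [Finset.card_univ, Fintype.card_prod, Fintype.card_bool]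
        push_cast
        rw [pow_succ, pow_succ]
        nlinarith

lemma sur_count' (f s : ℕ) :
    Le {w : List Letter | w.length ≤ f ∧ sur w ≤ s} ((f + 1) * (16 * (4 * f + 1) ^ s)) := by
  have := Le.biUnion (Finset.range (f + 1))
    (S := fun n => {w : List Letter | w.length = n ∧ sur w ≤ s}) (r := 16 * (4 * f + 1) ^ s)
    (fun n hn => (sur_count n s).weaken (by
      have : (n : ℝ) ≤ f := by exact_mod_cast Nat.lt_succ_iff.mp (Finset.mem_range.mp hn)
      gcongr))
  refine (this.mono ?_).weaken (by simp)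
  rintro w ⟨h1, h2⟩
  exact Set.mem_iUnion₂.mpr ⟨w.length, Finset.mem_range.mpr (by omega), rfl, h2⟩

theorem orbs_finite (k : ℕ) : (Orbs k).Finite := by
  refine ((sur_count' (144 * k + 4) (144 * k + 4)).1.image fun w => orb (mk w)).subset ?_
  rintro O ⟨g, h1, h2, rfl, -⟩
  obtain ⟨h, hh⟩ := exists_min g
  have a1 := min_len h1 h2.le hh
  have a2 := sur_append_le h.toWord []
  simp only [List.append_nil, sur] at a2
  exact ⟨h.toWord, ⟨a1, by unfold FreeGroup.norm at a1; omega⟩, by
    simp only [mk_toWord]; exact Ob.orb_eq hh.1⟩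

lemma many (t : ℕ) : (2 : ℝ) ^ t ≤ (2 * t + 2) * ∑ k ∈ Finset.range (2 * (2 * t + 1) * (2 * t + 1) + 1),
    ((Orbs k).ncard : ℝ) * (64 * (3 + 520 * ((2 * t + 1) * (2 * t + 1)))) := by
  classical
  have B := Le.biUnion_sum (Finset.range (2 * (2 * t + 1) * (2 * t + 1) + 1))
    (S := fun k => ⋃ O ∈ (orbs_finite k).toFinset, {β | β ∈ O ∧ wl β ≤ 2 * t + 1})
    (r := fun k => ((Orbs k).ncard : ℝ) * (64 * (3 + 520 * ((2 * t + 1) * (2 * t + 1)))))
    (fun k _ => by
      rw [Set.ncard_eq_toFinset_card _ (orbs_finite k)]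
      refine Le.biUnion _ fun O hO => ?_
      obtain ⟨g, h1, -, rfl, -⟩ := (orbs_finite k).mem_toFinset.mp hO
      exact (cnt_le h1.ne_one (S := 0) (fun _ _ => Nat.zero_le _) (2 * t + 1)).weaken (by simp))
  have := Finset.card_le_mul_card_image_of_maps_to (s := (Finset.univ : Finset (Fin t → Bool)))
    (f := fun e => cls (mk (WW (List.ofFn e)))) (t := B.1.toFinset) (by
      intro e _
      rw [Set.Finite.mem_toFinset]
      obtain ⟨k, hk1, hk2⟩ := WW_SI (List.ofFn e)
      rw [List.length_ofFn] at hk1
      simp only [Set.mem_iUnion]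
      refine ⟨k, Finset.mem_range.mpr (by omega), orb (mk (WW (List.ofFn e))),
        (orbs_finite k).mem_toFinset.mpr ⟨_, WW_nonPower _, hk2, rfl, WW_orb _⟩, ⟨1, rfl⟩, ?_⟩
      refine (Nat.sInf_le (Set.mem_image_of_mem _ (self_mem_cls _))).trans (norm_mk_le.trans ?_)
      rw [WW_len, List.length_ofFn]) (2 * t + 2) (by
      intro β _
      rcases (Finset.univ.filter fun e : Fin t → Bool =>
        cls (mk (WW (List.ofFn e))) = β).eq_empty_or_nonempty with h0 | ⟨e₀, he₀⟩
      · rw [h0]; simp
      refine le_trans (Finset.card_le_card_of_injOn (fun e => WW (List.ofFn e))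
        (t := (Finset.range (2 * t + 2)).image fun k => (WW (List.ofFn e₀)).rotate k) ?_ ?_)
        (Finset.card_image_le.trans (by simp))
      · intro e he
        simp only [Finset.coe_filter, Finset.mem_univ, true_and, Set.mem_ofPred_eq,
          Finset.mem_filter] at he he₀
        obtain ⟨k, hk1, hk2⟩ := List.isRotated_iff_mod.mp (WW_rot (he₀.trans he.symm))
        rw [WW_len, List.length_ofFn] at hk1
        exact Finset.mem_coe.mpr (Finset.mem_image.mpr ⟨k, Finset.mem_range.mpr (by omega), hk2⟩)
      · intro e _ e' _ h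
        exact List.ofFn_injective (WW_inj h))
  rw [← Set.ncard_eq_toFinset_card _ B.1] at this
  simp only [Finset.card_univ, Fintype.card_fun, Fintype.card_bool, Fintype.card_fin] at this
  refine le_trans ?_ (mul_le_mul_of_nonneg_left B.2 (by positivity))
  exact_mod_cast this

lemma limit_le {O : Set (Set F)} {p c : ℝ} (hc : 0 ≤ c)
    (hp : Tendsto (fun l : ℕ => Real.pi ^ 2 * cnt O l / (6 * (l : ℝ) ^ 2)) atTop (𝓝 p))
    (h : ∀ l : ℕ, (cnt O l : ℝ) ≤ 64 * (3 + 520 * (l * l * c))) : p ≤ 60000 * c := by
  have h1 : Tendsto (fun l : ℕ => 320 / (l : ℝ) + 60000 * c) atTop (𝓝 (0 + 60000 * c)) :=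
    (tendsto_const_div_atTop_nhds_zero_nat _).add_const _
  rw [zero_add] at h1
  refine le_of_tendsto_of_tendsto hp h1 ?_
  filter_upwards [eventually_ge_atTop 1] with l hl
  have hl' : (1 : ℝ) ≤ l := by exact_mod_cast hl
  have hpi : Real.pi ^ 2 ≤ 10 := by nlinarith [Real.pi_lt_d2, Real.pi_pos]
  rw [div_le_iff₀ (by positivity)]
  have e : (320 / (l : ℝ) + 60000 * c) * (6 * (l : ℝ) ^ 2) = 1920 * l + 360000 * (l * l * c) := by
    field_simp; ring
  rw [e]
  have h2 : (0 : ℝ) ≤ cnt O l := by positivity
  have h3 : (0 : ℝ) ≤ l * l * c := by positivity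
  nlinarith [h l]

lemma few (k : ℕ) (p : Set (Set F) → ℝ)
    (hp : ∀ O ∈ Orbs k,
      Tendsto (fun l : ℕ => Real.pi ^ 2 * cnt O l / (6 * (l : ℝ) ^ 2)) atTop (𝓝 (p O)))
    {S : ℕ} (hS : 120000 ≤ S) {f : ℕ} (hf : 144 * k + 4 ≤ f) :
    ∑ O ∈ (orbs_finite k).toFinset, p O ≤
      (Orbs k).ncard / 2 + 60000 * ((f + 1) * (16 * (4 * f + 1) ^ S)) := by
  classical
  have E := (sur_count' f S).image fun w => orb (mk w)
  have key : ∀ O ∈ (orbs_finite k).toFinset,
      p O ≤ 1 / 2 + if O ∈ E.1.toFinset then 60000 else 0 := by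
    intro O hO
    have hO' := (orbs_finite k).mem_toFinset.mp hO
    have hl := hp O hO'
    obtain ⟨g, h1, h2, rfl, -⟩ := hO'
    split_ifs with hE
    · have := limit_le zero_le_one hl fun l =>
        (cnt_le h1.ne_one (S := 0) (fun _ _ => Nat.zero_le _) l).2.trans (by simp)
      linarith
    · have hS' : (120000 : ℝ) ≤ S := by exact_mod_cast hS
      have := limit_le (c := 1 / (S + 1)) (by positivity) hl fun l =>
        (cnt_le h1.ne_one (S := S) (fun h hh => by
          by_contra hc
          apply hE
          rw [Set.Finite.mem_toFinset]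
          exact ⟨h.toWord, ⟨(min_len h1 h2.le hh).trans hf, by omega⟩, by
            simp only [mk_toWord]; exact Ob.orb_eq hh.1⟩) l).2.trans (by
              rw [mul_one_div])
      have h3 : 60000 * (1 / ((S : ℝ) + 1)) ≤ 1 / 2 := by
        rw [mul_one_div, div_le_iff₀ (by positivity)]; linarith
      linarith
  refine (Finset.sum_le_sum key).trans ?_
  rw [Finset.sum_add_distrib, Finset.sum_const, ← Set.ncard_eq_toFinset_card _ (orbs_finite k),
    ← Finset.sum_filter, Finset.sum_const, nsmul_eq_mul, nsmul_eq_mul]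
  have h1 : (((orbs_finite k).toFinset.filter fun O => O ∈ E.1.toFinset).card : ℝ) ≤
      E.1.toFinset.card := by
    exact_mod_cast Finset.card_le_card fun O hO => (Finset.mem_filter.mp hO).2
  rw [← Set.ncard_eq_toFinset_card _ E.1] at h1
  linarith [E.2]

lemma exp_beats (C : ℝ) (d : ℕ) : ∃ t : ℕ, C * (2 * t + 1) ^ d < 2 ^ t := by
  have h := (tendsto_pow_const_div_const_pow_of_one_lt d (one_lt_two (α := ℝ))).const_mul
    (|C| * 3 ^ d)
  rw [mul_zero] at h
  obtain ⟨t, h1, h2⟩ := ((h.eventually (gt_mem_nhds one_pos)).and (eventually_ge_atTop 1)).exists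
  refine ⟨t, ?_⟩
  have ht : (1 : ℝ) ≤ t := by exact_mod_cast h2
  rw [← mul_div_assoc, div_lt_one (by positivity), mul_assoc, ← mul_pow] at h1
  refine lt_of_le_of_lt ?_ h1
  exact mul_le_mul (le_abs_self C) (pow_le_pow_left₀ (by positivity) (by linarith) d)
    (by positivity) (abs_nonneg C)

theorem main : ∃ k : ℕ, ∀ p : Set (Set F) → ℝ,
    (∀ O ∈ Orbs k,
      Tendsto (fun l : ℕ => Real.pi ^ 2 * cnt O l / (6 * (l : ℝ) ^ 2)) atTop (𝓝 (p O))) →
    ∑ O ∈ (orbs_finite k).toFinset, p O + 1 < (Orbs k).ncard := by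
  by_contra hcon
  push Not at hcon
  obtain ⟨S, hS⟩ : ∃ S : ℕ, 120000 ≤ S := ⟨_, le_rfl⟩
  obtain ⟨t, ht⟩ := exp_beats (2 * 3 * (64 * 523) * (2 + 120000 * (293 * (16 * 1169 ^ S))))
    (2 * S + 7)
  have h1 := many t
  set L : ℝ := 2 * t + 1 with hL
  have hL1 : 1 ≤ L := by have : (0 : ℝ) ≤ t := by positivity
                         linarith
  have hLL : 1 ≤ L * L := by nlinarith
  have hP : 1 ≤ (L * L) ^ (S + 1) := one_le_pow₀ hLL
  have bound : ∀ k ∈ Finset.range (2 * (2 * t + 1) * (2 * t + 1) + 1),
      ((Orbs k).ncard : ℝ) * (64 * (3 + 520 * (L * L))) ≤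
        ((2 + 120000 * (293 * (16 * 1169 ^ S))) * (L * L) ^ (S + 1)) * (64 * 523 * (L * L)) := by
    intro k hk
    obtain ⟨p, hp1, hp2⟩ := hcon k
    have a1 := few k p hp1 hS (f := 292 * ((2 * t + 1) * (2 * t + 1))) (by
      have b1 := Finset.mem_range.mp hk
      have b2 : 1 ≤ (2 * t + 1) * (2 * t + 1) := Nat.succ_le_of_lt (by positivity)
      rw [mul_assoc] at b1
      generalize (2 * t + 1) * (2 * t + 1) = Q at b1 b2
      omega)
    push_cast at a1
    rw [← hL] at a1
    have a2 : (4 * (292 * (L * L)) + 1) ^ S ≤ 1169 ^ S * (L * L) ^ S := by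
      rw [← mul_pow]; exact pow_le_pow_left₀ (by positivity) (by linarith) S
    have a3 : (292 * (L * L) + 1) * (16 * (4 * (292 * (L * L)) + 1) ^ S) ≤
        (293 * (L * L)) * (16 * (1169 ^ S * (L * L) ^ S)) :=
      mul_le_mul (by linarith) (by linarith) (by positivity) (by positivity)
    refine mul_le_mul ?_ (by linarith) (by positivity) (by positivity)
    rw [pow_succ] at hP ⊢
    linarith
  have h2 := Finset.sum_le_card_nsmul _ _ _ bound
  rw [Finset.card_range, nsmul_eq_mul] at h2
  push_cast at h2
  rw [← hL] at h2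
  have h3 : (2 * (t : ℝ) + 2) ≤ 2 * L := by linarith
  have h4 : 2 * L * L + 1 ≤ 3 * (L * L) := by linarith
  have h5 := h1.trans (mul_le_mul h3 (h2.trans (mul_le_mul_of_nonneg_right h4 (by positivity)))
    (Finset.sum_nonneg fun k _ => by positivity) (by positivity))
  refine absurd (h5.trans_eq ?_) (not_le.mpr ht)
  ring

end Pool.Agent.P992
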