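import Pool.Agent.P.MP_992ce1_gt.Orbit
import Pool.Agent.P.MP_992ce1_gt.Bound
import Pool.Agent.P.MP_992ce1_gt.Link

/-! A minimal word of a class with at most `K` self-intersections has length `O(K)`. -/

open scoped MatrixGroups UpperHalfPlane

namespace Pool.Agent.P992

open FreeGroup hiding map_mul map_inv map_one
open Finset

lemma Pos.good {u v : F} (h : Pos u v) : Good (rho u) (rho v) := by
  induction h with
  | base h x y hxy =>
    have g0 : Good (rho (of false)) (rho (of true)) := by simpa [rho] using good_base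
    have : Good (rho (el x)) (rho (el y)) := by
      rcases x with ⟨_ | _, _ | _⟩ <;> rcases y with ⟨_ | _, _ | _⟩ <;>
        simp only [ne_eq, not_true_eq_false] at hxy <;>
        simp only [el_true, el_false, map_inv]
      · exact g0.inv_left.inv_right
      · exact g0.inv_left
      · exact g0.inv_right
      · exact g0
      · exact g0.swap.inv_left.inv_right
      · exact g0.swap.inv_left
      · exact g0.swap.inv_right
      · exact g0.swap
    simpa only [map_mul, map_inv] using this.conj (rho h)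
  | stepA _ ih => rw [map_mul]; exact ih.step
  | stepB _ ih => rw [map_mul]; exact ih.step'

lemma good_aut (φ : MulAut F) : Good (rho (φ a)) (rho (φ b)) := by
  rcases nf_aut φ with h | h | h | h
  · exact h.good
  · simpa using h.good.inv_left
  · simpa using h.good.inv_right
  · simpa using h.good.inv_left.inv_right

lemma sum_letter {z y : Letter} (h : z.1 ≠ y.1) (g : Letter → ℕ) :
    ∑ v, g v = g z + g y + g (inv z) + g (inv y) := by
  rcases z with ⟨_ | _, _ | _⟩ <;> rcases y with ⟨_ | _, _ | _⟩ <;>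
    simp [Fintype.sum_prod_type, inv] at h ⊢ <;> ring

namespace Sys

variable {Ω : Type} (S : Sys Ω) [Fintype Ω]

lemma sum_eq (f : Letter → Letter → ℕ) :
    ∑ ω, f (S.X ω (-1)) (S.X ω 0) = ∑ u, ∑ v, f u v * S.N u v := by
  classical
  rw [← sum_product', ← sum_fiberwise_of_maps_to (s := univ) (t := univ ×ˢ univ)
    (g := fun ω => (S.X ω (-1), S.X ω 0)) (by simp)]
  refine sum_congr rfl fun p _ => ?_
  rw [sum_congr rfl (g := fun _ => f p.1 p.2)
    (by intro ω hω; rw [← (mem_filter.mp hω).2]), sum_const, smul_eq_mul, mul_comm]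
  unfold N
  congr 2
  ext ω; simp [Prod.ext_iff]

lemma single_symm (z : Letter) : ∑ u, S.N u z = ∑ u, S.N u (inv z) := by
  classical
  have e : ∀ z, ∑ u, S.N u z = ∑ ω, if S.X ω 0 = z then 1 else 0 := by
    intro z
    rw [S.sum_eq fun _ v => if v = z then 1 else 0]
    simp
  rw [e, e]
  refine sum_bijective S.rev (Function.Involutive.bijective S.rev_rev) (by simp) fun ω _ => ?_
  rw [X_rev, neg_zero]
  congr 1
  exact propext ⟨fun h => by rw [h], inv_injective⟩

lemma min_ineq {z y : Letter} (hzy : z.1 ≠ y.1) (δ : Letter → Letter) (h1 : δ z = (false, true))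
    (h2 : δ y = (true, true)) (h3 : δ (inv z) = (false, false)) (h4 : δ (inv y) = (true, false))
    (h : Fintype.card Ω ≤ ∑ ω, ((if (δ (S.X ω 0)).1 = false then 0 else 1) +
      if (δ (S.X ω (-1))).2 = (δ (S.X ω 0)).2 then 1 else 0)) :
    S.N (inv y) z ≤ S.N z y + S.N y y := by
  rw [S.sum_eq fun u v => (if (δ v).1 = false then 0 else 1) + if (δ u).2 = (δ v).2 then 1 else 0,
    S.card_eq] at h
  have a1 := S.single_symm z
  have a2 := S.N_symm z z
  have a3 := S.N_symm z y
  have a4 := S.N_symm y z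
  have a5 := S.N_symm y y
  have a6 := S.N_inv (inv z)
  rw [inv_inv'] at a6
  simp only [sum_letter hzy, h1, h2, h3, h4] at h a1
  simp at h
  omega

end Sys

lemma Th_wd_len (i : Bool) (x : ℤ → Letter) (j : ℤ) (r : ℕ) :
    (Th i (wd x j (r + 1))).length = ∑ k ∈ range (r + 1), (if (x (j + k)).1 = i then 0 else 1) +
      ∑ k ∈ range r, if (x (j + k)).2 = (x (j + k + 1)).2 then 1 else 0 := by
  induction r generalizing j with
  | zero => simp [wd, Th, keep]; split_ifs <;> simp
  | succ r ih =>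
    have := ih (j + 1)
    rw [wd] at this
    rw [wd, wd, Th, List.length_append, List.length_append, this, sum_range_succ' _ (r + 1),
      sum_range_succ' (fun k : ℕ => if (x (j + k)).2 = (x (j + k + 1)).2 then 1 else 0) r]
    have e1 : (keep i (x j)).length = if (x j).1 = i then 0 else 1 := by
      unfold keep; split_ifs <;> simp
    have e2 : (conn i (x j) (x (j + 1))).length = if (x j).2 = (x (j + 1)).2 then 1 else 0 := by
      unfold conn; split_ifs <;> simp
    rw [e1, e2]
    simp only [Nat.cast_zero, add_zero, Nat.cast_succ, show ∀ k : ℤ, j + 1 + k = j + (k + 1) from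
      fun k => by ring]
    omega

lemma wd_map (δ : Letter → Letter) (x : ℤ → Letter) (j : ℤ) (r : ℕ) :
    wd (fun k => δ (x k)) j r = (wd x j r).map δ := by
  induction r generalizing j with
  | zero => rfl
  | succ r ih => simp [wd, ih]

lemma min_cyc {g : F} {x : ℤ → Letter} {n : ℕ} (hx : Cyc x n) (hm : IsMin g (seg x 0 n))
    {p q : Letter} (hpq : p.1 ≠ q.1) :
    n ≤ ∑ k ∈ range n, ((if (dl p q (x k)).1 = false then 0 else 1) +
      if (dl p q (x (k - 1))).2 = (dl p q (x k)).2 then 1 else 0) := by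
  obtain ⟨r, rfl⟩ : ∃ r, n = r + 1 := ⟨n - 1, by have := hx.pos; omega⟩
  obtain ⟨ψ, a1, -⟩ := lm_aut hpq
  set y : ℤ → Letter := fun k => dl p q (x k) with hy
  have b1 : mk (wd y 0 (r + 1)) ∈ Ob g := by
    rw [hy, wd_map, ← lm_mk, ← a1]; exact Ob.aut hm.1 ψ
  have b2 := Ob.aut b1 (Taut false)
  have hl : (wd y 0 (r + 1)).getLast (by simp [wd]) = y r := by
    simp only [wd_succ']; simp
  have b3 : T false (mk (wd y 0 (r + 1))) =
      PL false (y 0) * mk (Th false (wd y 0 (r + 1))) * QL false (y r) := by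
    rw [← hl]; exact Th_mk _ _ _
  have b4 : mk (Th false (wd y 0 (r + 1)) ++ conn false (y r) (y 0)) ∈ Ob g := by
    refine Ob.conj b2 (isConj_iff.mpr ⟨(PL false (y 0))⁻¹, ?_⟩)
    rw [Taut_apply, b3, mk_append, ← QL_PL]; group
  have b5 := (hm.2 _ b4).trans norm_mk_le
  rw [seg, norm_of_red (wd_red hx.red _ _), wd_length, List.length_append, Th_wd_len] at b5
  have e2 : (conn false (y r) (y 0)).length = if (y r).2 = (y 0).2 then 1 else 0 := by
    unfold conn; split_ifs <;> simp
  have e3 : y r = y (-1) := by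
    simp only [hy]; rw [← hx.per (-1)]; congr 2; push_cast; ring
  rw [e2, e3] at b5
  rw [sum_add_distrib, sum_range_succ' (fun k : ℕ =>
    if (dl p q (x (k - 1))).2 = (dl p q (x k)).2 then 1 else 0) r]
  simp only [zero_add, Nat.cast_succ, add_sub_cancel_right, Nat.cast_zero, zero_sub] at b5 ⊢
  exact b5.trans (le_of_eq (add_assoc _ _ _))

lemma seg_pow {x : ℤ → Letter} {i : ℤ} {d : ℕ} (h : ∀ k : ℕ, x (i + k + d) = x (i + k)) (t : ℕ) :
    seg x i (d * t) = seg x i d ^ t := by
  have key : ∀ t k : ℕ, x (i + (d * t : ℕ) + k) = x (i + k) := by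
    intro t k
    induction t with
    | zero => simp
    | succ t ih =>
      rw [← ih]
      have := h (d * t + k)
      convert this using 2 <;> push_cast <;> ring
  induction t with
  | zero => simp [seg_zero]
  | succ t ih =>
    rw [Nat.mul_succ, seg_add, ih, pow_succ]
    congr 1
    rw [seg, seg, wd_congr fun k _ => key t k]

lemma short_of_period {g : F} (hg : NonPower g) {x : ℤ → Letter} {n : ℕ} (hx : Cyc x n)
    (hm : seg x 0 n ∈ Ob g) {i : ℤ} {d : ℕ} (hd : d ∣ n)
    (h : ∀ k : ℕ, x (i + k + d) = x (i + k)) : n ≤ d := by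
  obtain ⟨t, rfl⟩ := hd
  have h1 : seg x i (d * t) ∈ Ob g :=
    Ob.conj hm (isConj_iff.mpr ⟨(pre x i)⁻¹, by rw [hx.seg_eq i]; simp⟩)
  have h2 := hg.ob h1 (seg x i d) t
  rw [seg_pow h] at h2
  have : t ≤ 1 := by by_contra hc; exact h2 (by omega) rfl
  nlinarith

def mkSys (x : ℤ → Letter) (r : ℕ) (hx : Cyc x (r + 1)) : Sys (Bool × ZMod (r + 1)) where
  sh k ω := (ω.1, ω.2 + k)
  l ω := sq x ω.1 (ω.2.val)
  rev ω := (!ω.1, -1 - ω.2)
  sh_zero ω := by simp
  sh_add j k ω := by simp; ring
  red ω := by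
    have := (hx.sq ω.1).red (ω.2.val)
    rw [← (hx.sq ω.1).per_mul _ (-((ω.2.val + 1 : ℤ) / (r + 1 : ℕ)))] at this
    convert this using 2
    have e : ω.2 + ((1 : ℤ) : ZMod (r + 1)) = ((ω.2.val + 1 : ℤ) : ZMod (r + 1)) := by simp
    rw [e, ZMod.val_intCast, Int.emod_def]; ring
  rev_rev ω := by simp
  l_rev ω k := by
    have e : ∀ (ε : Bool) (m : ℤ), sq x ε ((m : ZMod (r + 1)).val) = sq x ε m := by
      intro ε m
      rw [ZMod.val_intCast, Int.emod_def, ← (hx.sq ε).per_mul _ (m / (r + 1 : ℕ))]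
      congr 1; ring
    have e1 : -1 - ω.2 + (k : ZMod (r + 1)) = ((-1 - ω.2.val + k : ℤ) : ZMod (r + 1)) := by simp
    have e2 : ω.2 + ((-k : ℤ) : ZMod (r + 1)) = ((ω.2.val - k : ℤ) : ZMod (r + 1)) := by
      simp [sub_eq_add_neg]
    simp only [e1, e2, e]
    cases ω.1 <;> simp only [sq, rv, Bool.not_false, Bool.not_true, if_true, Bool.false_eq_true,
      if_false, inv_inv']
    · congr 1; ring
    · congr 2; ring

lemma mkSys_X {x : ℤ → Letter} {r : ℕ} (hx : Cyc x (r + 1)) (ω : Bool × ZMod (r + 1)) (k : ℤ) :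
    (mkSys x r hx).X ω k = sq x ω.1 (ω.2.val + k) := by
  have e1 : ω.2 + (k : ZMod (r + 1)) = ((ω.2.val + k : ℤ) : ZMod (r + 1)) := by simp
  simp only [Sys.X, mkSys, e1]
  rw [ZMod.val_intCast, Int.emod_def,
    ← (hx.sq ω.1).per_mul _ (((ω.2.val : ℤ) + k) / (r + 1 : ℕ))]
  congr 1; ring

lemma exists_rep {g : F} {K : ℕ} (h : SI g ≤ K) : ∃ γ, IsRep g γ ∧ (dbl γ).encard ≤ K := by
  have : SI g < K + 1 := h.trans_lt (by exact_mod_cast Nat.lt_succ_self K)
  obtain ⟨γ, hγ⟩ := iInf_lt_iff.mp this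
  exact ⟨γ.1, γ.2, Order.le_of_lt_add_one hγ⟩

theorem min_len {g h : F} (hg : NonPower g) {K : ℕ} (hK : SI g ≤ K) (hh : IsMin g h) :
    h.norm ≤ 144 * K + 4 := by
  classical
  wlog hφ : ∃ φ : MulAut F, h = φ g generalizing h
  · obtain ⟨φ, e | e⟩ := hh.1
    · exact absurd ⟨φ, e⟩ hφ
    · simpa using this hh.inv ⟨φ, by rw [e, inv_inv]⟩
  obtain ⟨φ, hφ⟩ := hφ
  obtain ⟨γ, ⟨hγ1, hγ2⟩, hγ3⟩ := exists_rep hK
  obtain ⟨σ, e, hpp⟩ := Good.pp (ρ := rho.comp φ.symm.toMonoidHom) (good_aut φ.symm)
  obtain ⟨x, hx, hw⟩ := exists_cyc hh.cyc (by simpa using (hg.ob hh.1).ne_one)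
  have hseg : seg x 0 h.toWord.length = h := by rw [seg, hw, mk_toWord]
  by_contra hc
  unfold FreeGroup.norm at hc
  obtain ⟨r, hr⟩ : ∃ r, h.toWord.length = r + 1 := ⟨h.toWord.length - 1, by omega⟩
  rw [hr] at hx hseg hc
  have hmin : ∀ ε, IsMin g (seg (sq x ε) 0 (r + 1)) := by
    intro ε
    cases ε
    · simp only [sq, Bool.false_eq_true, if_false, hx.seg_rv_zero, hseg]; exact hh.inv
    · simp only [sq, if_true, hseg]; exact hh
  set S := mkSys x r hx with hS
  have hLC : S.LC ≤ 2 * K * 4 := by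
    unfold Sys.LC
    have := card_le_mul_card_image_of_maps_to
      (f := fun p : (Bool × ZMod (r + 1)) × (Bool × ZMod (r + 1)) => (p.1.1, p.2.1))
      (s := univ.filter fun p => S.Lk p.1 p.2) (t := univ) (by simp) (2 * K) (by
        rintro ⟨ε, δ⟩ -
        refine le_trans ?_ (linked_card hpp (fun g => ⟨_, rfl⟩) hx hγ1 (fun t => by
          rw [hγ2, hseg, hφ]; simp) hγ3 ε δ)
        apply card_le_card_of_injOn (fun p => (p.1.2.val, p.2.2.val))
        · rintro ⟨⟨ε', i⟩, ⟨δ', j⟩⟩ hp
          simp only [coe_filter, mem_filter, mem_univ, true_and, Set.mem_ofPred_eq, Prod.mk.injEq,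
            mem_product, mem_range] at hp ⊢
          obtain ⟨⟨s, h1, h2⟩, rfl, rfl⟩ := hp
          refine ⟨⟨ZMod.val_lt _, ZMod.val_lt _⟩, s, fun k hk => ?_, ?_⟩
          · simpa only [hS, mkSys_X, zero_add] using h1 k hk
          · simpa only [hS, mkSys_X, zero_add, zero_sub, add_zero, ← sub_eq_add_neg,
              ← add_sub_assoc] using h2
        · rintro ⟨⟨ε₁, i⟩, ⟨δ₁, j⟩⟩ hp ⟨⟨ε₂, i'⟩, ⟨δ₂, j'⟩⟩ hp' hpp
          simp only [coe_filter, mem_filter, mem_univ, true_and, Set.mem_ofPred_eq,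
            Prod.mk.injEq] at hp hp' hpp ⊢
          exact ⟨⟨hp.2.1.trans hp'.2.1.symm, ZMod.val_injective _ hpp.1⟩,
            hp.2.2.trans hp'.2.2.symm, ZMod.val_injective _ hpp.2⟩)
    simpa using this
  have hcard := S.card_le (by
      intro ω
      by_contra hcon
      push Not at hcon
      have := short_of_period hg (hx.sq ω.1) (hmin ω.1).1 (i := ω.2.val) (d := 1) (one_dvd _) (by
        intro k
        have a1 := hcon k
        have a2 := hcon (k + 1)
        simp only [hS, mkSys_X] at a1 a2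
        rw [a1, ← a2, add_assoc, ← Nat.cast_add])
      omega)
    (by
      intro ω
      by_contra hcon
      push Not at hcon
      simp only [hS, mkSys_X] at hcon
      have it : ∀ k : ℕ, sq x ω.1 (ω.2.val + k) = lf^[k] (sq x ω.1 ω.2.val) := by
        intro k
        induction k with
        | zero => simp
        | succ k ih => rw [Nat.cast_succ, hcon, ih, Function.iterate_succ_apply']
      have p4 : ∀ z, lf^[4] z = z := by decide
      have hdvd : 4 ∣ r + 1 := by
        have a1 := it (r + 1)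
        rw [(hx.sq ω.1).per] at a1
        generalize sq x ω.1 ω.2.val = z at a1
        rw [← Nat.mod_add_div (r + 1) 4, Function.iterate_add_apply,
          Function.iterate_mul, Function.iterate_fixed (p4 _)] at a1
        have a2 : ∀ z, ∀ t < 4, z = lf^[t] z → t = 0 := by decide
        exact Nat.dvd_of_mod_eq_zero (a2 _ _ (Nat.mod_lt _ (by norm_num)) a1)
      have := short_of_period hg (hx.sq ω.1) (hmin ω.1).1 (i := ω.2.val) hdvd (by
        intro k
        rw [add_assoc, ← Nat.cast_add, it, it, Function.iterate_add_apply, p4])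
      omega)
    (by
      intro z y hzy
      obtain ⟨p, q, hpq, h1, -⟩ := dl_inv z y hzy
      refine S.min_ineq hzy (dl p q) (h1 (false, true)) (h1 (true, true)) (h1 (false, false))
        (h1 (true, false)) ?_
      rw [Fintype.sum_prod_type, Fintype.card_prod, ZMod.card, Fintype.card_bool,
        Fintype.sum_bool]
      have key : ∀ ε, r + 1 ≤ ∑ i : ZMod (r + 1), ((if (dl p q (S.X (ε, i) 0)).1 = false then 0 else 1) +
          if (dl p q (S.X (ε, i) (-1))).2 = (dl p q (S.X (ε, i) 0)).2 then 1 else 0) := by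
        intro ε
        have := min_cyc (hx.sq ε) (hmin ε) hpq
        rw [Finset.sum_range] at this
        simp only [hS, mkSys_X, add_zero, ← sub_eq_add_neg]
        exact this
      have := key true
      have := key false
      omega)
  rw [Fintype.card_prod, ZMod.card, Fintype.card_bool] at hcard
  omega

end Pool.Agent.P992
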