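import Pool.Agent.P.MP_992ce1_gt.Seq

/-! Nielsen's theorem in rank two, with a normal form for bases. -/

namespace Pool.Agent.P992

open FreeGroup hiding map_mul map_inv map_one

inductive Pos : F → F → Prop
  | base (h : F) (x y : Letter) (hxy : x.1 ≠ y.1) : Pos (h * el x * h⁻¹) (h * el y * h⁻¹)
  | stepA {u v : F} : Pos u v → Pos u (u * v)
  | stepB {u v : F} : Pos u v → Pos (v * u) v

lemma Pos.conj {u v : F} (h : Pos u v) (g : F) : Pos (g * u * g⁻¹) (g * v * g⁻¹) := by
  induction h with
  | base h x y hxy => convert Pos.base (g * h) x y hxy using 1 <;> group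
  | stepA _ ih => convert ih.stepA using 1; group
  | stepB _ ih => convert ih.stepB using 1; group

lemma Pos.swap {u v : F} (h : Pos u v) : Pos v u := by
  induction h with
  | base h x y hxy => exact Pos.base h y x hxy.symm
  | stepA _ ih => exact ih.stepB
  | stepB _ ih => exact ih.stepA

def NF (u v : F) : Prop := Pos u v ∨ Pos u⁻¹ v ∨ Pos u v⁻¹ ∨ Pos u⁻¹ v⁻¹

lemma NF.swap {u v : F} (h : NF u v) : NF v u := by
  rcases h with h | h | h | h
  · exact Or.inl h.swap
  · exact Or.inr (Or.inr (Or.inl h.swap))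
  · exact Or.inr (Or.inl h.swap)
  · exact Or.inr (Or.inr (Or.inr h.swap))

lemma NF.inv_left {u v : F} (h : NF u v) : NF u⁻¹ v := by
  unfold NF at *; rw [inv_inv]; tauto

lemma NF.inv_right {u v : F} (h : NF u v) : NF u v⁻¹ := h.swap.inv_left.swap

lemma NF.conj {u v : F} (h : NF u v) (g : F) : NF (g * u * g⁻¹) (g * v * g⁻¹) := by
  have e : ∀ w : F, (g * w * g⁻¹)⁻¹ = g * w⁻¹ * g⁻¹ := fun w => by group
  unfold NF at *
  rw [e, e]
  rcases h with h | h | h | h
  · exact Or.inl (h.conj g)
  · exact Or.inr (Or.inl (h.conj g))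
  · exact Or.inr (Or.inr (Or.inl (h.conj g)))
  · exact Or.inr (Or.inr (Or.inr (h.conj g)))

lemma Pos.inv_mul {u v : F} (h : Pos u v) : NF u (u⁻¹ * v) := by
  cases h with
  | base h x y hxy =>
    refine Or.inr (Or.inl ?_)
    have := (Pos.base h (inv x) y hxy).stepA
    rw [el_inv] at this
    convert this using 1 <;> group
  | stepA h => exact Or.inl (by simpa using h)
  | @stepB u v h =>
    refine Or.inr (Or.inr (Or.inl ?_))
    convert (h.stepA.conj u⁻¹).swap using 1 <;> group

lemma NF.mul {u v : F} (h : NF u v) : NF u (u * v) := by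
  rcases h with h | h | h | h
  · exact Or.inl h.stepA
  · simpa using h.inv_mul.inv_left
  · convert (h.inv_mul.conj u).inv_right using 1 <;> group
  · refine Or.inr (Or.inr (Or.inr ?_))
    convert h.stepA.conj u using 1 <;> group

def Gen (u v : F) : Prop := ∀ H : Subgroup F, u ∈ H → v ∈ H → H = ⊤

def Mv (u v u' v' : F) : Prop := (Gen u v → Gen u' v') ∧ (NF u' v' → NF u v)

lemma Mv.refl (u v : F) : Mv u v u v := ⟨id, id⟩
lemma Mv.trans {u v u' v' u'' v'' : F} (h : Mv u v u' v') (h' : Mv u' v' u'' v'') :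
    Mv u v u'' v'' := ⟨fun g => h'.1 (h.1 g), fun g => h.2 (h'.2 g)⟩
lemma Mv.swap (u v : F) : Mv u v v u := ⟨fun g H h1 h2 => g H h2 h1, NF.swap⟩
lemma Mv.inv_left (u v : F) : Mv u v u⁻¹ v :=
  ⟨fun g H h1 h2 => g H (by simpa using h1) h2, fun h => by simpa using h.inv_left⟩
lemma Mv.inv_right (u v : F) : Mv u v u v⁻¹ :=
  ⟨fun g H h1 h2 => g H h1 (by simpa using h2), fun h => by simpa using h.inv_right⟩
lemma Mv.inv_mul (u v : F) : Mv u v u (u⁻¹ * v) :=
  ⟨fun g H h1 h2 => g H h1 (by simpa using H.mul_mem h1 h2), fun h => by simpa using h.mul⟩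
lemma Mv.conj (u v g : F) : Mv u v (g⁻¹ * u * g) (g⁻¹ * v * g) := by
  refine ⟨fun hg H h1 h2 => ?_, fun h => by convert h.conj g using 1 <;> group⟩
  have := hg (H.comap (MulAut.conj g⁻¹).toMonoidHom) (by simpa using h1) (by simpa using h2)
  rw [eq_top_iff] at this ⊢
  intro x _
  have := this (Subgroup.mem_top (g * x * g⁻¹))
  simpa [mul_assoc] using this

def cpl : List Letter → List Letter → ℕ
  | x :: L, y :: M => if x = y then cpl L M + 1 else 0
  | _, _ => 0

lemma cpl_ultra (L M N : List Letter) : min (cpl L M) (cpl M N) ≤ cpl L N := by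
  induction L generalizing M N with
  | nil => simp [cpl]
  | cons x L ih =>
    cases M with
    | nil => simp [cpl]
    | cons y M =>
      cases N with
      | nil => simp [cpl]
      | cons z N =>
        have := ih M N
        simp only [cpl]
        split_ifs <;> first | omega | simp_all

lemma red_invRev {L : List Letter} (h : IsReduced L) : IsReduced (invRev L) := by
  rw [isReduced_iff_reduce_eq, reduce_invRev, h.reduce_eq]

lemma cpl_norm {L M : List Letter} (hL : IsReduced L) (hM : IsReduced M) :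
    ((mk L)⁻¹ * mk M).norm + 2 * cpl L M = L.length + M.length := by
  induction L generalizing M with
  | nil => simp [cpl, mk_nil, norm_of_red hM]
  | cons x L ih =>
    cases M with
    | nil => rw [mk_nil, mul_one, norm_inv_eq, norm_of_red hL]; simp [cpl]
    | cons y M =>
      by_cases hxy : x = y
      · subst hxy
        have := ih (M := M) (red_mid hL ⟨[x], [], by simp⟩) (red_mid hM ⟨[x], [], by simp⟩)
        simp only [cpl, if_true, mk_cons, mul_inv_rev, mul_assoc, inv_mul_cancel_left,
          List.length_cons]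
        omega
      · have hr : IsReduced (invRev (x :: L) ++ y :: M) := by
          refine List.isChain_append.mpr ⟨red_invRev hL, hM, ?_⟩
          intro p hp q hq
          simp only [invRev, List.map_cons, List.reverse_cons, List.getLast?_concat,
            Option.mem_def, Option.some.injEq, List.head?_cons] at hp hq
          subst hp hq
          revert hxy
          rcases x with ⟨_ | _, _ | _⟩ <;> rcases y with ⟨_ | _, _ | _⟩ <;> simp
        rw [inv_mk, ← mk_append, norm_of_red hr]
        simp [cpl, hxy]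

def cp (x y : F) : ℕ := cpl x.toWord y.toWord

lemma cp_norm (x y : F) : (x⁻¹ * y).norm + 2 * cp x y = x.norm + y.norm := by
  have := cpl_norm (isReduced_toWord (x := x)) (isReduced_toWord (x := y))
  rwa [mk_toWord, mk_toWord] at this

lemma cp_ultra (x y z : F) : min (cp x y) (cp y z) ≤ cp x z := cpl_ultra _ _ _

lemma cp_comm (x y : F) : cp x y = cp y x := by
  have h1 := cp_norm x y
  have h2 := cp_norm y x
  rw [← norm_inv_eq, mul_inv_rev, inv_inv] at h2
  omega

lemma cp_le (x y : F) : cp x y ≤ x.norm := by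
  have h1 := cp_norm x y
  have h2 := norm_mul_le x (x⁻¹ * y)
  rw [mul_inv_cancel_left] at h2
  omega

lemma cp_inv_lt {x : F} (hx : x ≠ 1) : 2 * cp x x⁻¹ < x.norm := by
  have h1 := cp_norm x⁻¹ x
  rw [inv_inv, norm_inv_eq, cp_comm] at h1
  have h2 := reduceCyclically.reduce_flatten_replicate_succ (isReduced_toWord (x := x)) 1
  have h3 := reduceCyclically.conj_conjugator_reduceCyclically x.toWord
  rw [← toWord_pow, pow_succ, pow_one] at h2
  have h4 := congrArg List.length h2
  have h5 := congrArg List.length h3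
  have h6 : 0 < (reduceCyclically x.toWord).length := by
    rw [List.length_pos_iff]
    intro h0
    rw [h0] at h3
    apply hx
    rw [← mk_toWord (x := x), ← h3, mk_append, mk_append, ← inv_mk, mk_nil, mul_one, mul_inv_cancel]
  simp only [List.length_append, invRev_length, List.replicate_succ, List.replicate_zero,
    List.flatten_cons, List.flatten_nil, List.length_nil] at h4 h5
  unfold FreeGroup.norm at *
  omega

lemma exists_prefix (x : F) {c : ℕ} (hc : c ≤ x.norm) :
    ∃ s : F, s.norm = c ∧ (s⁻¹ * x).norm + c = x.norm := by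
  have h := isReduced_toWord (x := x)
  refine ⟨mk (x.toWord.take c), ?_, ?_⟩
  · rw [norm_of_red (red_mid h (List.take_prefix _ _).isInfix), List.length_take]
    exact min_eq_left hc
  · have e : (mk (x.toWord.take c))⁻¹ * x = mk (x.toWord.drop c) := by
      rw [inv_mul_eq_iff_eq_mul, ← mk_append, List.take_append_drop, mk_toWord]
    rw [e, norm_of_red (red_mid h (List.drop_suffix _ _).isInfix), List.length_drop]
    unfold FreeGroup.norm at *; omega

def sub2 (u v : F) : F →* F := FreeGroup.lift fun i => if i then v else u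

@[simp] lemma sub2_a (u v : F) : sub2 u v (of false) = u := by simp [sub2]
@[simp] lemma sub2_b (u v : F) : sub2 u v (of true) = v := by simp [sub2]

lemma pp_norm (φ : F →* F) (p : Letter → ℕ)
    (h1 : ∀ z z', z ≠ z' → cp (φ (el z)) (φ (el z')) ≤ p z)
    (h2 : ∀ z, p z + p (inv z) < (φ (el z)).norm) (L : List Letter) (z : Letter)
    (hL : IsReduced (z :: L)) :
    p z < cp (φ (el z)) (φ (mk (z :: L))) ∧ p z + (z :: L).length ≤ (φ (mk (z :: L))).norm := by
  induction L generalizing z with
  | nil =>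
    have a1 := cp_norm (φ (el z)) (φ (el z))
    have a2 := h2 z
    simp only [inv_mul_cancel, FreeGroup.norm_one] at a1
    change p z < cp (φ (el z)) (φ (el z)) ∧ p z + 1 ≤ (φ (el z)).norm
    omega
  | cons y L ih =>
    obtain ⟨b1, b2⟩ := isReduced_cons_cons.mp hL
    rw [red_iff] at b1
    obtain ⟨c1, c2⟩ := ih y b2
    rw [mk_cons z, map_mul]
    set W := φ (mk (y :: L))
    have d1 := h1 (inv z) y b1.symm
    have d2 := h1 y (inv z) b1
    have d3 := h2 z
    rw [cp_comm] at d2
    rw [el_inv, map_inv] at d1 d2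
    set x := φ (el z)
    have u1 := cp_ultra x⁻¹ (φ (el y)) W
    have u2 := cp_ultra x⁻¹ W (φ (el y))
    rw [cp_comm W] at u2
    have n1 := cp_norm x⁻¹ W
    have n2 := cp_norm x (x * W)
    rw [inv_inv, norm_inv_eq] at n1
    rw [inv_mul_cancel_left] at n2
    simp only [List.length_cons] at c2 ⊢
    omega

lemma gen_surj {u v : F} (h : Gen u v) (g : F) : ∃ k, sub2 u v k = g := by
  have := h (sub2 u v).range ⟨of false, by simp⟩ ⟨of true, by simp⟩
  exact (this ▸ Subgroup.mem_top g : g ∈ (sub2 u v).range)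

lemma gen_ne_one {u v : F} (h : Gen u v) : u ≠ 1 := by
  rintro rfl
  have := h (Subgroup.zpowers v) (one_mem _) (Subgroup.mem_zpowers v)
  obtain ⟨m, hm⟩ : (of false : F) ∈ Subgroup.zpowers v := this ▸ Subgroup.mem_top _
  obtain ⟨n, hn⟩ : (of true : F) ∈ Subgroup.zpowers v := this ▸ Subgroup.mem_top _
  have : (of false : F) * of true = of true * of false := by
    rw [← hm, ← hn]; exact zpow_mul_comm v m n
  revert this; decide

lemma mv_letters (u v : F) (z y : Letter) (h : z.1 ≠ y.1) :
    Mv u v (sub2 u v (el z)) (sub2 u v (el y)) ∧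
      (sub2 u v (el z)).norm + (sub2 u v (el y)).norm = u.norm + v.norm := by
  rcases z with ⟨_ | _, _ | _⟩ <;> rcases y with ⟨_ | _, _ | _⟩ <;>
    simp only [ne_eq, not_true_eq_false] at h <;>
    simp only [el_true, el_false, map_inv, sub2_a, sub2_b, norm_inv_eq, add_comm, and_true]
  · exact (Mv.inv_left _ _).trans (Mv.inv_right _ _)
  · exact Mv.inv_left _ _
  · exact Mv.inv_right _ _
  · exact Mv.refl _ _
  · exact (Mv.swap _ _).trans ((Mv.inv_left _ _).trans (Mv.inv_right _ _))
  · exact (Mv.swap _ _).trans (Mv.inv_left _ _)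
  · exact (Mv.swap _ _).trans (Mv.inv_right _ _)
  · exact Mv.swap _ _

lemma exceptional {w x : F} {c : ℕ} (hc : 0 < c) (hx : x.norm = 2 * c) (hw : 2 * c ≤ w.norm)
    (h1 : c ≤ cp x w) (h2 : c ≤ cp x⁻¹ w⁻¹) :
    ∃ u' v', Mv x w u' v' ∧ u'.norm + v'.norm < x.norm + w.norm := by
  obtain ⟨s, hs1, hs2⟩ := exists_prefix x (c := c) (by omega)
  set t := x⁻¹ * s with ht
  have ht1 : t.norm = c := by
    rw [← norm_inv_eq, ht, mul_inv_rev, inv_inv]; omega
  have m : Mv x w (s⁻¹ * x * s) (s⁻¹ * (x * w⁻¹) * s) :=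
    ((Mv.inv_right _ _).trans ((Mv.inv_left _ _).trans ((Mv.inv_mul _ _).trans
      (Mv.inv_left _ _)))).trans (by simpa using Mv.conj x (x * w⁻¹) s)
  refine ⟨_, _, m, ?_⟩
  have a1 := norm_mul_le (s⁻¹ * x) s
  have a2 := cp_norm s x
  have a3 := cp_ultra s x w
  have a4 := cp_le s w
  have a5 := cp_norm w s
  have a6 := cp_norm t x⁻¹
  have a7 := cp_ultra t x⁻¹ w⁻¹
  have a8 := cp_norm w⁻¹ (w⁻¹ * s)
  have a9 := cp_ultra t w⁻¹ (w⁻¹ * s)
  have a10 := cp_norm t (w⁻¹ * s)
  rw [cp_comm] at a5
  rw [show t⁻¹ * x⁻¹ = s⁻¹ by rw [ht]; group, norm_inv_eq, norm_inv_eq] at a6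
  rw [inv_inv, mul_inv_cancel_left, norm_inv_eq] at a8
  rw [show t⁻¹ * (w⁻¹ * s) = s⁻¹ * (x * w⁻¹) * s by rw [ht]; group] at a10
  omega

theorem nf_of_gen {u v : F} (h : Gen u v) : NF u v := by
  induction hn : u.norm + v.norm using Nat.strong_induction_on generalizing u v with
  | _ n ih =>
  by_cases hex : ∃ u' v', Mv u v u' v' ∧ u'.norm + v'.norm < n
  · obtain ⟨u', v', h1, h2⟩ := hex
    exact h1.2 (ih _ h2 (h1.1 h) rfl)
  push Not at hex
  set φ := sub2 u v with hφ
  have half : ∀ z y : Letter, z.1 ≠ y.1 → 2 * cp (φ (el z)) (φ (el y)) ≤ (φ (el z)).norm := by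
    intro z y hzy
    obtain ⟨m, e⟩ := mv_letters u v z y hzy
    have := hex _ _ (m.trans (Mv.inv_mul _ _))
    have h2 := cp_norm (φ (el z)) (φ (el y))
    simp only [hφ] at *
    omega
  have ne1 : ∀ z : Letter, φ (el z) ≠ 1 := by
    intro z
    exact gen_ne_one ((mv_letters u v z (!z.1, true) (by simp)).1.1 h)
  set p : Letter → ℕ := fun z => max (cp (φ (el z)) (φ (el (inv z))))
    (max (cp (φ (el z)) (φ (el (!z.1, true)))) (cp (φ (el z)) (φ (el (!z.1, false))))) with hp
  have h1 : ∀ z z', z ≠ z' → cp (φ (el z)) (φ (el z')) ≤ p z := by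
    intro z z' hz
    have : z' = inv z ∨ z' = (!z.1, true) ∨ z' = (!z.1, false) := by
      revert hz; rcases z with ⟨_ | _, _ | _⟩ <;> rcases z' with ⟨_ | _, _ | _⟩ <;> simp [inv]
    rcases this with rfl | rfl | rfl <;> simp [hp]
  have h2 : ∀ z, p z + p (inv z) < (φ (el z)).norm := by
    intro z
    by_contra hc
    have key : ∀ z : Letter, 2 * p z < (φ (el z)).norm ∨
        ∃ y : Letter, z.1 ≠ y.1 ∧ 2 * cp (φ (el z)) (φ (el y)) = (φ (el z)).norm ∧
          2 * p z = (φ (el z)).norm := by
      intro z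
      have a1 := cp_inv_lt (ne1 z)
      have a2 := half z (!z.1, true) (by simp)
      have a3 := half z (!z.1, false) (by simp)
      rw [← map_inv, ← el_inv] at a1
      by_cases b2 : 2 * cp (φ (el z)) (φ (el (!z.1, true))) = (φ (el z)).norm
      · exact Or.inr ⟨_, by simp, b2, by simp only [hp]; omega⟩
      by_cases b3 : 2 * cp (φ (el z)) (φ (el (!z.1, false))) = (φ (el z)).norm
      · exact Or.inr ⟨_, by simp, b3, by simp only [hp]; omega⟩
      left; simp only [hp]; omega
    have k1 := key z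
    have k2 := key (inv z)
    rw [el_inv, map_inv, norm_inv_eq] at k2
    have l1 : 2 * p z ≤ (φ (el z)).norm := by rcases k1 with k | ⟨_, _, _, k⟩ <;> omega
    have l2 : 2 * p (inv z) ≤ (φ (el z)).norm := by rcases k2 with k | ⟨_, _, _, k⟩ <;> omega
    obtain ⟨y, hy, c1, -⟩ := k1.resolve_left (by omega)
    obtain ⟨y', hy', c2, -⟩ := k2.resolve_left (by omega)
    have hlt := cp_inv_lt (ne1 z)
    have : y' = y ∨ y' = inv y := by
      revert hy hy'
      rcases z with ⟨_ | _, _ | _⟩ <;> rcases y with ⟨_ | _, _ | _⟩ <;>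
        rcases y' with ⟨_ | _, _ | _⟩ <;> simp [inv]
    rcases this with rfl | rfl
    · have := cp_ultra (φ (el z)) (φ (el y')) (φ (el z))⁻¹
      rw [cp_comm (φ (el y'))] at this
      omega
    · rw [el_inv, map_inv] at c2
      have a1 := half y z hy.symm
      rw [cp_comm] at a1
      obtain ⟨u', v', m, hlt⟩ := exceptional (w := φ (el y)) (x := φ (el z))
        (c := cp (φ (el z)) (φ (el y))) (by omega) c1.symm a1 le_rfl (by omega)
      obtain ⟨m', e⟩ := mv_letters u v z y hy
      have := hex _ _ (m'.trans m)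
      simp only [hφ] at *
      omega
  have single : ∀ i : Bool, ∃ z, φ (el z) = of i := by
    intro i
    obtain ⟨k, hk⟩ := gen_surj h (of i)
    have hr := isReduced_toWord (x := k)
    rw [← mk_toWord (x := k)] at hk
    cases hw : k.toWord with
    | nil => rw [hw, mk_nil, map_one] at hk; exact absurd hk (one_ne_of _)
    | cons z L =>
      rw [hw] at hr hk
      have := (pp_norm φ p h1 h2 L z hr).2
      rw [hk, norm_of, List.length_cons] at this
      have : L = [] := List.length_eq_zero_iff.mp (by omega)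
      subst this
      exact ⟨z, hk⟩
  obtain ⟨z, hz⟩ := single false
  obtain ⟨y, hy⟩ := single true
  have hzy : z.1 ≠ y.1 := by
    intro hc
    have : y = z ∨ y = inv z := by
      revert hc; rcases z with ⟨_ | _, _ | _⟩ <;> rcases y with ⟨_ | _, _ | _⟩ <;> simp [inv]
    rcases this with rfl | rfl
    · rw [hz] at hy; revert hy; decide
    · rw [el_inv, map_inv, hz] at hy; revert hy; decide
  apply (mv_letters u v z y hzy).1.2
  rw [← hφ, hz, hy]
  exact Or.inl (by simpa [el_true] using Pos.base 1 (false, true) (true, true) (by simp))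

lemma gen_aut (φ : MulAut F) : Gen (φ a) (φ b) := by
  intro H h1 h2
  rw [eq_top_iff]
  intro x _
  obtain ⟨y, rfl⟩ := φ.surjective x
  induction y using FreeGroup.induction_on with
  | C1 => simp
  | of i => cases i; exacts [h1, h2]
  | inv_of i h => rw [map_inv]; exact H.inv_mem (h trivial)
  | mul x y hx hy => rw [map_mul]; exact H.mul_mem (hx trivial) (hy trivial)

theorem nf_aut (φ : MulAut F) : NF (φ a) (φ b) := nf_of_gen (gen_aut φ)

end Pool.Agent.P992
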