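import Pool.Agent.P.MP_992ce1_gt.Count

/-! Minimal elements of an orbit and the bound for the counting function. -/

namespace Pool.Agent.P992

open FreeGroup hiding map_mul map_inv map_one

def Ob (g : F) : Set F := {h | ∃ φ : MulAut F, h = φ g ∨ h = (φ g)⁻¹}

lemma Ob.self (g : F) : g ∈ Ob g := ⟨1, Or.inl rfl⟩

lemma Ob.aut {g h : F} (hh : h ∈ Ob g) (ψ : MulAut F) : ψ h ∈ Ob g := by
  obtain ⟨φ, rfl | rfl⟩ := hh
  · exact ⟨ψ * φ, Or.inl rfl⟩
  · exact ⟨ψ * φ, Or.inr (by simp)⟩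

lemma Ob.inv {g h : F} (hh : h ∈ Ob g) : h⁻¹ ∈ Ob g := by
  obtain ⟨φ, rfl | rfl⟩ := hh
  · exact ⟨φ, Or.inr rfl⟩
  · exact ⟨φ, Or.inl (by simp)⟩

lemma Ob.conj {g h k : F} (hh : h ∈ Ob g) (hc : IsConj h k) : k ∈ Ob g := by
  obtain ⟨c, rfl⟩ := isConj_iff.mp hc
  exact Ob.aut hh (MulAut.conj c)

lemma Ob.orb_eq {g h : F} (hh : h ∈ Ob g) : orb h = orb g := by
  obtain ⟨φ, hφ⟩ := hh
  have e : ∀ ψ : MulAut F, cls (ψ h) = cls ((ψ * φ) g) := by
    intro ψ
    rcases hφ with rfl | rfl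
    · rfl
    · rw [map_inv, cls_inv]; rfl
  ext β
  constructor
  · rintro ⟨ψ, rfl⟩; exact ⟨ψ * φ, e ψ⟩
  · rintro ⟨ψ, rfl⟩; exact ⟨ψ * φ⁻¹, by rw [e]; simp⟩

lemma NonPower.ob {g h : F} (hg : NonPower g) (hh : h ∈ Ob g) : NonPower h := by
  obtain ⟨φ, rfl | rfl⟩ := hh
  · intro k n hn e
    exact hg (φ.symm k) n hn (by rw [← map_pow, e]; simp)
  · intro k n hn e
    exact hg (φ.symm k⁻¹) n hn (by rw [← map_pow, inv_pow, e]; simp)

lemma NonPower.ne_one {g : F} (hg : NonPower g) : g ≠ 1 := fun h => hg 1 2 le_rfl (by simp [h])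

def IsMin (g h : F) : Prop := h ∈ Ob g ∧ ∀ k ∈ Ob g, h.norm ≤ k.norm

lemma exists_min (g : F) : ∃ h, IsMin g h := by
  obtain ⟨h, h1, h2⟩ := Nat.sInf_mem (s := FreeGroup.norm '' Ob g) ⟨_, _, Ob.self g, rfl⟩
  exact ⟨h, h1, fun k hk => h2 ▸ Nat.sInf_le ⟨k, hk, rfl⟩⟩

lemma IsMin.of_le {g h k : F} (hh : IsMin g h) (hk : k ∈ Ob g) (hl : k.norm ≤ h.norm) :
    IsMin g k := ⟨hk, fun k' hk' => hl.trans (hh.2 k' hk')⟩

lemma IsMin.inv {g h : F} (hh : IsMin g h) : IsMin g h⁻¹ := hh.of_le (Ob.inv hh.1) (by simp)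

lemma IsMin.cyc {g h : F} (hh : IsMin g h) : IsCyclicallyReduced h.toWord := by
  have e := reduceCyclically.conj_conjugator_reduceCyclically h.toWord
  have e2 : h = mk (reduceCyclically.conjugator h.toWord) * mk (reduceCyclically h.toWord) *
      (mk (reduceCyclically.conjugator h.toWord))⁻¹ := by
    rw [inv_mk, ← mk_append, ← mk_append, e, mk_toWord]
  have h1 := hh.2 _ (Ob.conj hh.1 (isConj_iff.mpr ⟨_, e2.symm⟩).symm)
  have h2 := h1.trans norm_mk_le
  have h3 := congrArg List.length e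
  simp only [List.length_append, invRev_length] at h3
  have h4 : reduceCyclically.conjugator h.toWord = [] := by
    apply List.length_eq_zero_iff.mp
    unfold FreeGroup.norm at h2; omega
  rw [h4] at e
  simp only [List.nil_append, invRev_empty, List.append_nil] at e
  rw [← e]
  exact reduceCyclically.isCyclicallyReduced isReduced_toWord

lemma IsMin.list {g h : F} (hh : IsMin g h) {L : List Letter} (hL : mk L ∈ Ob g)
    (hl : L.length ≤ h.norm) : IsMin g (mk L) ∧ (mk L).toWord = L :=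
  ⟨hh.of_le hL (norm_mk_le.trans hl), toWord_of_red (red_of_norm (hl.trans (hh.2 _ hL)))⟩

lemma IsMin.count {g h : F} (hh : IsMin g h) (h1 : h ≠ 1) {S : ℕ}
    (hS : ∀ k, IsMin g k → S ≤ sur k.toWord) (l : ℕ) :
    Le (AA h l) (3 + 520 * (l * l / (S + 1))) := by
  rcases tricho h.toWord with hp | hp | ⟨w₁, w₂, us, e1, hus, e2⟩
  · have := pos_count hp (by simpa using h1) (hS h hh) l
    rwa [mk_toWord] at this
  · have := pos_count (w := h⁻¹.toWord) (by
      intro z hz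
      simp only [toWord_inv, invRev, List.mem_reverse, List.mem_map] at hz
      obtain ⟨y, hy, rfl⟩ := hz
      simp [hp y hy]) (by rw [Ne, toWord_eq_nil_iff]; simpa using h1) (hS _ hh.inv) l
    rwa [mk_toWord, AA_inv] at this
  · have hc : IsConj h (mk us.flatten) := by
      rw [← mk_toWord (x := h), e1, e2, mk_append, mk_append]
      exact isConj_iff.mpr ⟨(mk w₁)⁻¹, by group⟩
    obtain ⟨a1, a2⟩ := hh.list (Ob.conj hh.1 hc) (by
      rw [e2, FreeGroup.norm, e1]; simp [add_comm])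
    have a3 := a1.cyc
    have a4 := hS _ a1
    rw [a2] at a3 a4
    rw [AA_conj hc]
    refine hus.count a3 (fun j => ?_) a4 l
    have b1 := a1.2 _ (Ob.conj (Ob.aut a1.1 (Taut (!j))) (hus.conj_T (!j)).symm)
    have b2 := b1.trans norm_mk_le
    have b3 := hus.len_Th (!j)
    rw [FreeGroup.norm, a2] at b2
    rw [Bool.not_not] at b3
    omega

lemma image_cls (ψ : MulAut F) (k : F) : ψ '' cls k = cls (ψ k) := by
  ext x
  constructor
  · rintro ⟨y, hy | hy, rfl⟩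
    · exact Or.inl (ψ.toMonoidHom.map_isConj hy)
    · exact Or.inr (by simpa using ψ.toMonoidHom.map_isConj hy)
  · intro hx
    refine ⟨ψ.symm x, ?_, by simp⟩
    rcases hx with hx | hx
    · exact Or.inl (by simpa using ψ.symm.toMonoidHom.map_isConj hx)
    · exact Or.inr (by simpa using ψ.symm.toMonoidHom.map_isConj hx)

theorem cnt_le {g : F} (h1 : g ≠ 1) {S : ℕ} (hS : ∀ k, IsMin g k → S ≤ sur k.toWord) (l : ℕ) :
    Le {β | β ∈ orb g ∧ wl β ≤ l} (64 * (3 + 520 * (l * l / (S + 1)))) := by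
  obtain ⟨h, hh⟩ := exists_min g
  have hne : ∀ k ∈ Ob g, k ≠ 1 := by
    rintro k ⟨φ, rfl | rfl⟩ <;> simpa using h1
  have U := Le.biUnion (Finset.univ : Finset ((Letter × Letter) × Bool × Bool))
    (S := fun p => (fun β => lm p.1.1 p.1.2 '' β) '' AA (lm (false, p.2.1) (true, p.2.2) h) l)
    (r := 3 + 520 * (l * l / (S + 1))) (by
      intro p _
      obtain ⟨ψ, a1, a2⟩ := lm_aut (x := (false, p.2.1)) (y := (true, p.2.2)) (by simp)
      rw [← a1]
      exact ((hh.of_le (Ob.aut hh.1 ψ) (a2 h).le).count (hne _ (Ob.aut hh.1 ψ)) hS l).image _)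
  refine (U.mono ?_).weaken (by simp)
  rintro β ⟨hβ, hl⟩
  rw [← Ob.orb_eq hh.1] at hβ
  obtain ⟨φ, rfl⟩ := hβ
  obtain ⟨c, x, y, m, s, t, hxy, e⟩ := aut_form φ
  obtain ⟨ψ, a1, a2⟩ := lm_aut hxy
  have e2 : cls (φ h) = ψ '' cls (Tm m (lm (false, s) (true, t) h)) := by
    rw [image_cls, e, a1]
    exact (cls_conj (isConj_iff.mpr ⟨c, rfl⟩)).symm
  simp only [Set.mem_iUnion]
  refine ⟨((x, y), s, t), Finset.mem_univ _, _, ⟨m, rfl, ?_⟩, ?_⟩
  · rw [e2, wl, Set.image_image] at hl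
    simp only [a2] at hl
    exact hl
  · rw [e2]; simp only [a1]

end Pool.Agent.P992
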