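import Pool.Agent.P.MP_992ce1_gt.Defs

/-! Letters, periodic sequences of letters and their partial products. -/

namespace Pool.Agent.P992

open FreeGroup

abbrev Letter : Type := Bool × Bool

def inv (z : Letter) : Letter := (z.1, !z.2)

@[simp] lemma inv_inv' (z : Letter) : inv (inv z) = z := by simp [inv]
@[simp] lemma inv_fst (z : Letter) : (inv z).1 = z.1 := rfl
@[simp] lemma inv_snd (z : Letter) : (inv z).2 = !z.2 := rfl
lemma inv_ne (z : Letter) : inv z ≠ z := by revert z; decide
lemma inv_injective {y z : Letter} (h : inv y = inv z) : y = z := by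
  rw [← inv_inv' y, h, inv_inv']
lemma red_iff (y z : Letter) : (y.1 = z.1 → y.2 = z.2) ↔ z ≠ inv y := by revert y z; decide

def el (z : Letter) : F := mk [z]

lemma el_inv (z : Letter) : el (inv z) = (el z)⁻¹ := by
  simp [el, inv_mk, invRev, inv]

lemma mk_cons (z : Letter) (L : List Letter) : mk (z :: L) = el z * mk L := by
  simp [el, mul_mk]

lemma mk_append (L M : List Letter) : mk (L ++ M) = mk L * mk M := by simp [mul_mk]

lemma mk_nil : (mk [] : F) = 1 := rfl

lemma el_true (i : Bool) : el (i, true) = of i := rfl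
lemma el_false (i : Bool) : el (i, false) = (of i)⁻¹ := by rw [← el_true, ← el_inv]; rfl

lemma norm_el (z : Letter) : (el z).norm = 1 := by
  simp [el, FreeGroup.norm, toWord_mk]

lemma toWord_of_red {L : List Letter} (h : IsReduced L) : (mk L).toWord = L := by
  rw [toWord_mk, h.reduce_eq]

lemma norm_of_red {L : List Letter} (h : IsReduced L) : (mk L).norm = L.length := by
  rw [FreeGroup.norm, toWord_of_red h]

lemma red_of_norm {L : List Letter} (h : L.length ≤ (mk L).norm) : IsReduced L := by
  apply IsReduced.of_reduce_eq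
  rw [FreeGroup.norm, toWord_mk] at h
  exact (reduce.red (L := L)).sublist.eq_of_length_le h

lemma red_mid {L M : List Letter} (h : IsReduced M) (h' : L <:+: M) : IsReduced L := by
  obtain ⟨s, t, rfl⟩ := h'
  exact (List.isChain_append.mp (List.isChain_append.mp h).1).2.1

/-- The word `x i, …, x (i + r - 1)`. -/
def wd (x : ℤ → Letter) : ℤ → ℕ → List Letter
  | _, 0 => []
  | i, r + 1 => x i :: wd x (i + 1) r

lemma wd_length (x : ℤ → Letter) (i : ℤ) (r : ℕ) : (wd x i r).length = r := by
  induction r generalizing i with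
  | zero => rfl
  | succ r ih => simp [wd, ih]

lemma wd_succ' (x : ℤ → Letter) (i : ℤ) (r : ℕ) : wd x i (r + 1) = wd x i r ++ [x (i + r)] := by
  induction r generalizing i with
  | zero => simp [wd]
  | succ r ih =>
    rw [wd, ih, wd]
    simp only [List.cons_append]
    congr 4
    push_cast; ring

lemma wd_add (x : ℤ → Letter) (i : ℤ) (r s : ℕ) : wd x i (r + s) = wd x i r ++ wd x (i + r) s := by
  induction r generalizing i with
  | zero => simp [wd]
  | succ r ih =>
    rw [Nat.add_right_comm, wd, ih, wd]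
    simp only [List.cons_append]
    congr 3
    push_cast; ring

lemma wd_congr {x y : ℤ → Letter} {i j : ℤ} {r : ℕ} (h : ∀ k : ℕ, k < r → x (i + k) = y (j + k)) :
    wd x i r = wd y j r := by
  induction r with
  | zero => rfl
  | succ r ih => rw [wd_succ', wd_succ', ih (fun k hk => h k (by omega)), h r (by omega)]

lemma wd_getD (x : ℤ → Letter) (i : ℤ) (r k : ℕ) (hk : k < r) (d : Letter) :
    (wd x i r).getD k d = x (i + k) := by
  induction r generalizing i k with
  | zero => omega
  | succ r ih =>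
    cases k with
    | zero => simp [wd]
    | succ k =>
      rw [wd, List.getD_cons_succ, ih _ _ (by omega)]
      congr 1; push_cast; ring

def Red1 (x : ℤ → Letter) : Prop := ∀ k, x (k + 1) ≠ inv (x k)

lemma wd_red {x : ℤ → Letter} (h : Red1 x) (i : ℤ) (r : ℕ) : IsReduced (wd x i r) := by
  induction r generalizing i with
  | zero => exact IsReduced.nil
  | succ r ih =>
    cases r with
    | zero => exact IsReduced.singleton
    | succ r =>
      have := ih (i + 1)
      rw [wd] at this
      rw [wd, wd, isReduced_cons_cons]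
      exact ⟨(red_iff _ _).mpr (h i), this⟩

def seg (x : ℤ → Letter) (i : ℤ) (r : ℕ) : F := mk (wd x i r)

lemma seg_zero (x : ℤ → Letter) (i : ℤ) : seg x i 0 = 1 := rfl
lemma seg_succ (x : ℤ → Letter) (i : ℤ) (r : ℕ) : seg x i (r + 1) = el (x i) * seg x (i + 1) r := by
  rw [seg, wd, mk_cons]; rfl
lemma seg_succ' (x : ℤ → Letter) (i : ℤ) (r : ℕ) :
    seg x i (r + 1) = seg x i r * el (x (i + r)) := by
  rw [seg, wd_succ', mk_append]; rfl
lemma seg_add (x : ℤ → Letter) (i : ℤ) (r s : ℕ) :
    seg x i (r + s) = seg x i r * seg x (i + r) s := by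
  rw [seg, wd_add, mk_append]; rfl

/-- The reversed and inverted sequence. -/
def rv (x : ℤ → Letter) (k : ℤ) : Letter := inv (x (-1 - k))

lemma rv_rv (x : ℤ → Letter) : rv (rv x) = x := by
  ext1 k; simp [rv]

lemma Red1.rv {x : ℤ → Letter} (h : Red1 x) : Red1 (rv x) := by
  intro k hk
  simp only [P992.rv, inv_inv'] at hk
  apply h (-1 - (k + 1))
  rw [hk]; congr 1; ring

lemma seg_rv (x : ℤ → Letter) (i : ℤ) (r : ℕ) : seg (rv x) (-(i + r)) r = (seg x i r)⁻¹ := by
  induction r with
  | zero => simp [seg_zero]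
  | succ r ih =>
    rw [seg_succ, seg_succ', mul_inv_rev, ← ih, ← el_inv]
    congr 2
    · simp only [rv]; congr 2; push_cast; ring
    · push_cast; ring

/-- Prefix products. -/
def pre (x : ℤ → Letter) : ℤ → F
  | Int.ofNat m => seg x 0 m
  | Int.negSucc m => (seg x (Int.negSucc m) (m + 1))⁻¹

lemma pre_zero (x : ℤ → Letter) : pre x 0 = 1 := rfl

lemma pre_succ (x : ℤ → Letter) (k : ℤ) : pre x (k + 1) = pre x k * el (x k) := by
  cases k with
  | ofNat m =>
    show seg x 0 (m + 1) = seg x 0 m * _
    rw [seg_succ']; simp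
  | negSucc m =>
    cases m with
    | zero =>
      show (1 : F) = (seg x (Int.negSucc 0) 1)⁻¹ * _
      rw [seg_succ, seg_zero]; simp
    | succ m =>
      show (seg x (Int.negSucc m) (m + 1))⁻¹ = (seg x (Int.negSucc (m + 1)) (m + 1 + 1))⁻¹ * _
      rw [seg_succ x (Int.negSucc (m + 1))]
      simp only [mul_inv_rev, inv_mul_cancel_right]
      rfl

lemma pre_pred (x : ℤ → Letter) (k : ℤ) : pre x (k - 1) = pre x k * (el (x (k - 1)))⁻¹ := by
  have := pre_succ x (k - 1)
  rw [sub_add_cancel] at this
  rw [this]; simp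

lemma pre_add (x : ℤ → Letter) (i : ℤ) (r : ℕ) : pre x (i + r) = pre x i * seg x i r := by
  induction r with
  | zero => simp [seg_zero]
  | succ r ih => rw [Nat.cast_succ, ← add_assoc, pre_succ, ih, seg_succ', mul_assoc]

lemma pre_rv (x : ℤ → Letter) (k : ℤ) : pre (rv x) k = pre x (-k) := by
  induction k using Int.induction_on with
  | zero => rfl
  | succ k ih =>
    rw [pre_succ, ih, neg_add, ← sub_eq_add_neg, pre_pred, rv, el_inv]
    congr 4; ring
  | pred k ih =>
    rw [pre_pred, ih, show -(-(k : ℤ) - 1) = - -(k : ℤ) + 1 by ring, pre_succ, rv, el_inv, inv_inv]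
    congr 3; ring

structure Cyc (x : ℤ → Letter) (n : ℕ) : Prop where
  pos : 0 < n
  per : ∀ k, x (k + n) = x k
  red : Red1 x

lemma Cyc.rv {x : ℤ → Letter} {n : ℕ} (h : Cyc x n) : Cyc (rv x) n := by
  refine ⟨h.pos, fun k => ?_, h.red.rv⟩
  simp only [P992.rv]
  rw [← h.per (-1 - (k + n))]
  congr 2; ring

lemma Cyc.per_mul {x : ℤ → Letter} {n : ℕ} (h : Cyc x n) (k p : ℤ) : x (k + p * n) = x k := by
  induction p using Int.induction_on with
  | zero => simp
  | succ p ih => rw [← ih, ← h.per (k + p * n)]; congr 1; ring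
  | pred p ih => rw [← ih, ← h.per (k + (-(p : ℤ) - 1) * n)]; congr 1; ring

lemma Cyc.pre_per {x : ℤ → Letter} {n : ℕ} (h : Cyc x n) (k : ℤ) :
    pre x (k + n) = seg x 0 n * pre x k := by
  induction k using Int.induction_on with
  | zero => rw [pre_add, pre_zero]; simp
  | succ k ih => rw [add_right_comm, pre_succ, pre_succ, ih, h.per, mul_assoc]
  | pred k ih =>
    rw [show -(k : ℤ) - 1 + n = -(k : ℤ) + n - 1 by ring, pre_pred, pre_pred, ih, mul_assoc,
      ← h.per (-(k : ℤ) - 1)]
    congr 5; ring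

lemma Cyc.pre_per_mul {x : ℤ → Letter} {n : ℕ} (h : Cyc x n) (k p : ℤ) :
    pre x (k + p * n) = seg x 0 n ^ p * pre x k := by
  induction p using Int.induction_on with
  | zero => simp
  | succ p ih =>
    rw [show k + ((p : ℤ) + 1) * n = k + p * n + n by ring, h.pre_per, ih, ← mul_assoc,
      ← zpow_one_add, add_comm]
  | pred p ih =>
    have := h.pre_per (k + (-(p : ℤ) - 1) * n)
    rw [show k + (-(p : ℤ) - 1) * n + n = k + -(p : ℤ) * n by ring, ih] at this
    rw [sub_eq_add_neg, add_comm (-(p : ℤ)), zpow_add, mul_assoc, this]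
    simp [sub_eq_add_neg, add_comm]

lemma Cyc.seg_eq {x : ℤ → Letter} {n : ℕ} (h : Cyc x n) (i : ℤ) :
    seg x i n = (pre x i)⁻¹ * seg x 0 n * pre x i := by
  rw [mul_assoc, ← h.pre_per, pre_add]; simp

lemma Cyc.seg_rv_zero {x : ℤ → Letter} {n : ℕ} (h : Cyc x n) :
    seg (P992.rv x) 0 n = (seg x 0 n)⁻¹ := by
  have h1 := pre_add (P992.rv x) 0 n
  rw [pre_zero, one_mul, pre_rv, zero_add] at h1
  have h2 := h.pre_per (-n)
  rw [neg_add_cancel, pre_zero] at h2
  rw [← h1, eq_inv_iff_mul_eq_one, ← inv_eq_iff_mul_eq_one, eq_comm, eq_inv_iff_mul_eq_one, ← h2]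

lemma exists_cyc {w : List Letter} (hw : IsCyclicallyReduced w) (h0 : w ≠ []) :
    ∃ x, Cyc x w.length ∧ wd x 0 w.length = w := by
  have hn : 0 < w.length := List.length_pos_iff.mpr h0
  have hn' : (0 : ℤ) < w.length := by exact_mod_cast hn
  refine ⟨fun k => w.getD (k % w.length).toNat default, ⟨hn, fun k => by simp, fun k => ?_⟩, ?_⟩
  · have h1 := Int.emod_nonneg k hn'.ne'
    have h2 := Int.emod_lt_of_pos k hn'
    obtain ⟨m, hm⟩ := Int.eq_ofNat_of_zero_le h1
    have hm' : m < w.length := by omega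
    have e : (k + 1) % w.length = ((m : ℤ) + 1) % w.length := by
      rw [← hm, Int.emod_add_emod]
    simp only [e, hm, Int.toNat_natCast]
    rw [← red_iff]
    by_cases hc : m + 1 < w.length
    · rw [Int.emod_eq_of_lt (by omega) (by omega), show ((m : ℤ) + 1).toNat = m + 1 by omega,
        List.getD_eq_getElem _ _ hm', List.getD_eq_getElem _ _ hc]
      exact List.isChain_iff_getElem.mp hw.1 m (by omega)
    · have e2 : (m : ℤ) + 1 = w.length := by omega
      rw [e2, Int.emod_self, Int.toNat_zero, List.getD_eq_getElem _ _ hm',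
        List.getD_eq_getElem _ _ hn]
      apply hw.2
      · rw [List.getLast?_eq_getElem?, List.getElem?_eq_getElem (by omega)]
        simp only [Option.mem_def, Option.some.injEq]
        congr 1; omega
      · rw [List.head?_eq_getElem?, List.getElem?_eq_getElem hn]; rfl
  · apply List.ext_getElem (wd_length _ _ _)
    intro k h1 h2
    rw [← List.getD_eq_getElem _ default h1, wd_getD _ _ _ _ h2, zero_add,
      Int.emod_eq_of_lt (by omega) (by omega), Int.toNat_natCast, List.getD_eq_getElem _ _ h2]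

/-- Every non-trivial element is conjugate to the product of a period of a cyclic sequence. -/
lemma exists_cyc_conj {h : F} (h1 : h ≠ 1) : ∃ x n c, Cyc x n ∧ h = c * seg x 0 n * c⁻¹ := by
  have e := reduceCyclically.conj_conjugator_reduceCyclically h.toWord
  have e2 : h = mk (reduceCyclically.conjugator h.toWord) * mk (reduceCyclically h.toWord) *
      (mk (reduceCyclically.conjugator h.toWord))⁻¹ := by
    rw [inv_mk, ← mk_append, ← mk_append, e, mk_toWord]
  have h0 : reduceCyclically h.toWord ≠ [] := by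
    intro h0
    rw [h0, mk_nil, mul_one, mul_inv_cancel] at e2
    exact h1 e2
  obtain ⟨x, hx, hw⟩ := exists_cyc (reduceCyclically.isCyclicallyReduced isReduced_toWord) h0
  exact ⟨x, _, _, hx, by rw [seg, hw]; exact e2⟩

/-- Start condition: `pre x i` is the first common vertex. -/
def Start (x : ℤ → Letter) (i : ℤ) (y : ℤ → Letter) (j : ℤ) : Prop :=
  x (i - 1) ≠ y (j - 1) ∧ inv (x (i - 1)) ≠ y j

lemma start_unique_aux {x y : ℤ → Letter} (hx : Red1 x) (hy : Red1 y) {i j j' : ℤ} {r : ℕ}
    (h2 : Start x (i + r) y j') (h : seg x i r = (pre y j)⁻¹ * pre y j') : r = 0 ∧ j = j' := by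
  rcases le_total j j' with hj | hj
  · obtain ⟨s, rfl⟩ : ∃ s : ℕ, j' = j + s := ⟨(j' - j).toNat, by omega⟩
    rw [pre_add, inv_mul_cancel_left] at h
    have e := congrArg toWord h
    rw [seg, seg, toWord_of_red (wd_red hx _ _), toWord_of_red (wd_red hy _ _)] at e
    have e1 := congrArg List.length e
    rw [wd_length, wd_length] at e1
    subst e1
    cases r with
    | zero => simp
    | succ r =>
      rw [wd_succ', wd_succ'] at e
      have := List.append_inj_right' e rfl
      simp only [List.cons.injEq, and_true] at this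
      exfalso; apply h2.1
      convert this using 2 <;> push_cast <;> ring
  · obtain ⟨s, rfl⟩ : ∃ s : ℕ, j = j' + s := ⟨(j - j').toNat, by omega⟩
    rw [pre_add, mul_inv_rev, inv_mul_cancel_right, ← seg_rv] at h
    have e := congrArg toWord h
    rw [seg, seg, toWord_of_red (wd_red hx _ _), toWord_of_red (wd_red hy.rv _ _)] at e
    have e1 := congrArg List.length e
    rw [wd_length, wd_length] at e1
    subst e1
    cases r with
    | zero => simp
    | succ r =>
      rw [wd_succ', wd_succ'] at e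
      have := List.append_inj_right' e rfl
      simp only [List.cons.injEq, and_true, rv] at this
      exfalso; apply h2.2
      rw [show i + ((r + 1 : ℕ) : ℤ) - 1 = i + r by push_cast; ring, this, inv_inv']
      congr 1; push_cast; ring

lemma start_unique {x y : ℤ → Letter} (hx : Red1 x) (hy : Red1 y) {i j i' j' : ℤ}
    (h1 : Start x i y j) (h2 : Start x i' y j')
    (h : pre x i * (pre y j)⁻¹ = pre x i' * (pre y j')⁻¹) : i = i' ∧ j = j' := by
  rcases le_total i i' with hi | hi
  · obtain ⟨r, rfl⟩ : ∃ r : ℕ, i' = i + r := ⟨(i' - i).toNat, by omega⟩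
    rw [pre_add, mul_assoc, mul_right_inj] at h
    obtain ⟨h3, h4⟩ := start_unique_aux hx hy (j := j) h2 (by rw [h]; simp)
    exact ⟨by omega, h4⟩
  · obtain ⟨r, rfl⟩ : ∃ r : ℕ, i = i' + r := ⟨(i - i').toNat, by omega⟩
    rw [pre_add, mul_assoc, mul_right_inj] at h
    obtain ⟨h3, h4⟩ := start_unique_aux hx hy (j := j') h1 (by rw [← h]; simp)
    exact ⟨by omega, h4.symm⟩

lemma pre_inj {x : ℤ → Letter} (hx : Red1 x) {i j : ℤ} (h : pre x i = pre x j) : i = j := by
  have key : ∀ (i : ℤ) (r : ℕ), pre x i = pre x (i + r) → r = 0 := by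
    intro i r h
    rw [pre_add, left_eq_mul] at h
    have := norm_of_red (wd_red hx i r)
    rw [wd_length] at this
    rw [← this]; exact norm_eq_zero.mpr h
  rcases le_total i j with hi | hi
  · obtain ⟨r, rfl⟩ : ∃ r : ℕ, j = i + r := ⟨(j - i).toNat, by omega⟩
    have := key _ _ h; omega
  · obtain ⟨r, rfl⟩ : ∃ r : ℕ, i = j + r := ⟨(i - j).toNat, by omega⟩
    have := key _ _ h.symm; omega

end Pool.Agent.P992
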