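import Pool.Agent.P.MP_992ce1_gt.Good
import Pool.Agent.P.MP_992ce1_gt.Seq

/-! Ping-pong on the boundary circle; linked pairs give intersections. -/

open scoped MatrixGroups UpperHalfPlane

namespace Pool.Agent.P992

def idx : Letter → ℕ
  | (true, false) => 0
  | (false, true) => 1
  | (true, true) => 2
  | (false, false) => 3

lemma idx_lt (z : Letter) : idx z < 4 := by revert z; decide
lemma idx_inj {y z : Letter} (h : idx y = idx z) : y = z := by revert y z; decide

def ori (x y z : Letter) : ℤ :=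
  ((idx y : ℤ) - idx x) * ((idx z : ℤ) - idx y) * ((idx x : ℤ) - idx z)

def qf (e : ℕ → V) (z : Letter) (v : V) : ℝ := det2 (e (2 * idx z)) v * det2 v (e (2 * idx z + 1))

structure PP (ρ : F →* SL(2, ℝ)) (σ : ℝ) (e : ℕ → V) : Prop where
  ord : ∀ i j, i < j → j < 8 → 0 < σ * det2 (e i) (e j)
  map : ∀ z v, qf e z (act (ρ (el z)) v) = -qf e (inv z) v

lemma qf_map_aux {M : SL(2, ℝ)} {p q p' q' : V} {s : ℝ} (hs : s * s = 1)
    (h1 : act M p = s • q') (h2 : act M q = (-s) • p') (v : V) :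
    det2 p' (act M v) * det2 (act M v) q' = -(det2 p v * det2 v q) := by
  have e1 := det2_act M q v
  have e2 := det2_act M v p
  rw [h2, det2_smul_left] at e1
  rw [h1, det2_smul_right] at e2
  rw [det2_swap p v, det2_swap v q, ← e1, ← e2]
  linear_combination (-(det2 p' (act M v) * det2 (act M v) q')) * hs

lemma Good.pp {ρ : F →* SL(2, ℝ)} (h : Good (ρ a) (ρ b)) : ∃ σ e, PP ρ σ e := by
  obtain ⟨σ, e, he, s, t, hs, ht, h1, h2, h3, h4⟩ := h
  refine ⟨σ, e, he, ?_⟩
  have hs' : (-s) * (-s) = 1 := by linarith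
  have ht' : (-t) * (-t) = 1 := by linarith
  rintro ⟨_ | _, _ | _⟩ v
  · rw [el_false, map_inv]
    exact qf_map_aux hs' (act_inv_of hs' h2) (by rw [neg_neg]; exact act_inv_of hs h1) v
  · exact qf_map_aux hs h1 h2 v
  · rw [el_false, map_inv]
    exact qf_map_aux ht' (act_inv_of ht' h4) (by rw [neg_neg]; exact act_inv_of ht h3) v
  · exact qf_map_aux ht h3 h4 v

namespace PP

variable {ρ : F →* SL(2, ℝ)} {σ : ℝ} {e : ℕ → V}

lemma self_pos (h : PP ρ σ e) (z : Letter) : 0 < σ * det2 (e (2 * idx z)) (e (2 * idx z + 1)) :=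
  h.ord _ _ (by omega) (by have := idx_lt z; omega)

lemma cone (h : PP ρ σ e) {z : Letter} {v : V} (hv : v ≠ 0) (hq : 0 ≤ qf e z v) :
    ∃ ε α β : ℝ, ε * ε = 1 ∧ 0 ≤ α ∧ 0 ≤ β ∧ 0 < α + β ∧
      ε • v = α • e (2 * idx z) + β • e (2 * idx z + 1) := by
  have hD := h.self_pos z
  set p := e (2 * idx z)
  set q := e (2 * idx z + 1)
  have hd : det2 p q ≠ 0 := by intro h; rw [h] at hD; simp at hD
  have pl := plucker v p q
  have hv' : v = (det2 v q / det2 p q) • p + (det2 p v / det2 p q) • q := by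
    rw [div_eq_inv_mul, div_eq_inv_mul, mul_smul, mul_smul, ← smul_add, ← pl, smul_smul,
      inv_mul_cancel₀ hd, one_smul]
  set α := det2 v q / det2 p q
  set β := det2 p v / det2 p q
  have hab : 0 ≤ α * β := by
    have : α * β = qf e z v / (det2 p q * det2 p q) := by
      simp only [α, β, qf, p, q]; field_simp
    rw [this]; exact div_nonneg hq (mul_self_nonneg _)
  have hne : ¬ (α = 0 ∧ β = 0) := by
    rintro ⟨h1, h2⟩; apply hv; rw [hv', h1, h2]; simp
  rcases mul_nonneg_iff.mp hab with ⟨h1, h2⟩ | ⟨h1, h2⟩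
  · refine ⟨1, α, β, by norm_num, h1, h2, ?_, by rw [one_smul]; exact hv'⟩
    by_contra hc
    exact hne ⟨by linarith, by linarith⟩
  · refine ⟨-1, -α, -β, by norm_num, by linarith, by linarith, ?_, ?_⟩
    · by_contra hc
      exact hne ⟨by linarith, by linarith⟩
    · rw [neg_smul, one_smul, neg_smul, neg_smul, ← neg_add, ← hv']

lemma cone_sign (h : PP ρ σ e) {z : Letter} {v : V} (hv : v ≠ 0) (hq : 0 ≤ qf e z v) :
    ∃ ε : ℝ, ε * ε = 1 ∧ (∀ j, 2 * idx z + 1 < j → j < 8 → 0 < σ * (ε * det2 v (e j))) ∧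
      (∀ j, j < 2 * idx z → 0 < σ * (ε * det2 (e j) v)) ∧
      ∃ α β : ℝ, 0 ≤ α ∧ 0 ≤ β ∧ 0 < α + β ∧
        ε • v = α • e (2 * idx z) + β • e (2 * idx z + 1) := by
  obtain ⟨ε, α, β, h1, h2, h3, h4, h5⟩ := h.cone hv hq
  have hz := idx_lt z
  have aux : ∀ c d : ℝ, 0 < c → 0 < d → 0 < α * c + β * d := by
    intro c d hc hd
    rcases h2.eq_or_lt with h | h
    · nlinarith
    · nlinarith [mul_pos h hc, mul_nonneg h3 hd.le]
  refine ⟨ε, h1, fun j hj hj' => ?_, fun j hj => ?_, α, β, h2, h3, h4, h5⟩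
  · rw [← det2_smul_left, h5, det2_add_left, det2_smul_left, det2_smul_left]
    have := aux _ _ (h.ord (2 * idx z) j (by omega) hj') (h.ord (2 * idx z + 1) j (by omega) hj')
    linarith
  · rw [← det2_smul_right, h5, det2_add_right, det2_smul_right, det2_smul_right]
    have := aux _ _ (h.ord j (2 * idx z) (by omega) (by omega))
      (h.ord j (2 * idx z + 1) (by omega) (by omega))
    linarith

lemma disj (h : PP ρ σ e) {z y : Letter} {v : V} (hv : v ≠ 0) (hq : 0 ≤ qf e z v) (hzy : z ≠ y) :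
    qf e y v < 0 := by
  obtain ⟨ε, h1, h2, h3, -⟩ := h.cone_sign hv hq
  have hy := idx_lt y
  have hσ : 0 < σ * σ := by
    apply mul_self_pos.mpr; rintro rfl; simpa using h.self_pos z
  have : idx z ≠ idx y := fun h => hzy (idx_inj h)
  have key : σ * σ * (ε * ε) * qf e y v < 0 := by
    rcases lt_or_gt_of_ne this with hl | hl
    · have a1 := h2 (2 * idx y) (by omega) (by omega)
      have a2 := h2 (2 * idx y + 1) (by omega) (by omega)
      have := mul_pos a1 a2
      rw [qf, det2_swap (e (2 * idx y)) v]; linarith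
    · have a1 := h3 (2 * idx y) (by omega)
      have a2 := h3 (2 * idx y + 1) (by omega)
      have := mul_pos a1 a2
      rw [qf, det2_swap v (e (2 * idx y + 1))]; linarith
  rw [h1, mul_one] at key
  by_contra hc
  push Not at hc
  linarith [mul_nonneg hσ.le hc]

lemma co_sign (h : PP ρ σ e) {x y z : Letter} {u v w : V} (hu : u ≠ 0) (hv : v ≠ 0) (hw : w ≠ 0)
    (qu : 0 ≤ qf e x u) (qv : 0 ≤ qf e y v) (qw : 0 ≤ qf e z w) (ho : ori x y z ≠ 0) :
    0 < σ * (ori x y z : ℝ) * co u v w := by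
  have hxy : x ≠ y := by rintro rfl; simp [ori] at ho
  have hyz : y ≠ z := by rintro rfl; simp [ori] at ho
  have hzx : z ≠ x := by rintro rfl; simp [ori] at ho
  obtain ⟨ε1, α1, β1, a0, a1, a2, a3, a4⟩ := h.cone hu qu
  obtain ⟨ε2, α2, β2, b0, b1, b2, b3, b4⟩ := h.cone hv qv
  obtain ⟨ε3, α3, β3, c0, c1, c2, c3, c4⟩ := h.cone hw qw
  have main : ∀ {x y : Letter} {u v : V} {ε1 α1 β1 ε2 α2 β2 : ℝ}, x ≠ y → 0 ≤ α1 → 0 ≤ β1 →
      0 < α1 + β1 → ε1 • u = α1 • e (2 * idx x) + β1 • e (2 * idx x + 1) → 0 ≤ α2 → 0 ≤ β2 →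
      0 < α2 + β2 → ε2 • v = α2 • e (2 * idx y) + β2 • e (2 * idx y + 1) →
      0 < σ * (ε1 * ε2) * ((idx y : ℝ) - idx x) * det2 u v := by
    intro x y u v ε1 α1 β1 ε2 α2 β2 hxy a1 a2 a3 a4 b1 b2 b3 b4
    have hx := idx_lt x
    have hy := idx_lt y
    have e1 : ε1 * ε2 * det2 u v = det2 (ε1 • u) (ε2 • v) := by
      rw [det2_smul_left, det2_smul_right]; ring
    have e2 : σ * (ε1 * ε2) * ((idx y : ℝ) - idx x) * det2 u v =
      ((idx y : ℝ) - idx x) * (σ * (ε1 * ε2 * det2 u v)) := by ring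
    have aux : ∀ {α β c d : ℝ}, 0 ≤ α → 0 ≤ β → 0 < α + β → 0 < c → 0 < d →
        0 < α * c + β * d := by
      intro α β c d hα hβ hαβ hc hd
      rcases hα.eq_or_lt with h | h
      · nlinarith
      · nlinarith [mul_pos h hc, mul_nonneg hβ hd.le]
    rw [e2, e1, a4, b4]
    simp only [det2_add_left, det2_add_right, det2_smul_left, det2_smul_right]
    have : idx x ≠ idx y := fun h => hxy (idx_inj h)
    rcases lt_or_gt_of_ne this with hl | hl
    · have hl' : (idx x : ℝ) < idx y := by exact_mod_cast hl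
      have := aux a1 a2 a3
        (aux b1 b2 b3 (h.ord (2 * idx x) (2 * idx y) (by omega) (by omega))
          (h.ord (2 * idx x) (2 * idx y + 1) (by omega) (by omega)))
        (aux b1 b2 b3 (h.ord (2 * idx x + 1) (2 * idx y) (by omega) (by omega))
          (h.ord (2 * idx x + 1) (2 * idx y + 1) (by omega) (by omega)))
      apply mul_pos <;> linarith
    · have hl' : (idx y : ℝ) < idx x := by exact_mod_cast hl
      have := aux a1 a2 a3
        (aux b1 b2 b3 (h.ord (2 * idx y) (2 * idx x) (by omega) (by omega))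
          (h.ord (2 * idx y + 1) (2 * idx x) (by omega) (by omega)))
        (aux b1 b2 b3 (h.ord (2 * idx y) (2 * idx x + 1) (by omega) (by omega))
          (h.ord (2 * idx y + 1) (2 * idx x + 1) (by omega) (by omega)))
      rw [det2_swap (e (2 * idx x)), det2_swap (e (2 * idx x)), det2_swap (e (2 * idx x + 1)),
        det2_swap (e (2 * idx x + 1))]
      apply mul_pos_of_neg_of_neg <;> linarith
  have p := mul_pos (mul_pos (main hxy a1 a2 a3 a4 b1 b2 b3 b4) (main hyz b1 b2 b3 b4 c1 c2 c3 c4))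
    (main hzx c1 c2 c3 c4 a1 a2 a3 a4)
  have hσ : 0 < σ * σ := by
    apply mul_self_pos.mpr; rintro rfl; simpa using h.self_pos z
  have e3 : σ * (ε1 * ε2) * ((idx y : ℝ) - idx x) * det2 u v *
      (σ * (ε2 * ε3) * ((idx z : ℝ) - idx y) * det2 v w) *
      (σ * (ε3 * ε1) * ((idx x : ℝ) - idx z) * det2 w u) =
      (σ * σ) * ((ε1 * ε1) * (ε2 * ε2) * (ε3 * ε3)) * (σ * (ori x y z : ℝ) * co u v w) := by
    simp only [ori, co]; push_cast; ring
  rw [e3, a0, b0, c0] at p
  simp only [mul_one] at p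
  exact (pos_iff_pos_of_mul_pos p).mp hσ

lemma pingpong (h : PP ρ σ e) {x : ℤ → Letter} (hx : Red1 x) (r : ℕ) (i : ℤ) {v : V} (hv : v ≠ 0)
    (hq : qf e (inv (x (i + r))) v ≤ 0) : 0 ≤ qf e (x i) (act (ρ (seg x i (r + 1))) v) := by
  induction r generalizing i with
  | zero =>
    rw [seg_succ, seg_zero, mul_one, h.map]
    simp only [Nat.cast_zero, add_zero] at hq
    linarith
  | succ r ih =>
    have := ih (i + 1) (by rw [show i + 1 + (r : ℤ) = i + ((r + 1 : ℕ) : ℤ) by push_cast; ring]; exact hq)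
    rw [seg_succ, map_mul, act_mul, h.map]
    linarith [h.disj (act_ne_zero _ hv) this (hx i)]

lemma eigen_aux {p q r s : ℝ} (h1 : 0 < p * r) (h2 : 0 < q * s) (h3 : 0 < p * q)
    (h4 : p * s - q * r = 1) : ∃ l : ℝ, 1 < |l| ∧ l * l - (p + s) * l + 1 = 0 ∧ 0 < q * (l - p) := by
  have pos : ∀ p q r s : ℝ, 0 < p → 0 < q → 0 < r → 0 < s → p * s - q * r = 1 →
      ∃ l : ℝ, 1 < l ∧ l * l - (p + s) * l + 1 = 0 ∧ p < l := by
    intro p q r s hp hq hr hs h
    have hqr := mul_pos hq hr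
    have hD : 0 ≤ (p + s) ^ 2 - 4 := by nlinarith [sq_nonneg (p - s)]
    have hsq := Real.sq_sqrt hD
    have hs0 := Real.sqrt_nonneg ((p + s) ^ 2 - 4)
    set d := Real.sqrt ((p + s) ^ 2 - 4)
    have hT : 2 < p + s := by nlinarith [sq_nonneg (p - s)]
    refine ⟨(p + s + d) / 2, by linarith, by nlinarith, ?_⟩
    by_contra hc
    push Not at hc
    have : d ≤ p - s := by linarith
    nlinarith
  rcases lt_or_gt_of_ne (show p ≠ 0 by rintro rfl; simp at h1) with hp | hp
  · have hr : r < 0 := by by_contra hc; push Not at hc; nlinarith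
    have hq : q < 0 := by by_contra hc; push Not at hc; nlinarith
    have hs : s < 0 := by by_contra hc; push Not at hc; nlinarith
    obtain ⟨l, a1, a2, a3⟩ := pos (-p) (-q) (-r) (-s) (by linarith) (by linarith) (by linarith)
      (by linarith) (by linarith)
    refine ⟨-l, by rw [abs_neg, abs_of_pos (by linarith)]; exact a1, by linarith, ?_⟩
    apply mul_pos_of_neg_of_neg hq; linarith
  · have hr : 0 < r := by by_contra hc; push Not at hc; nlinarith
    have hq : 0 < q := by by_contra hc; push Not at hc; nlinarith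
    have hs : 0 < s := by by_contra hc; push Not at hc; nlinarith
    obtain ⟨l, a1, a2, a3⟩ := pos p q r s hp hq hr hs h4
    refine ⟨l, by rw [abs_of_pos (by linarith)]; exact a1, a2, ?_⟩
    apply mul_pos hq; linarith

lemma exists_att_aux {M : SL(2, ℝ)} {lo hi : V} (hd : det2 lo hi ≠ 0)
    (hM : ∀ v, v ≠ 0 → det2 lo v * det2 v hi ≤ 0 →
      det2 lo (act M v) * det2 (act M v) hi < 0) :
    ∃ v, Att M v ∧ det2 lo v * det2 v hi ≤ 0 := by
  set D := det2 lo hi with hD
  have hDD : 0 < D * D := mul_self_pos.mpr hd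
  have coord : ∀ v : V, ∃ α β : ℝ, v = α • hi + β • -lo := by
    intro v
    refine ⟨det2 lo v / D, -det2 v hi / D, ?_⟩
    have pl := plucker v lo hi
    rw [div_eq_inv_mul, div_eq_inv_mul, mul_smul, mul_smul, ← smul_add, smul_neg, neg_smul, neg_neg,
      add_comm, ← pl, smul_smul, inv_mul_cancel₀ hd, one_smul]
  have qc : ∀ α β : ℝ, det2 lo (α • hi + β • -lo) * det2 (α • hi + β • -lo) hi
      = -(α * β) * (D * D) := by
    intro α β
    simp only [det2_add_left, det2_add_right, det2_smul_left, det2_smul_right, det2_neg_left,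
      det2_neg_right, det2_self, ← hD]
    ring
  have nz : ∀ α β : ℝ, α ≠ 0 ∨ β ≠ 0 → α • hi + β • -lo ≠ 0 := by
    intro α β h h0
    have a1 := congrArg (det2 lo) h0
    have a2 := congrArg (fun v => det2 v hi) h0
    simp only [det2_add_left, det2_add_right, det2_smul_left, det2_smul_right, det2_neg_left,
      det2_neg_right, det2_self, ← hD] at a1 a2
    simp [det2] at a1 a2
    rcases h with h | h
    · exact hd (a1.resolve_left h)
    · exact hd (a2.resolve_left h)
  obtain ⟨p, r, hp⟩ := coord (act M hi)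
  obtain ⟨q, s, hq⟩ := coord (act M (-lo))
  have img : ∀ α β : ℝ, act M (α • hi + β • -lo) =
      (α * p + β * q) • hi + (α * r + β * s) • -lo := by
    intro α β
    rw [act_add, act_smul, act_smul, hp, hq]
    module
  have key : ∀ α β : ℝ, α ≠ 0 ∨ β ≠ 0 → 0 ≤ α * β → 0 < (α * p + β * q) * (α * r + β * s) := by
    intro α β h1 h2
    have := hM _ (nz α β h1) (by rw [qc]; nlinarith)
    rw [img, qc] at this
    by_contra hc
    push Not at hc
    nlinarith
  have h1 := key 1 0 (Or.inl one_ne_zero) (by simp)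
  have h2 := key 0 1 (Or.inr one_ne_zero) (by simp)
  simp only [one_mul, zero_mul, add_zero, zero_add] at h1 h2
  have hp0 : p ≠ 0 := by rintro rfl; simp at h1
  have hq0 : q ≠ 0 := by rintro rfl; simp at h2
  have h3 : 0 < p * q := by
    rcases lt_or_gt_of_ne (mul_ne_zero hp0 hq0) with h | h
    · have := key q (-p) (Or.inl hq0) (by linarith)
      rw [show q * p + -p * q = 0 by ring, zero_mul] at this
      exact absurd this (lt_irrefl _)
    · exact h
  have h4 : p * s - q * r = 1 := by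
    have := det2_act M hi (-lo)
    rw [hp, hq] at this
    simp only [det2_add_left, det2_add_right, det2_smul_left, det2_smul_right, det2_neg_left,
      det2_neg_right, det2_self, det2_swap hi lo, ← hD] at this
    apply mul_right_cancel₀ hd
    linarith
  obtain ⟨l, a1, a2, a3⟩ := eigen_aux h1 h2 h3 h4
  refine ⟨q • hi + (l - p) • -lo, ⟨nz _ _ (Or.inl hq0), l, a1, ?_⟩, by rw [qc]; nlinarith⟩
  rw [img, smul_add, smul_smul, smul_smul]
  congr 2
  · ring
  · linarith

lemma att (h : PP ρ σ e) {x : ℤ → Letter} {n : ℕ} (hx : Cyc x n) (i : ℤ) :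
    (∃ v, Att (ρ (seg x i n)) v) ∧ ∀ v, Att (ρ (seg x i n)) v → 0 ≤ qf e (x i) v := by
  obtain ⟨r, rfl⟩ : ∃ r, n = r + 1 := ⟨n - 1, by have := hx.pos; omega⟩
  have hne : x i ≠ inv (x (i + r)) := by
    have := hx.red (i + r)
    rwa [add_assoc, show (r : ℤ) + 1 = ((r + 1 : ℕ) : ℤ) by push_cast; ring, hx.per] at this
  have hD := h.self_pos (inv (x (i + r)))
  obtain ⟨v, hv, hq⟩ := exists_att_aux (M := ρ (seg x i (r + 1)))
    (lo := e (2 * idx (inv (x (i + r))))) (hi := e (2 * idx (inv (x (i + r))) + 1))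
    (by intro h; rw [h] at hD; simp at hD)
    (fun v hv hq => h.disj (act_ne_zero _ hv) (h.pingpong hx.red r i hv hq) hne)
  have hq2 := h.pingpong hx.red r i hv.1 hq
  refine ⟨⟨v, hv⟩, fun u hu => ?_⟩
  obtain ⟨c, hc⟩ := eq_smul_of_det2 hv.1 (hv.det_eq_zero hu)
  obtain ⟨-, l, hl, he⟩ := hv
  rw [he] at hq2
  simp only [qf, hc, det2_smul_left, det2_smul_right] at hq2 ⊢
  have hl2 : 0 < l * l := by
    apply mul_self_pos.mpr; rintro rfl; simp at hl; linarith
  have : 0 ≤ det2 (e (2 * idx (x i))) v * det2 v (e (2 * idx (x i) + 1)) := by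
    by_contra hc
    push Not at hc
    nlinarith
  nlinarith [mul_nonneg (mul_self_nonneg c) this]

lemma att_inv (h : PP ρ σ e) {x : ℤ → Letter} {n : ℕ} (hx : Cyc x n) (i : ℤ) :
    (∃ v, Att (ρ (seg x i n))⁻¹ v) ∧ ∀ v, Att (ρ (seg x i n))⁻¹ v → 0 ≤ qf e (inv (x (i - 1))) v := by
  have := h.att hx.rv (-(i + n))
  rw [seg_rv, map_inv, rv] at this
  rwa [show -1 - -(i + n) = i - 1 + n by ring, hx.per] at this

lemma free (h : PP ρ σ e) {g : F} {τ : ℍ} (hg : ρ g • τ = τ) : g = 1 := by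
  by_contra h1
  obtain ⟨x, n, c, hx, rfl⟩ := exists_cyc_conj h1
  obtain ⟨u, hu⟩ := (h.att hx 0).1
  obtain ⟨v, hv⟩ := (h.att_inv hx 0).1
  apply free_of_att hu hv ((ρ c)⁻¹ • τ)
  rw [map_mul, map_mul, mul_smul, mul_smul, map_inv, smul_eq_iff_eq_inv_smul] at hg
  exact hg

end PP

/-- The combinatorial linking condition. -/
def Linked (x : ℤ → Letter) (i : ℤ) (y : ℤ → Letter) (j : ℤ) : Prop :=
  ∃ r : ℕ, (∀ k : ℕ, k < r → x (i + k) = y (j + k)) ∧
    ori (inv (x (i - 1))) (inv (y (j - 1))) (x i) *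
      ori (inv (x (i + r - 1))) (y (j + r)) (x (i + r)) < 0

lemma Linked.start {x y : ℤ → Letter} (hx : Red1 x) {i j : ℤ} (h : Linked x i y j) :
    Start x i y j := by
  obtain ⟨r, h1, h2⟩ := h
  constructor
  · intro h; rw [h] at h2; simp [ori] at h2
  · intro h
    cases r with
    | zero =>
      simp only [Nat.cast_zero, add_zero] at h2
      rw [h] at h2; simp [ori] at h2
    | succ r =>
      have := h1 0 (by omega)
      simp only [Nat.cast_zero, add_zero] at this
      apply hx (i - 1)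
      rw [sub_add_cancel, this, h]

theorem Linked.meet {ρ : F →* SL(2, ℝ)} {σ : ℝ} {e : ℕ → V} (h : PP ρ σ e)
    {x y : ℤ → Letter} {n : ℕ} (hx : Cyc x n) (hy : Cyc y n) {i j : ℤ} (hl : Linked x i y j)
    {γ δ : ℝ → ℍ} (hγ : Continuous γ) (hδ : Continuous δ)
    (eγ : ∀ t, γ (t + 1) = ρ (seg x 0 n) • γ t) (eδ : ∀ t, δ (t + 1) = ρ (seg y 0 n) • δ t) :
    ∃ s t, γ s = ρ (pre x i * (pre y j)⁻¹) • δ t := by
  obtain ⟨r, h1, h2⟩ := hl
  obtain ⟨vp, hvp⟩ := (h.att hx i).1
  obtain ⟨vm, hvm⟩ := (h.att_inv hx i).1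
  obtain ⟨up, hup⟩ := (h.att hy j).1
  obtain ⟨um, hum⟩ := (h.att_inv hy j).1
  have hU : seg x i r = seg y j r := by rw [seg, seg, wd_congr h1]
  have shift : ∀ {x : ℤ → Letter}, Cyc x n → ∀ i : ℤ,
      ρ (seg x (i + r) n) = (ρ (seg x i r))⁻¹ * ρ (seg x i n) * ρ (seg x i r) := by
    intro x hx i
    rw [hx.seg_eq, hx.seg_eq i, pre_add, ← map_inv, ← map_mul, ← map_mul]
    congr 1; group
  have o1 : ori (inv (x (i - 1))) (inv (y (j - 1))) (x i) ≠ 0 := by
    intro h; rw [h] at h2; simp at h2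
  have o2 : ori (inv (x (i + r - 1))) (y (j + r)) (x (i + r)) ≠ 0 := by
    intro h; rw [h] at h2; simp at h2
  have c1 := h.co_sign hvm.1 hum.1 hvp.1 ((h.att_inv hx i).2 _ hvm) ((h.att_inv hy j).2 _ hum)
    ((h.att hx i).2 _ hvp) o1
  have w1 := hvp.conj (ρ (seg x i r))
  have w2 := hvm.conj (ρ (seg x i r))
  have w3 := hup.conj (ρ (seg y j r))
  rw [← shift hx] at w1
  rw [← shift hy, ← hU] at w3
  have w2' : Att (ρ (seg x (i + r) n))⁻¹ (act (ρ (seg x i r))⁻¹ vm) := by
    rw [shift hx]; convert w2 using 1; group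
  have c2 := h.co_sign w2'.1 w3.1 w1.1 ((h.att_inv hx _).2 _ w2') ((h.att hy _).2 _ w3)
    ((h.att hx _).2 _ w1) o2
  rw [co_act] at c2
  have h2' : ((ori (inv (x (i - 1))) (inv (y (j - 1))) (x i) : ℝ)) *
      (ori (inv (x (i + r - 1))) (y (j + r)) (x (i + r)) : ℝ) < 0 := by exact_mod_cast h2
  have hco : co vm um vp * co vm up vp < 0 := by
    by_contra hc
    push Not at hc
    have := mul_pos c1 c2
    nlinarith [mul_nonneg (mul_self_nonneg σ) hc]
  obtain ⟨s, t, hst⟩ := paths_meet hvp hvm hup hum hco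
    (γ := fun t => (ρ (pre x i))⁻¹ • γ t) (δ := fun t => (ρ (pre y j))⁻¹ • δ t)
    (hγ.const_smul _) (hδ.const_smul _)
    (fun t => by rw [eγ, hx.seg_eq i, smul_smul, smul_smul]; congr 1; simp)
    (fun t => by rw [eδ, hy.seg_eq j, smul_smul, smul_smul]; congr 1; simp)
  refine ⟨s, t, ?_⟩
  rw [map_mul, mul_smul, map_inv, ← hst, smul_inv_smul]

end Pool.Agent.P992
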