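import Pool.Agent.P.MP_992ce1_gt.Words

/-! Decomposition of a word into sign-constant segments. -/

namespace Pool.Agent.P992

open FreeGroup hiding map_mul map_inv map_one

inductive AltS : Bool → List (List Letter) → Prop
  | nil : AltS true []
  | cons {c : Bool} {u : List Letter} {us : List (List Letter)} :
      u ≠ [] → SC c u → AltS (!c) us → AltS c (u :: us)

lemma AltS.append {c : Bool} {us vs : List (List Letter)} (h : AltS c us) (h' : AltS true vs) :
    AltS c (us ++ vs) := by
  induction h with
  | nil => exact h'
  | cons h1 h2 _ ih => exact AltS.cons h1 h2 ih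

lemma AltS.head {c : Bool} {us : List (List Letter)} (h : AltS c us) :
    ∀ z ∈ us.flatten.head?, z.2 = c := by
  cases h with
  | nil => simp
  | @cons c u us h1 h2 _ =>
    obtain ⟨x, r, rfl⟩ := List.exists_cons_of_ne_nil h1
    intro z hz
    simp at hz
    exact hz ▸ h2 x (by simp)

lemma AltS.sc {c : Bool} {u : List Letter} {us : List (List Letter)} (h : AltS c (u :: us)) :
    SC c u := by
  cases h with
  | cons _ h2 _ => exact h2

lemma AltS.mem {c : Bool} {us : List (List Letter)} (h : AltS c us) :
    ∀ u ∈ us, u ≠ [] ∧ ∃ c, SC c u := by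
  induction h with
  | nil => simp
  | cons h1 h2 _ ih =>
    intro v hv
    rcases List.mem_cons.mp hv with rfl | hv
    · exact ⟨h1, _, h2⟩
    · exact ih v hv

lemma Th_append' (i : Bool) {c : Bool} {u w : List Letter} (h0 : u ≠ []) (hu : SC c u)
    (hw : ∀ z ∈ w.head?, z.2 = !c) : Th i (u ++ w) = Th i u ++ Th i w := by
  induction u with
  | nil => exact absurd rfl h0
  | cons x u ih =>
    cases u with
    | nil =>
      cases w with
      | nil => simp [Th]
      | cons y w =>
        have h1 := hu x (by simp)
        have h2 := hw y (by simp)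
        simp [Th, conn, h1, h2]
    | cons y u =>
      have := ih (by simp) (fun z hz => hu z (by simp [hz]))
      rw [List.cons_append] at this
      simp [Th, this]

lemma AltS.Th_flatten (i : Bool) {c : Bool} {us : List (List Letter)} (h : AltS c us) :
    Th i us.flatten = (us.map (Th i)).flatten := by
  induction h with
  | nil => rfl
  | cons h1 h2 h3 ih => rw [List.flatten_cons, Th_append' i h1 h2 h3.head, ih]; simp

lemma AltS.T_mk (i : Bool) {c : Bool} {us : List (List Letter)} (h : AltS c us) :
    T i (mk us.flatten) = (if c then of i else 1) * mk (Th i us.flatten) * (of i)⁻¹ := by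
  induction h with
  | nil => simp [Th, mk_nil]
  | @cons c u us h1 h2 h3 ih =>
    rw [List.flatten_cons, Th_append' i h1 h2 h3.head, mk_append, mk_append, map_mul, ih]
    obtain ⟨x, r, rfl⟩ := List.exists_cons_of_ne_nil h1
    rw [Th_mk]
    have a1 := h2 x (by simp)
    have a2 := h2 ((x :: r).getLast (by simp)) (List.getLast_mem _)
    cases c <;> simp only [PL, QL, a1, a2] <;> simp [mul_assoc, -mul_mk]

lemma AltS.map_Th (i : Bool) {c : Bool} {us : List (List Letter)} (h : AltS c us)
    (hne : ∀ u ∈ us, Th i u ≠ []) : AltS c (us.map (Th i)) := by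
  induction h with
  | nil => exact AltS.nil
  | @cons c u us h1 h2 h3 ih =>
    obtain ⟨x, r, rfl⟩ := List.exists_cons_of_ne_nil h1
    exact AltS.cons (hne _ (by simp)) (Th_sc i x r h2).1 (ih fun u hu => hne u (by simp [hu]))

lemma exists_alt (x : Letter) (r : List Letter) (hl : ((x :: r).getLast (by simp)).2 = false) :
    ∃ us, AltS x.2 us ∧ us.flatten = x :: r := by
  induction r generalizing x with
  | nil =>
    simp only [List.getLast_singleton] at hl
    refine ⟨[[x]], AltS.cons (by simp) (by simp [SC]) (by rw [hl]; exact AltS.nil), by simp⟩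
  | cons y r ih =>
    obtain ⟨us, h1, h2⟩ := ih y (by simpa using hl)
    by_cases hxy : x.2 = y.2
    · generalize hc : y.2 = c at h1
      cases h1 with
      | nil => simp at h2
      | @cons c u us a1 a2 a3 =>
        refine ⟨(x :: u) :: us, ?_, by simpa using h2⟩
        rw [hxy, hc]
        refine AltS.cons (by simp) (fun z hz => ?_) a3
        rcases List.mem_cons.mp hz with rfl | hz
        · rw [hxy, hc]
        · exact a2 z hz
    · refine ⟨[x] :: us, AltS.cons (by simp) (by simp [SC]) ?_, by simp [h2]⟩
      have : (!x.2) = y.2 := by revert hxy; cases x.2 <;> cases y.2 <;> simp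
      rwa [this]

lemma tricho (w : List Letter) : SC true w ∨ SC false w ∨
    ∃ w₁ w₂ us, w = w₁ ++ w₂ ∧ AltS true us ∧ us.flatten = w₂ ++ w₁ := by
  have key : ∀ w : List Letter, (∃ p q, w = p ++ q ∧ SC true p ∧ SC false q) ∨
      ∃ w₁ x y w₂, w = w₁ ++ x :: y :: w₂ ∧ x.2 = false ∧ y.2 = true := by
    intro w
    induction w with
    | nil => exact Or.inl ⟨[], [], rfl, by simp [SC], by simp [SC]⟩
    | cons z w ih =>
      rcases ih with ⟨p, q, rfl, hp, hq⟩ | ⟨w₁, x, y, w₂, rfl, h1, h2⟩
      · cases hz : z.2
        · cases p with
          | nil => exact Or.inl ⟨[], z :: q, rfl, hp, by simpa [SC, hz] using hq⟩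
          | cons y p => exact Or.inr ⟨[], z, y, p ++ q, rfl, hz, hp y (by simp)⟩
        · exact Or.inl ⟨z :: p, q, rfl, by simpa [SC, hz] using hp, hq⟩
      · exact Or.inr ⟨z :: w₁, x, y, w₂, rfl, h1, h2⟩
  rcases key w with ⟨p, q, rfl, hp, hq⟩ | ⟨w₁, x, y, w₂, rfl, h1, h2⟩
  · by_cases h1 : q = []
    · subst h1; exact Or.inl (by simpa using hp)
    by_cases h2 : p = []
    · subst h2; exact Or.inr (Or.inl (by simpa using hq))
    exact Or.inr (Or.inr ⟨[], p ++ q, [p, q], rfl,
      AltS.cons h2 hp (AltS.cons h1 hq AltS.nil), by simp⟩)
  · obtain ⟨us, a1, a2⟩ := exists_alt y (w₂ ++ (w₁ ++ [x])) (by simpa using h1)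
    exact Or.inr (Or.inr ⟨w₁ ++ [x], y :: w₂, us, by simp, h2 ▸ a1, by simpa using a2⟩)

def vv (j : Bool) (u : List Letter) : ℤ := (cn j u : ℤ) - 1
def al (j : Bool) (us : List (List Letter)) : ℤ := (us.map fun u => max (vv j u) 0).sum
def sm (j : Bool) (us : List (List Letter)) : ℤ := (us.map (vv j)).sum
def NN (s : Bool → ℕ) (us : List (List Letter)) : ℤ := (us.map fun u => max (val s u) 0).sum
def aa (us : List (List Letter)) : ℤ := (us.map fun u => |vv false u + vv true u|).sum
def bb (j : Bool) (us : List (List Letter)) : ℤ := (us.map fun u => |vv j u + 2 * vv (!j) u|).sum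

lemma val_eq (s : Bool → ℕ) (j : Bool) (u : List Letter) :
    val s u = vv j u * s j + vv (!j) u * s (!j) := by
  cases j <;> simp [val, vv]; ring

lemma vv_ge (j : Bool) (u : List Letter) : -1 ≤ vv j u := by unfold vv; omega

lemma vv_add (j : Bool) (u : List Letter) : vv j u + vv (!j) u = u.length - 2 := by
  have := cn_add j u
  unfold vv; omega

lemma AltS.pot {c : Bool} {us : List (List Letter)} (h : AltS c us) (s : Bool → ℕ) :
    Pot s us.flatten (NN s us) := by
  induction h with
  | nil => exact Pot.nil
  | @cons c u us h1 h2 h3 ih =>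
    simp only [NN, List.map_cons, List.sum_cons, List.flatten_cons]
    rcases le_total (val s u) 0 with h | h
    · rw [max_eq_right h, zero_add]; exact ih.skips u
    · rw [max_eq_left h]; exact ih.take c u h1 h2

lemma al_nonneg (j : Bool) (us : List (List Letter)) : 0 ≤ al j us :=
  List.sum_nonneg (by simp)

lemma ineq1 (s : Bool → ℕ) (j : Bool) (hs : 2 * s (!j) ≤ s j) (us : List (List Letter)) :
    al j us * s j ≤ 2 * NN s us := by
  induction us with
  | nil => simp [al, NN]
  | cons u us ih =>
    simp only [al, NN, List.map_cons, List.sum_cons] at *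
    have : max (vv j u) 0 * s j ≤ 2 * max (val s u) 0 := by
      have a1 := vv_ge (!j) u
      have a2 : (2 : ℤ) * s (!j) ≤ s j := by exact_mod_cast hs
      have a3 := le_max_left (val s u) 0
      have a4 := le_max_right (val s u) 0
      rw [val_eq s j] at *
      rcases le_or_gt (vv j u) 0 with h | h
      · rw [max_eq_right h]; linarith
      · rw [max_eq_left h.le]
        have : (0 : ℤ) ≤ s (!j) := by positivity
        nlinarith
    linarith

lemma ineq2 (s : Bool → ℕ) (j : Bool) (us : List (List Letter)) :
    al (!j) us * s (!j) - (al j us - sm j us) * s j ≤ NN s us := by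
  induction us with
  | nil => simp [al, NN, sm]
  | cons u us ih =>
    simp only [al, NN, sm, List.map_cons, List.sum_cons] at *
    have : max (vv (!j) u) 0 * s (!j) - (max (vv j u) 0 - vv j u) * s j ≤ max (val s u) 0 := by
      have a3 := le_max_left (val s u) 0
      have a4 := le_max_right (val s u) 0
      have a5 := le_max_left (vv j u) 0
      have a6 := le_max_right (vv j u) 0
      have b1 : (0 : ℤ) ≤ s j := by positivity
      rw [val_eq s j] at *
      rcases le_or_gt (vv (!j) u) 0 with h | h
      · rw [max_eq_right h]; nlinarith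
      · rw [max_eq_left h.le]; nlinarith
    linarith

lemma ineq3 (s : Bool → ℕ) (j : Bool) {P Q : ℕ} (h1 : s j = P + Q) (h2 : s (!j) = P + 2 * Q)
    (us : List (List Letter)) (hne : ∀ u ∈ us, u ≠ []) :
    aa us * P + bb j us * Q + (sm j us * s j + sm (!j) us * s (!j)) ≤ 2 * NN s us := by
  induction us with
  | nil => simp [aa, bb, NN, sm]
  | cons u us ih =>
    have ih' := ih fun v hv => hne v (by simp [hv])
    simp only [aa, bb, NN, sm, List.map_cons, List.sum_cons] at *
    have : |vv false u + vv true u| * P + |vv j u + 2 * vv (!j) u| * Q + val s u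
        ≤ 2 * max (val s u) 0 := by
      have e : vv false u + vv true u = vv j u + vv (!j) u := by cases j <;> simp [add_comm]
      have a1 := vv_ge j u
      have a2 := vv_ge (!j) u
      have a3 := vv_add j u
      have a4 : 0 < u.length := List.length_pos_iff.mpr (hne u (by simp))
      have a5 := le_max_left (val s u) 0
      have a6 := le_max_right (val s u) 0
      have e2 : val s u = (vv j u + vv (!j) u) * P + (vv j u + 2 * vv (!j) u) * Q := by
        rw [val_eq s j, h1, h2]; push_cast; ring
      rw [e]
      have : (0 ≤ vv j u + vv (!j) u ∧ 0 ≤ vv j u + 2 * vv (!j) u) ∨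
          (vv j u + vv (!j) u ≤ 0 ∧ vv j u + 2 * vv (!j) u ≤ 0) := by omega
      rcases this with ⟨b1, b2⟩ | ⟨b1, b2⟩
      · rw [abs_of_nonneg b1, abs_of_nonneg b2]; linarith
      · rw [abs_of_nonpos b1, abs_of_nonpos b2]; linarith
    rw [val_eq s j] at this
    rw [val_eq s j]
    linarith

lemma ineq4 (j : Bool) (us : List (List Letter)) :
    al false us + al true us ≤ 2 * (aa us + bb j us) ∧ al (!j) us ≤ bb j us := by
  induction us with
  | nil => simp [aa, bb, al]
  | cons u us ih =>
    simp only [aa, bb, al, List.map_cons, List.sum_cons] at *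
    have a1 := vv_ge false u
    have a2 := vv_ge true u
    cases j <;> simp only [Bool.not_false, Bool.not_true] at * <;>
      constructor <;> cases abs_cases (vv false u + vv true u) <;>
      cases abs_cases (vv false u + 2 * vv true u) <;>
      cases abs_cases (vv true u + 2 * vv false u) <;> omega

lemma aa_nonneg (us : List (List Letter)) : 0 ≤ aa us :=
  List.sum_nonneg (by simp only [List.mem_map]; rintro _ ⟨u, -, rfl⟩; exact abs_nonneg _)

lemma aa_zero {us : List (List Letter)} (h : aa us = 0) : ∀ u ∈ us, u.length = 2 := by
  induction us with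
  | nil => simp
  | cons u us ih =>
    have a1 := aa_nonneg us
    have a2 := abs_nonneg (vv false u + vv true u)
    simp only [aa, List.map_cons, List.sum_cons] at *
    intro v hv
    rcases List.mem_cons.mp hv with rfl | hv
    · have a3 := vv_add false v
      have : |vv false v + vv true v| = 0 := by omega
      rw [abs_eq_zero] at this
      simp only [Bool.not_false] at a3
      omega
    · exact ih (by omega) v hv

lemma sm_le_al (j : Bool) (us : List (List Letter)) : sm j us ≤ al j us := by
  induction us with
  | nil => simp [sm, al]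
  | cons u us ih => simp only [sm, al, List.map_cons, List.sum_cons] at *; omega

lemma al_zero {j : Bool} {us : List (List Letter)} (h : al j us = 0) (h' : 0 ≤ sm j us) :
    ∀ u ∈ us, cn j u = 1 := by
  induction us with
  | nil => simp
  | cons u us ih =>
    have a1 := al_nonneg j us
    have a2 := sm_le_al j us
    simp only [al, sm, List.map_cons, List.sum_cons] at *
    intro v hv
    rcases List.mem_cons.mp hv with rfl | hv
    · unfold vv at *; omega
    · exact ih (by omega) (by omega) v hv

lemma len2 {us : List (List Letter)} (h : ∀ u ∈ us, u.length = 2) :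
    sm false us + sm true us = 0 ∧ al false us - al true us = sm false us := by
  induction us with
  | nil => simp [sm, al]
  | cons u us ih =>
    have ih' := ih fun v hv => h v (by simp [hv])
    have a1 := vv_add false u
    have a2 := h u (by simp)
    have a3 := vv_ge false u
    have a4 := vv_ge true u
    simp only [al, sm, List.map_cons, List.sum_cons, Bool.not_false] at *
    omega

lemma deg_ineq (s : Bool → ℕ) (j : Bool) {us : List (List Letter)} (h : ∀ u ∈ us, cn (!j) u = 1) :
    al j us * s j ≤ NN s us := by
  induction us with
  | nil => simp [al, NN]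
  | cons u us ih =>
    have ih' := ih fun v hv => h v (by simp [hv])
    simp only [al, NN, List.map_cons, List.sum_cons] at *
    have : max (vv j u) 0 * s j ≤ max (val s u) 0 := by
      have e : vv (!j) u = 0 := by simp [vv, h u (by simp)]
      rw [val_eq s j, e, zero_mul, add_zero]
      rcases le_total (vv j u) 0 with h | h
      · rw [max_eq_right h]; simp
      · rw [max_eq_left h]; simp
    linarith

lemma Th_fix0 (j : Bool) {c : Bool} (x : Letter) (r : List Letter) (h : SC c (x :: r))
    (h0 : cn (!j) r = 0) : Th j (x :: r) = keep j x ++ r := by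
  induction r generalizing x with
  | nil => simp [Th]
  | cons y r ih =>
    have a1 := h x (by simp)
    have a2 := h y (by simp)
    have a3 : y.1 = j ∧ cn (!j) r = 0 := by
      cases j <;> rcases y with ⟨_ | _, _⟩ <;> simp_all [cn]
    rw [Th, ih y (fun z hz => h z (by simp [hz])) a3.2]
    rcases y with ⟨y1, y2⟩
    simp_all [keep, conn]

lemma Th_fix (j : Bool) {c : Bool} {u : List Letter} (h : SC c u) (h1 : cn (!j) u = 1) :
    Th j u = u := by
  induction u with
  | nil => rfl
  | cons x r ih =>
    by_cases hx : x.1 = j
    · have a1 : cn (!j) r = 1 := by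
        cases j <;> rcases x with ⟨_ | _, _⟩ <;> simp_all [cn]
      have a2 := ih (fun z hz => h z (by simp [hz])) a1
      cases r with
      | nil => simp [cn] at a1
      | cons y r =>
        rw [Th, a2]
        have b1 := h x (by simp)
        have b2 := h y (by simp)
        rcases x with ⟨x1, x2⟩
        simp_all [keep, conn]
    · have a1 : cn (!j) r = 0 := by
        cases j <;> rcases x with ⟨_ | _, _⟩ <;> simp_all [cn]
      rw [Th_fix0 j x r h a1]; simp [keep, hx]

lemma AltS.len_Th (i : Bool) {c : Bool} {us : List (List Letter)} (h : AltS c us) :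
    ((Th i us.flatten).length : ℤ) = us.flatten.length + sm (!i) us := by
  rw [h.Th_flatten]
  induction h with
  | nil => simp [sm]
  | @cons c u us h1 h2 h3 ih =>
    obtain ⟨x, r, rfl⟩ := List.exists_cons_of_ne_nil h1
    obtain ⟨-, a2, a3⟩ := Th_sc i x r h2
    have a4 := cn_add i (Th i (x :: r))
    simp only [sm, List.map_cons, List.sum_cons, List.flatten_cons, List.length_append,
      List.length_cons, vv] at *
    omega

def sur : List Letter → ℕ
  | x :: y :: z :: r => (if z = inv x then 0 else 1) + sur (y :: z :: r)
  | _ => 0

lemma sur_cons_le (x : Letter) (w : List Letter) : sur (x :: w) ≤ 1 + sur w := by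
  match w with
  | [] => simp [sur]
  | [_] => simp [sur]
  | y :: z :: r => rw [sur]; split_ifs <;> omega

lemma sur_append_le (u w : List Letter) : sur (u ++ w) ≤ u.length + sur w := by
  induction u with
  | nil => simp
  | cons x u ih => have := sur_cons_le x (u ++ w); simp at *; omega

def ZZ (u : List Letter) : Prop := cn false u = 1 ∧ cn true u = 1

lemma ZZ.form {u : List Letter} (h : ZZ u) : ∃ x y : Letter, u = [x, y] ∧ x.1 ≠ y.1 := by
  have := cn_add false u
  obtain ⟨h1, h2⟩ := h
  simp only [Bool.not_false, h1, h2] at this
  match u, this with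
  | [x, y], _ =>
    refine ⟨x, y, rfl, ?_⟩
    rcases x with ⟨_ | _, _⟩ <;> rcases y with ⟨_ | _, _⟩ <;> simp [cn] at h1 h2 ⊢

open Classical in
noncomputable def cost (us : List (List Letter)) : ℤ :=
  (us.map fun u => if ZZ u then 0 else (u.length : ℤ) + 2).sum

open Classical in
lemma AltS.sur_le {c : Bool} {us : List (List Letter)} (h : AltS c us)
    (hr : IsReduced us.flatten) :
    (sur us.flatten : ℤ) + (if ∀ u ∈ us.head?, ZZ u then 0 else 2) ≤ cost us := by
  induction h with
  | nil => simp [sur, cost]
  | @cons c u us h1 h2 h3 ih =>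
    have ih' := ih (red_mid hr ⟨u, [], by simp⟩)
    have a1 := sur_append_le u us.flatten
    simp only [cost, List.map_cons, List.sum_cons, List.flatten_cons, List.head?_cons,
      Option.mem_def, Option.some.injEq, forall_eq'] at *
    by_cases hu : ZZ u
    · simp only [hu, if_true]
      obtain ⟨x, y, rfl, hxy⟩ := hu.form
      by_cases hv : ∀ v, us.head? = some v → ZZ v
      · rw [if_pos hv] at ih'
        have : sur ([x, y] ++ us.flatten) = sur us.flatten := by
          cases us with
          | nil => simp [sur]
          | cons v vs =>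
            obtain ⟨p, q, rfl, hpq⟩ := (hv v rfl).form
            have b1 := h2 x (by simp)
            have b2 := h2 y (by simp)
            have b3 := h3.sc p (by simp)
            have b4 := h3.sc q (by simp)
            simp only [List.flatten_cons, List.cons_append, List.nil_append,
              isReduced_cons_cons] at hr
            have b5 := hr.2.1
            have : p = inv x ∧ q = inv y := by
              revert b1 b2 b3 b4 b5 hxy hpq
              clear * -
              revert c x y p q; decide
            simp [sur, this.1, this.2]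
        omega
      · rw [if_neg hv] at ih'
        simp only [List.length_cons, List.length_nil] at a1
        omega
    · simp only [hu, if_false]
      split_ifs at ih' <;> omega

lemma cost_le (us : List (List Letter)) :
    cost us ≤ 5 * (al false us + al true us) + 4 * ((al false us - sm false us) +
      (al true us - sm true us)) := by
  induction us with
  | nil => simp [cost, al, sm]
  | cons u us ih =>
    simp only [cost, al, sm, List.map_cons, List.sum_cons] at *
    have a1 := vv_add false u
    have a2 := vv_ge false u
    have a3 := vv_ge true u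
    simp only [Bool.not_false] at a1
    split_ifs with h
    · omega
    · have : ¬ (vv false u = 0 ∧ vv true u = 0) := by
        intro hc; apply h; unfold vv at hc; constructor <;> omega
      omega

end Pool.Agent.P992
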