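import Pool.Agent.P.MP_992ce1_gt.Nielsen

/-! Positive Nielsen moves acting on words, and lower bounds for lengths. -/

namespace Pool.Agent.P992

open FreeGroup hiding map_mul map_inv map_one

def T (i : Bool) : F →* F := FreeGroup.lift fun j => if j = i then of i else of i * of j
def Tinv (i : Bool) : F →* F := FreeGroup.lift fun j => if j = i then of i else (of i)⁻¹ * of j

def Taut (i : Bool) : MulAut F :=
  MonoidHom.toMulEquiv (T i) (Tinv i)
    (FreeGroup.ext_hom _ _ fun j => by cases i <;> cases j <;> simp [T, Tinv])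
    (FreeGroup.ext_hom _ _ fun j => by cases i <;> cases j <;> simp [T, Tinv])

lemma Taut_apply (i : Bool) (g : F) : Taut i g = T i g := rfl

def Tm : List Bool → (F →* F)
  | [] => MonoidHom.id F
  | i :: m => (Tm m).comp (T i)

lemma Tm_cons (i : Bool) (m : List Bool) (g : F) : Tm (i :: m) g = Tm m (T i g) := rfl

def dl (x y z : Letter) : Letter :=
  if z.2 then (if z.1 then y else x) else inv (if z.1 then y else x)

def lm (x y : Letter) : F →* F := sub2 (el x) (el y)

lemma lm_el (x y z : Letter) : lm x y (el z) = el (dl x y z) := by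
  rcases z with ⟨_ | _, _ | _⟩ <;> simp [lm, dl, el_true, el_false, el_inv]

lemma lm_mk (x y : Letter) (L : List Letter) : lm x y (mk L) = mk (L.map (dl x y)) := by
  induction L with
  | nil => simp [mk_nil]
  | cons z L ih => rw [mk_cons, map_mul, lm_el, ih, List.map_cons, mk_cons]

lemma lm_norm_le (x y : Letter) (g : F) : (lm x y g).norm ≤ g.norm := by
  conv_lhs => rw [← mk_toWord (x := g), lm_mk]
  exact norm_mk_le.trans (by simp [FreeGroup.norm])

lemma dl_inv : ∀ x y : Letter, x.1 ≠ y.1 → ∃ x' y' : Letter, x'.1 ≠ y'.1 ∧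
    (∀ z, dl x' y' (dl x y z) = z) ∧ ∀ z, dl x y (dl x' y' z) = z := by decide

lemma lm_lm {x y x' y' : Letter} (h : ∀ z, dl x' y' (dl x y z) = z) (g : F) :
    lm x' y' (lm x y g) = g := by
  conv_lhs => rw [← mk_toWord (x := g), lm_mk, lm_mk]
  simp [Function.comp_def, h, mk_toWord]

lemma lm_aut {x y : Letter} (h : x.1 ≠ y.1) :
    ∃ ψ : MulAut F, (∀ g, ψ g = lm x y g) ∧ ∀ g, (ψ g).norm = g.norm := by
  obtain ⟨x', y', -, h1, h2⟩ := dl_inv x y h
  refine ⟨MonoidHom.toMulEquiv (lm x y) (lm x' y') (MonoidHom.ext (lm_lm h1))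
    (MonoidHom.ext (lm_lm h2)), fun g => rfl, fun g => le_antisymm (lm_norm_le _ _ _) ?_⟩
  conv_lhs => rw [← lm_lm h1 g]
  exact lm_norm_le _ _ _

lemma Pos.form {u v : F} (h : Pos u v) : ∃ (h : F) (x y : Letter) (m : List Bool), x.1 ≠ y.1 ∧
    u = h * lm x y (Tm m a) * h⁻¹ ∧ v = h * lm x y (Tm m b) * h⁻¹ := by
  induction h with
  | base h x y hxy => exact ⟨h, x, y, [], hxy, by simp [Tm, lm, a], by simp [Tm, lm, b]⟩
  | stepA _ ih =>
    obtain ⟨h, x, y, m, hxy, rfl, rfl⟩ := ih
    refine ⟨h, x, y, false :: m, hxy, by simp [Tm_cons, T, a], ?_⟩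
    simp [Tm_cons, T, a, b, mul_assoc]
  | stepB _ ih =>
    obtain ⟨h, x, y, m, hxy, rfl, rfl⟩ := ih
    refine ⟨h, x, y, true :: m, hxy, ?_, by simp [Tm_cons, T, b]⟩
    simp [Tm_cons, T, a, b, mul_assoc]

theorem aut_form (φ : MulAut F) : ∃ (h : F) (x y : Letter) (m : List Bool) (s t : Bool),
    x.1 ≠ y.1 ∧ ∀ g, φ g = h * lm x y (Tm m (lm (false, s) (true, t) g)) * h⁻¹ := by
  have : ∃ s t : Bool, Pos (φ (lm (false, s) (true, t) a)) (φ (lm (false, s) (true, t) b)) := by
    rcases nf_aut φ with h | h | h | h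
    · exact ⟨true, true, by simpa [lm, a, b, el_true, el_false] using h⟩
    · exact ⟨false, true, by simpa [lm, a, b, el_true, el_false] using h⟩
    · exact ⟨true, false, by simpa [lm, a, b, el_true, el_false] using h⟩
    · exact ⟨false, false, by simpa [lm, a, b, el_true, el_false] using h⟩
  obtain ⟨s, t, hp⟩ := this
  obtain ⟨h, x, y, m, hxy, h1, h2⟩ := hp.form
  refine ⟨h, x, y, m, s, t, hxy, fun g => ?_⟩
  have e : φ.toMonoidHom.comp (lm (false, s) (true, t)) =
      (MulAut.conj h).toMonoidHom.comp ((lm x y).comp (Tm m)) :=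
    FreeGroup.ext_hom _ _ fun j => by cases j; exacts [h1, h2]
  have := DFunLike.congr_fun e (lm (false, s) (true, t) g)
  rw [MonoidHom.comp_apply, lm_lm (by cases s <;> cases t <;> decide)] at this
  exact this

def keep (i : Bool) (x : Letter) : List Letter := if x.1 = i then [] else [x]
def conn (i : Bool) (x y : Letter) : List Letter := if x.2 = y.2 then [(i, x.2)] else []

def Th (i : Bool) : List Letter → List Letter
  | [] => []
  | [x] => keep i x
  | x :: y :: r => keep i x ++ conn i x y ++ Th i (y :: r)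

def PL (i : Bool) (x : Letter) : F := if x.2 then of i else 1
def QL (i : Bool) (x : Letter) : F := if x.2 then 1 else (of i)⁻¹

lemma T_el (i : Bool) (x : Letter) : T i (el x) = PL i x * mk (keep i x) * QL i x := by
  cases i <;> rcases x with ⟨_ | _, _ | _⟩ <;>
    simp [T, PL, QL, keep, el_true, el_false, mk_nil, mk_cons]

lemma QL_PL (i : Bool) (x y : Letter) : QL i x * PL i y = mk (conn i x y) := by
  rcases x with ⟨_, _ | _⟩ <;> rcases y with ⟨_, _ | _⟩ <;>
    simp [PL, QL, conn, el_true, el_false, mk_nil, mk_cons]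

lemma Th_mk (i : Bool) (x : Letter) (r : List Letter) :
    T i (mk (x :: r)) = PL i x * mk (Th i (x :: r)) * QL i ((x :: r).getLast (by simp)) := by
  induction r generalizing x with
  | nil => simpa [Th, el] using T_el i x
  | cons y r ih =>
    rw [mk_cons, map_mul, ih, T_el, Th, mk_append, mk_append, ← QL_PL, List.getLast_cons_cons]
    simp only [mul_assoc]

lemma Th_append (i : Bool) (u w : List Letter) : ∃ c, Th i (u ++ w) = Th i u ++ c ++ Th i w := by
  induction u with
  | nil => exact ⟨[], by simp [Th]⟩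
  | cons x u ih =>
    obtain ⟨c, hc⟩ := ih
    cases u with
    | nil =>
      cases w with
      | nil => exact ⟨[], by simp [Th]⟩
      | cons y w => exact ⟨conn i x y, by simp [Th]⟩
    | cons y u =>
      refine ⟨c, ?_⟩
      rw [List.cons_append] at hc
      simp [Th, hc]

def hd (i : Bool) (x : Letter) (z : Letter) : Prop :=
  (x.1 ≠ i ∧ z = x) ∨ (x.1 = i ∧ (z = x ∨ (z.1 ≠ i ∧ z.2 ≠ x.2)))

lemma Th_red_aux (i : Bool) (x : Letter) (r : List Letter) (h : IsReduced (x :: r)) :
    IsReduced (Th i (x :: r)) ∧ ∀ z ∈ (Th i (x :: r)).head?, hd i x z := by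
  induction r generalizing x with
  | nil =>
    cases i <;> rcases x with ⟨_ | _, _ | _⟩ <;> simp [Th, keep, hd]
  | cons y r ih =>
    obtain ⟨h1, h2⟩ := isReduced_cons_cons.mp h
    obtain ⟨a1, a2⟩ := ih y h2
    rw [Th]
    generalize Th i (y :: r) = w at a1 a2
    cases w with
    | nil =>
      cases i <;> rcases x with ⟨_ | _, _ | _⟩ <;> rcases y with ⟨_ | _, _ | _⟩ <;>
        simp [keep, conn, hd, isReduced_cons_cons]
    | cons z w =>
      have a3 := a2 z (by simp)
      cases i <;> rcases x with ⟨_ | _, _ | _⟩ <;> rcases y with ⟨_ | _, _ | _⟩ <;>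
        rcases z with ⟨_ | _, _ | _⟩ <;>
        simp [keep, conn, hd, isReduced_cons_cons, a1] at h1 a3 ⊢

lemma Th_red (i : Bool) {w : List Letter} (h : IsReduced w) : IsReduced (Th i w) := by
  cases w with
  | nil => exact h
  | cons x r => exact (Th_red_aux i x r h).1

def SC (s : Bool) (u : List Letter) : Prop := ∀ z ∈ u, z.2 = s

def cn (j : Bool) (u : List Letter) : ℕ := u.countP fun z => z.1 = j

lemma cn_add (j : Bool) (u : List Letter) : cn j u + cn (!j) u = u.length := by
  induction u with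
  | nil => rfl
  | cons z u ih =>
    cases j <;> rcases z with ⟨_ | _, _⟩ <;> simp [cn] at ih ⊢ <;> omega

lemma cn_append (j : Bool) (u v : List Letter) : cn j (u ++ v) = cn j u + cn j v := by
  simp [cn]

lemma Th_sc (i : Bool) {s : Bool} (x : Letter) (r : List Letter) (h : SC s (x :: r)) :
    SC s (Th i (x :: r)) ∧ cn (!i) (Th i (x :: r)) = cn (!i) (x :: r) ∧
      cn i (Th i (x :: r)) = r.length := by
  induction r generalizing x with
  | nil =>
    have := h x (by simp)
    cases i <;> rcases x with ⟨_ | _, _⟩ <;> simp_all [Th, keep, SC, cn]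
  | cons y r ih =>
    obtain ⟨a1, a2, a3⟩ := ih y (fun z hz => h z (by simp [hz]))
    have b1 := h x (by simp)
    have b2 := h y (by simp)
    rw [Th]
    refine ⟨fun z hz => ?_, ?_, ?_⟩
    · simp only [List.mem_append] at hz
      rcases hz with (hz | hz) | hz
      · unfold keep at hz; split_ifs at hz <;> simp_all
      · unfold conn at hz; split_ifs at hz <;> simp_all
      · exact a1 z hz
    · rw [cn_append, cn_append, a2]
      cases i <;> rcases x with ⟨_ | _, _⟩ <;> simp_all [keep, conn, cn, List.countP_cons] <;> omega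
    · rw [cn_append, cn_append, a3]
      cases i <;> rcases x with ⟨_ | _, _⟩ <;> simp_all [keep, conn, cn] <;> omega

def val (s : Bool → ℕ) (u : List Letter) : ℤ :=
  ((cn false u : ℤ) - 1) * s false + ((cn true u : ℤ) - 1) * s true

inductive Pot (s : Bool → ℕ) : List Letter → ℤ → Prop
  | nil : Pot s [] 0
  | skip {w t} (x : Letter) : Pot s w t → Pot s (x :: w) t
  | take {w t} (c : Bool) (u : List Letter) : u ≠ [] → SC c u → Pot s w t →
      Pot s (u ++ w) (val s u + t)
  | mono {w t t'} : t' ≤ t → Pot s w t → Pot s w t'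

lemma Pot.skips {s : Bool → ℕ} {w : List Letter} {t : ℤ} (h : Pot s w t) (c : List Letter) :
    Pot s (c ++ w) t := by
  induction c with
  | nil => exact h
  | cons x c ih => exact ih.skip x

lemma Pot.take' {s : Bool → ℕ} {w : List Letter} {t : ℤ} (h : Pot s w t) {c : Bool}
    {u : List Letter} (hu : SC c u) : Pot s (u ++ w) (val s u + t) := by
  by_cases h0 : u = []
  · subst h0
    refine h.mono ?_
    simp only [val, cn, List.countP_nil]
    push_cast; omega
  · exact h.take c u h0 hu

lemma Pot.append {s : Bool → ℕ} {w w' : List Letter} {t t' : ℤ} (h : Pot s w t)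
    (h' : Pot s w' t') : Pot s (w ++ w') (t + t') := by
  induction h with
  | nil => simpa using h'
  | skip x _ ih => exact ih.skip x
  | take c u h1 h2 _ ih => rw [List.append_assoc, add_assoc]; exact ih.take c u h1 h2
  | mono h1 _ ih => exact ih.mono (by omega)

def wstep (i : Bool) (s : Bool → ℕ) : Bool → ℕ := fun j => if j = i then s i else s false + s true

def wt : List Bool → Bool → ℕ
  | [] => fun _ => 1
  | i :: m => wstep i (wt m)

lemma val_Th (i : Bool) (s : Bool → ℕ) {c : Bool} {u : List Letter} (h0 : u ≠ []) (h : SC c u) :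
    val (wstep i s) u = val s (Th i u) := by
  obtain ⟨x, r, rfl⟩ := List.exists_cons_of_ne_nil h0
  obtain ⟨-, a2, a3⟩ := Th_sc i x r h
  have a4 := cn_add i (x :: r)
  rw [List.length_cons, ← a3] at a4
  cases i <;> simp only [val, wstep, Bool.not_false, Bool.not_true] at * <;> rw [a2]
  · have : (cn false (Th false (x :: r)) : ℤ) = cn false (x :: r) + cn true (x :: r) - 1 := by omega
    rw [this]; simp; ring
  · have : (cn true (Th true (x :: r)) : ℤ) = cn false (x :: r) + cn true (x :: r) - 1 := by omega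
    rw [this]; simp; ring

lemma Pot.Th {i : Bool} {s : Bool → ℕ} {w : List Letter} {t : ℤ} (h : Pot (wstep i s) w t) :
    Pot s (Th i w) t := by
  induction h with
  | nil => exact Pot.nil
  | @skip w t x _ ih =>
    obtain ⟨c, hc⟩ := Th_append i [x] w
    rw [List.singleton_append] at hc
    rw [hc]; exact ih.skips _
  | @take w t c u h1 h2 _ ih =>
    obtain ⟨d, hd⟩ := Th_append i u w
    rw [hd, val_Th i s h1 h2, List.append_assoc]
    obtain ⟨x, r, rfl⟩ := List.exists_cons_of_ne_nil h1
    exact (ih.skips d).take' (Th_sc i x r h2).1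
  | mono h1 _ ih => exact ih.mono h1

lemma Pot.le_length {w : List Letter} {t : ℤ} (h : Pot (fun _ => 1) w t) : t ≤ w.length := by
  induction h with
  | nil => simp
  | skip x _ ih => simp; omega
  | take c u h1 h2 _ ih =>
    have := cn_add false u
    simp only [val, List.length_append, Bool.not_false] at *
    omega
  | mono h1 _ ih => omega

lemma pot_norm (m : List Bool) : ∃ C : ℕ, ∀ (w : List Letter) (t : ℤ), IsReduced w →
    Pot (wt m) w t → t ≤ (Tm m (mk w)).norm + C := by
  induction m with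
  | nil =>
    refine ⟨0, fun w t hw h => ?_⟩
    have := h.le_length
    simp only [Tm, MonoidHom.id_apply, norm_of_red hw]
    omega
  | cons i m ih =>
    obtain ⟨C, hC⟩ := ih
    refine ⟨C + 2 * (Tm m (of i)).norm, fun w t hw h => ?_⟩
    have h1 := hC _ t (Th_red i hw) h.Th
    cases w with
    | nil =>
      simp only [Th, mk_nil, map_one] at h1 ⊢
      push_cast; omega
    | cons x r =>
      have e : mk (Th i (x :: r)) =
          (PL i x)⁻¹ * T i (mk (x :: r)) * (QL i ((x :: r).getLast (by simp)))⁻¹ := by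
        rw [Th_mk]; group
      have p1 : (Tm m (PL i x)⁻¹).norm ≤ (Tm m (of i)).norm := by
        unfold PL; split_ifs <;> simp
      have p2 : (Tm m (QL i ((x :: r).getLast (by simp)))⁻¹).norm ≤ (Tm m (of i)).norm := by
        unfold QL; split_ifs <;> simp
      rw [e, map_mul, map_mul] at h1
      have q1 := norm_mul_le (Tm m (PL i x)⁻¹ * Tm m (T i (mk (x :: r))))
        (Tm m (QL i ((x :: r).getLast (by simp)))⁻¹)
      have q2 := norm_mul_le (Tm m (PL i x)⁻¹) (Tm m (T i (mk (x :: r))))
      rw [Tm_cons]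
      push_cast; omega

lemma norm_pow_le (g : F) (n : ℕ) : (g ^ n).norm ≤ n * g.norm := by
  induction n with
  | zero => simp
  | succ n ih => rw [pow_succ, add_mul, one_mul]; exact (FreeGroup.norm_mul_le _ _).trans (by omega)

lemma mk_flatten_replicate (w : List Letter) (n : ℕ) :
    mk (List.replicate n w).flatten = mk w ^ n := by
  induction n with
  | zero => simp [mk_nil]
  | succ n ih => rw [List.replicate_succ, List.flatten_cons, mk_append, ih, pow_succ']

lemma self_mem_cls (g : F) : g ∈ cls g := Or.inl (IsConj.refl g)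

lemma cls_pow_norm {g k : F} (hk : k ∈ cls g) : ∃ D : ℕ, ∀ n : ℕ, (g ^ n).norm ≤ n * k.norm + D := by
  have key : ∀ g : F, IsConj g k → ∃ D : ℕ, ∀ n : ℕ, (g ^ n).norm ≤ n * k.norm + D := by
    intro g hk
    obtain ⟨c, hc⟩ := isConj_iff.mp hk.symm
    refine ⟨2 * c.norm, fun n => ?_⟩
    rw [← hc, conj_pow]
    have q1 := norm_mul_le (c * k ^ n) c⁻¹
    have q2 := norm_mul_le c (k ^ n)
    have q3 := norm_pow_le k n
    rw [norm_inv_eq] at q1
    omega
  rcases hk with hk | hk
  · exact key g hk
  · obtain ⟨D, hD⟩ := key _ hk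
    exact ⟨D, fun n => by rw [← norm_inv_eq, ← inv_pow]; exact hD n⟩

theorem le_wl {w : List Letter} (hw : IsCyclicallyReduced w) (m : List Bool) {t C : ℤ}
    (h : ∀ n : ℕ, Pot (wt m) (List.replicate n w).flatten (n * t - C)) :
    t ≤ wl (cls (Tm m (mk w))) := by
  obtain ⟨k, hk, hk'⟩ := Nat.sInf_mem (s := FreeGroup.norm '' cls (Tm m (mk w)))
    ⟨_, _, self_mem_cls _, rfl⟩
  unfold wl
  rw [← hk']
  obtain ⟨D, hD⟩ := cls_pow_norm hk
  obtain ⟨C', hC'⟩ := pot_norm m
  by_contra hc
  push Not at hc
  set n := (C + C' + D).toNat + 1 with hn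
  have h1 := hC' _ _ (hw.flatten_replicate n).1 (h n)
  rw [mk_flatten_replicate, map_pow] at h1
  have h2 : ((Tm m (mk w) ^ n).norm : ℤ) ≤ n * k.norm + D := by exact_mod_cast hD n
  have h3 : (n : ℤ) * (k.norm + 1) ≤ n * t := mul_le_mul_of_nonneg_left hc (by positivity)
  have h4 : C + C' + D < n := by omega
  linarith

lemma Pot.replicate {s : Bool → ℕ} {w : List Letter} {t : ℤ} (h : Pot s w t) (n : ℕ) :
    Pot s (List.replicate n w).flatten (n * t - 0) := by
  induction n with
  | zero => simpa using Pot.nil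
  | succ n ih =>
    rw [List.replicate_succ, List.flatten_cons]
    convert h.append ih using 1
    push_cast; ring

end Pool.Agent.P992
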